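import Pool.Agent.Lib_helper72.ZC.Defs

/-!
# Block A1: infima modulo null sets
-/

namespace Pool.Agent.ZC

open MeasureTheory

variable {Ω : Type} [MeasurableSpace Ω] (μ : Measure Ω) [IsProbabilityMeasure μ]

theorem exists_einf_pr {J : Type} (A : J → Set Ω) (hA : ∀ j, MeasurableSet (A j)) :
    ∃ J' : Set J, J'.Countable ∧ ∀ j, μ ((⋂ i ∈ J', A i) \ A j) = 0 := by
  classical
  let S : Set ENNReal := {t | ∃ J' : Set J, J'.Countable ∧ μ (⋂ i ∈ J', A i) = t}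
  have hS : S.Nonempty := ⟨_, ∅, Set.countable_empty, rfl⟩
  obtain ⟨u, -, hu, huS⟩ := exists_seq_tendsto_sInf hS (OrderBot.bddBelow S)
  choose J' hJ' hJu using huS
  let K : Set J := ⋃ n, J' n
  have hK : K.Countable := Set.countable_iUnion hJ'
  have hle : ∀ n, μ (⋂ i ∈ K, A i) ≤ u n := by
    intro n
    rw [← hJu n]
    refine measure_mono ?_
    intro x hx
    simp only [Set.mem_iInter] at hx ⊢
    exact fun i hi => hx i (Set.mem_iUnion.2 ⟨n, hi⟩)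
  have hmin : ∀ L : Set J, L.Countable → μ (⋂ i ∈ K, A i) ≤ μ (⋂ i ∈ L, A i) := by
    intro L hL
    refine (ge_of_tendsto' hu hle).trans ?_
    exact csInf_le (OrderBot.bddBelow S) ⟨L, hL, rfl⟩
  refine ⟨K, hK, fun j => ?_⟩
  have hm : MeasurableSet (⋂ i ∈ K, A i) := MeasurableSet.biInter hK fun i _ => hA i
  have h1 := hmin (insert j K) (hK.insert j)
  have h2 : (⋂ i ∈ insert j K, A i) = (⋂ i ∈ K, A i) ∩ A j := by
    rw [Set.biInter_insert, Set.inter_comm]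
  rw [h2] at h1
  have h3 := measure_inter_add_sdiff (μ := μ) (⋂ i ∈ K, A i) (hA j)
  have h4 : μ (⋂ i ∈ K, A i) ≠ ⊤ := measure_ne_top _ _
  have h5 : μ ((⋂ i ∈ K, A i) ∩ A j) = μ (⋂ i ∈ K, A i) :=
    le_antisymm (measure_mono Set.inter_subset_left) h1
  rw [h5] at h3
  by_contra hne
  have h6 : μ (⋂ i ∈ K, A i) < μ (⋂ i ∈ K, A i) + μ ((⋂ i ∈ K, A i) \ A j) :=
    ENNReal.lt_add_right h4 hne
  exact absurd h3 h6.ne'

end Pool.Agent.ZC
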