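import Pool.Agent.Lib_helper72.ZC.Defs

/-! # ZC, block A2: infima of functions which are continuous off a thin set -/

namespace Pool.Agent.ZC

open MeasureTheory Cardinal Filter Topology

theorem a2_cyl_of_open {U : Set (ℕ → Bool)} (hU : IsOpen U) {z : ℕ → Bool} (hz : z ∈ U) :
    ∃ n : ℕ, ∀ z' : ℕ → Bool, (∀ k < n, z' k = z k) → z' ∈ U := by
  obtain ⟨V, hV, hzV, hVU⟩ :=
    (PiNat.isTopologicalBasis_cylinders (fun _ : ℕ => Bool)).exists_subset_of_mem_open hz hU
  obtain ⟨x, n, rfl⟩ := hV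
  refine ⟨n, fun z' hz' => hVU ?_⟩
  rw [PiNat.mem_cylinder_iff] at hzV ⊢
  intro i hi
  rw [hz' i hi, hzV i hi]

theorem a2_open_cyl (z : ℕ → Bool) (n : ℕ) : IsOpen {z' : ℕ → Bool | ∀ k < n, z' k = z k} := by
  have := PiNat.isOpen_cylinder (fun _ : ℕ => Bool) z n
  have h2 : {z' : ℕ → Bool | ∀ k < n, z' k = z k} = PiNat.cylinder z n := by
    ext z'
    simp [PiNat.mem_cylinder_iff]
  rw [h2]
  exact this

section core

variable {Ω : Type} [MeasurableSpace Ω] (μ : Measure Ω) [IsProbabilityMeasure μ]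

theorem a2_approx {J : Type} (A : J → Set Ω) (hA : ∀ j, MeasurableSet (A j)) (J' : Set J)
    (hJ' : J'.Countable) (ε : ℝ) (hε : 0 < ε) :
    ∃ F : Finset J, μ.real (⋂ i ∈ F, A i) < μ.real (⋂ i ∈ J', A i) + ε := by
  classical
  rcases J'.eq_empty_or_nonempty with rfl | hne
  · refine ⟨∅, ?_⟩
    simp [hε]
  · obtain ⟨f, hf⟩ := hJ'.exists_eq_range hne
    have h1 : (⋂ i ∈ J', A i) = ⋂ n : ℕ, ⋂ k ∈ Finset.range (n + 1), A (f k) := by
      rw [hf]
      ext x
      simp only [Set.mem_iInter, Set.mem_range, forall_exists_index,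
        forall_apply_eq_imp_iff, Finset.mem_range]
      constructor
      · intro h n k _
        exact h k
      · intro h a
        exact h a a (Nat.lt_succ_self a)
    have h2 : Tendsto (fun n : ℕ => μ (⋂ k ∈ Finset.range (n + 1), A (f k))) atTop
        (𝓝 (μ (⋂ n : ℕ, ⋂ k ∈ Finset.range (n + 1), A (f k)))) := by
      apply tendsto_measure_iInter_atTop
      · intro n
        exact (Finset.measurableSet_biInter _ fun k _ => hA (f k)).nullMeasurableSet
      · intro a b hab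
        apply Set.biInter_subset_biInter_left
        intro k hk
        simp only [Finset.coe_range, Set.mem_Iio] at hk ⊢
        exact lt_of_lt_of_le hk (Nat.succ_le_succ hab)
      · exact ⟨0, measure_ne_top _ _⟩
    have h3 : Tendsto (fun n : ℕ => μ.real (⋂ k ∈ Finset.range (n + 1), A (f k))) atTop
        (𝓝 (μ.real (⋂ i ∈ J', A i))) := by
      rw [h1]
      exact (ENNReal.tendsto_toReal (measure_ne_top _ _)).comp h2
    obtain ⟨n, hn⟩ := (h3.eventually (gt_mem_nhds (show μ.real (⋂ i ∈ J', A i) <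
      μ.real (⋂ i ∈ J', A i) + ε by linarith))).exists
    refine ⟨(Finset.range (n + 1)).image f, ?_⟩
    have h4 : (⋂ i ∈ (Finset.range (n + 1)).image f, A i) =
        ⋂ k ∈ Finset.range (n + 1), A (f k) := by
      ext x
      simp
    rw [h4]
    exact hn

theorem a2_symm {J : Type} (F : Finset J) (A B : J → Set Ω) :
    μ.real (symmDiff (⋂ i ∈ F, A i) (⋂ i ∈ F, B i)) ≤ ∑ i ∈ F, μ.real (symmDiff (A i) (B i)) := by
  calc μ.real (symmDiff (⋂ i ∈ F, A i) (⋂ i ∈ F, B i))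
      ≤ μ.real (⋃ i ∈ F, symmDiff (A i) (B i)) := by
        apply measureReal_mono _ (measure_ne_top _ _)
        intro x hx
        rw [Set.mem_symmDiff] at hx
        simp only [Set.mem_iInter, not_forall, Set.mem_iUnion] at hx ⊢
        rcases hx with ⟨h1, i, hi, h2⟩ | ⟨h1, i, hi, h2⟩
        · exact ⟨i, hi, Or.inl ⟨h1 i hi, h2⟩⟩
        · exact ⟨i, hi, Or.inr ⟨h1 i hi, h2⟩⟩
    _ ≤ ∑ i ∈ F, μ.real (symmDiff (A i) (B i)) := measureReal_biUnion_finset_le _ _

/-- Finite intersections are continuous. -/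
theorem a2_cts {J : Type} (Y : Set (ℕ → Bool)) {G : J → (ℕ → Bool) → Set Ω}
    (h : ∀ j, Cts μ Y (G j)) (F : Finset J) : Cts μ Y fun z => ⋂ j ∈ F, G j z := by
  intro z hz ε hε
  have hpos : 0 < ε / (F.card + 1) := by positivity
  choose n hn using fun j => h j z hz (ε / (F.card + 1)) hpos
  refine ⟨F.sup n, fun z' hz' hk => ?_⟩
  calc μ.real (symmDiff (⋂ j ∈ F, G j z) (⋂ j ∈ F, G j z'))
      ≤ ∑ i ∈ F, μ.real (symmDiff (G i z) (G i z')) := a2_symm μ F _ _
    _ ≤ ∑ _i ∈ F, ε / (F.card + 1) := by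
        apply Finset.sum_le_sum
        intro i hi
        exact (hn i z' hz' fun k hk' => hk k (lt_of_lt_of_le hk' (Finset.le_sup hi))).le
    _ = F.card * (ε / (F.card + 1)) := by rw [Finset.sum_const, nsmul_eq_mul]
    _ < ε := by
        rw [mul_div_assoc', div_lt_iff₀ (by positivity)]
        nlinarith

theorem a2_diff {A B : Set Ω} (hB : MeasurableSet B) (h : μ (B \ A) = 0)
    (hA : MeasurableSet A) : μ.real (A \ B) = μ.real A - μ.real B := by
  have h1 : μ.real (A ∩ B) + μ.real (A \ B) = μ.real A := measureReal_inter_add_sdiff hB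
  have h2 : μ.real (B ∩ A) + μ.real (B \ A) = μ.real B := measureReal_inter_add_sdiff hA
  have h3 : μ.real (B \ A) = 0 := by rw [measureReal_def, h]; rfl
  rw [Set.inter_comm B A, h3] at h2
  linarith

theorem thin_inf_pr {κ : Cardinal.{0}} (hκ : ℵ₀ ≤ κ) {J : Type} (hJ : #J ≤ κ)
    {G : J → (ℕ → Bool) → Set Ω} (hG : ∀ j z, MeasurableSet (G j z)) (hT : ∀ j, Thin μ κ (G j))
    {H : (ℕ → Bool) → Set Ω}
    (hH : ∀ z, ∃ J' : Set J, J'.Countable ∧ H z = ⋂ i ∈ J', G i z)
    (hH' : ∀ z j, μ (H z \ G j z) = 0) : Thin μ κ H := by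
  classical
  choose A N hA hNc hNi hNG using hT
  have hHm : ∀ z, MeasurableSet (H z) := by
    intro z
    obtain ⟨J', hJ', h⟩ := hH z
    rw [h]
    exact MeasurableSet.biInter hJ' fun i _ => hG i z
  let Y : Set (ℕ → Bool) := (⋃ p : (Σ j, A j), N p.1 p.2)ᶜ
  have hYG : ∀ j, Cts μ Y (G j) := by
    intro j z hz ε hε
    have hsub : ∀ z, z ∈ Y → z ∈ (⋃ a, N j a)ᶜ := by
      intro z hz h
      apply hz
      rw [Set.mem_iUnion] at h ⊢
      obtain ⟨a, ha⟩ := h
      exact ⟨⟨j, a⟩, ha⟩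
    obtain ⟨n, hn⟩ := hNG j z (hsub z hz) ε hε
    exact ⟨n, fun z' hz' hk => hn z' (hsub z' hz') hk⟩
  have hYF := a2_cts μ Y hYG
  -- null differences for finite intersections
  have hnull : ∀ z (F : Finset J), μ (H z \ ⋂ i ∈ F, G i z) = 0 := by
    intro z F
    have h1 : H z \ (⋂ i ∈ F, G i z) = ⋃ i ∈ F, (H z \ G i z) := by
      ext x
      simp only [Set.mem_sdiff, Set.mem_iInter, not_forall, Set.mem_iUnion, exists_prop]
      constructor
      · rintro ⟨h1, i, hi, h2⟩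
        exact ⟨i, hi, h1, h2⟩
      · rintro ⟨i, hi, h1, h2⟩
        exact ⟨h1, i, hi, h2⟩
    rw [h1]
    exact (measure_biUnion_null_iff (Finset.countable_toSet F)).2 fun i _ => hH' z i
  have hFm : ∀ z (F : Finset J), MeasurableSet (⋂ i ∈ F, G i z) := fun z F =>
    Finset.measurableSet_biInter _ fun i _ => hG i z
  have hmle : ∀ z (F : Finset J), μ.real (H z) ≤ μ.real (⋂ i ∈ F, G i z) := by
    intro z F
    have h1 := a2_diff μ (hHm z) (hnull z F) (hFm z F)
    have h2 : 0 ≤ μ.real ((⋂ i ∈ F, G i z) \ H z) := measureReal_nonneg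
    linarith
  -- the measures of near sets
  have hclose : ∀ z z' (F : Finset J), μ.real (⋂ i ∈ F, G i z') ≤
      μ.real (⋂ i ∈ F, G i z) + μ.real (symmDiff (⋂ i ∈ F, G i z) (⋂ i ∈ F, G i z')) := by
    intro z z' F
    calc μ.real (⋂ i ∈ F, G i z')
        ≤ μ.real ((⋂ i ∈ F, G i z) ∪ symmDiff (⋂ i ∈ F, G i z) (⋂ i ∈ F, G i z')) := by
          apply measureReal_mono _ (measure_ne_top _ _)
          intro x hx
          by_cases h : x ∈ ⋂ i ∈ F, G i z
          · exact Or.inl h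
          · exact Or.inr (Or.inr ⟨hx, h⟩)
      _ ≤ _ := measureReal_union_le _ _
  -- upper semicontinuity
  have husc : ∀ z ∈ Y, ∀ ε : ℝ, 0 < ε → ∃ F : Finset J, ∃ n : ℕ,
      μ.real (⋂ i ∈ F, G i z) < μ.real (H z) + ε ∧
      ∀ z' ∈ Y, (∀ k < n, z' k = z k) →
        μ.real (symmDiff (⋂ i ∈ F, G i z) (⋂ i ∈ F, G i z')) < ε ∧
        μ.real (⋂ i ∈ F, G i z') < μ.real (H z) + 2 * ε := by
    intro z hz ε hε
    obtain ⟨J', hJ', h⟩ := hH z
    obtain ⟨F, hF⟩ := a2_approx μ (fun j => G j z) (fun j => hG j z) J' hJ' ε hε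
    rw [← h] at hF
    obtain ⟨n, hn⟩ := hYF F z hz ε hε
    refine ⟨F, n, hF, fun z' hz' hk => ⟨hn z' hz' hk, ?_⟩⟩
    have h1 := hn z' hz' hk
    have h2 := hclose z z' F
    simp only at h1
    linarith
  let O : ℚ → Set (ℕ → Bool) := fun c =>
    ⋃₀ {U | IsOpen U ∧ ∀ z ∈ U, z ∈ Y → μ.real (H z) < c}
  have hOo : ∀ c, IsOpen (O c) := fun c => isOpen_sUnion fun U hU => hU.1
  have hO1 : ∀ (c : ℚ) z, z ∈ Y → z ∈ O c → μ.real (H z) < c := by
    intro c z hz hzO
    obtain ⟨U, hU, hzU⟩ := hzO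
    exact hU.2 z hzU hz
  have hO2 : ∀ (c : ℚ) z, z ∈ Y → μ.real (H z) < c → z ∈ O c := by
    intro c z hz hc
    obtain ⟨F, n, hF, hn⟩ := husc z hz (((c : ℝ) - μ.real (H z)) / 2) (by linarith)
    refine ⟨{z' | ∀ k < n, z' k = z k}, ⟨a2_open_cyl z n, fun z' hz' hz'Y => ?_⟩, fun k _ => rfl⟩
    have h1 := (hn z' hz'Y hz').2
    have h2 := hmle z' F
    linarith
  refine ⟨(Σ j, A j) ⊕ ℚ, Sum.elim (fun p => N p.1 p.2) (fun c => closure (O c) \ O c),
    ?_, ?_, ?_, ?_⟩
  · rw [Cardinal.mk_sum, Cardinal.mk_sigma]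
    simp only [Cardinal.lift_id]
    have h1 : Cardinal.sum (fun j => #(A j)) ≤ κ := by
      calc Cardinal.sum (fun j => #(A j)) ≤ Cardinal.sum (fun _ : J => κ) :=
            Cardinal.sum_le_sum _ _ hA
        _ = #J * κ := by rw [Cardinal.sum_const, Cardinal.lift_id, Cardinal.lift_id]
        _ ≤ κ * κ := by gcongr
        _ = κ := Cardinal.mul_eq_self hκ
    have h2 : #ℚ ≤ κ := (Cardinal.mk_le_aleph0).trans hκ
    calc Cardinal.sum (fun j => #(A j)) + #ℚ ≤ κ + κ := add_le_add h1 h2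
      _ = κ := Cardinal.add_eq_self hκ
  · rintro (p | c)
    · exact hNc p.1 p.2
    · exact isClosed_closure.sdiff (hOo c)
  · rintro (p | c)
    · exact hNi p.1 p.2
    · show interior (closure (O c) \ O c) = ∅
      rw [← (hOo c).frontier_eq, ← frontier_compl]
      exact interior_frontier (hOo c).isClosed_compl
  · intro z hz ε hε
    have hzY : z ∈ Y := by
      intro h
      apply hz
      rw [Set.mem_iUnion] at h ⊢
      obtain ⟨p, hp⟩ := h
      exact ⟨Sum.inl p, hp⟩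
    have hzc : ∀ c, z ∉ closure (O c) \ O c := by
      intro c h
      apply hz
      rw [Set.mem_iUnion]
      exact ⟨Sum.inr c, h⟩
    obtain ⟨F, n1, hF, hn1⟩ := husc z hzY (ε / 6) (by linarith)
    obtain ⟨c, hc1, hc2⟩ := exists_rat_btwn (show μ.real (H z) - ε / 6 < μ.real (H z) by linarith)
    have hzO : z ∉ O c := fun h => absurd (hO1 c z hzY h) (by linarith)
    have hzcl : z ∈ (closure (O c))ᶜ := fun h => hzc c ⟨h, hzO⟩
    obtain ⟨n2, hn2⟩ := a2_cyl_of_open isClosed_closure.isOpen_compl hzcl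
    refine ⟨max n1 n2, fun z' hz' hk => ?_⟩
    have hz'Y : z' ∈ Y := by
      intro h
      apply hz'
      rw [Set.mem_iUnion] at h ⊢
      obtain ⟨p, hp⟩ := h
      exact ⟨Sum.inl p, hp⟩
    have h1 := hn1 z' hz'Y fun k hk' => hk k (lt_of_lt_of_le hk' (le_max_left _ _))
    have h2 : z' ∉ O c := fun h =>
      hn2 z' (fun k hk' => hk k (lt_of_lt_of_le hk' (le_max_right _ _))) (subset_closure h)
    have h3 : (c : ℝ) ≤ μ.real (H z') := by
      by_contra h
      push Not at h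
      exact h2 (hO2 c z' hz'Y h)
    have h4 := a2_diff μ (hHm z) (hnull z F) (hFm z F)
    have h5 := a2_diff μ (hHm z') (hnull z' F) (hFm z' F)
    have h6 : μ.real (H z \ ⋂ i ∈ F, G i z) = 0 := by
      rw [measureReal_def, hnull z F]; rfl
    have h7 : μ.real (H z' \ ⋂ i ∈ F, G i z') = 0 := by
      rw [measureReal_def, hnull z' F]; rfl
    have h8 : μ.real (symmDiff (H z) (H z')) ≤
        μ.real (symmDiff (⋂ i ∈ F, G i z) (⋂ i ∈ F, G i z')) +
        (μ.real ((⋂ i ∈ F, G i z) \ H z) + μ.real ((⋂ i ∈ F, G i z') \ H z')) +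
        (μ.real (H z \ ⋂ i ∈ F, G i z) + μ.real (H z' \ ⋂ i ∈ F, G i z')) := by
      calc μ.real (symmDiff (H z) (H z'))
          ≤ μ.real ((symmDiff (⋂ i ∈ F, G i z) (⋂ i ∈ F, G i z') ∪
              (((⋂ i ∈ F, G i z) \ H z) ∪ ((⋂ i ∈ F, G i z') \ H z'))) ∪
              ((H z \ ⋂ i ∈ F, G i z) ∪ (H z' \ ⋂ i ∈ F, G i z'))) := by
            apply measureReal_mono _ (measure_ne_top _ _)
            intro x hx
            rw [Set.mem_symmDiff] at hx
            simp only [Set.mem_union, Set.mem_sdiff, Set.mem_symmDiff]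
            tauto
        _ ≤ _ := by
            refine (measureReal_union_le _ _).trans ?_
            refine add_le_add ((measureReal_union_le _ _).trans ?_) (measureReal_union_le _ _)
            exact add_le_add le_rfl (measureReal_union_le _ _)
    rw [h4, h5, h6, h7] at h8
    linarith [h1.1, h1.2]

end core

end Pool.Agent.ZC
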