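import Pool.Agent.Lib_helper72.ZC.Defs

namespace Pool.Agent.ZC

open Pool.Agent.Lib_helper27 Fml MeasureTheory Cardinal V Filter

open scoped ENNReal

section core

variable {Ω : Type} [MeasurableSpace Ω] (μ : Measure Ω) [IsProbabilityMeasure μ]

omit [IsProbabilityMeasure μ] in
theorem thin_compl_pr {κ : Cardinal.{0}} {G : (ℕ → Bool) → Set Ω} (h : Thin μ κ G) :
    Thin μ κ fun z => (G z)ᶜ := by
  obtain ⟨J, N, h1, h2, h3, h4⟩ := h
  refine ⟨J, N, h1, h2, h3, ?_⟩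
  intro z hz ε hε
  obtain ⟨n, hn⟩ := h4 z hz ε hε
  refine ⟨n, fun z' hz' hk => ?_⟩
  have := hn z' hz' hk
  show μ.real (symmDiff (G z)ᶜ (G z')ᶜ) < ε
  rwa [compl_symmDiff_compl]

theorem a3_union {κ : Cardinal.{0}} (hκ : ℵ₀ ≤ κ) {G H : (ℕ → Bool) → Set Ω}
    (h : Thin μ κ G) (h' : Thin μ κ H) (op : Set Ω → Set Ω → Set Ω)
    (hop : ∀ a b a' b', symmDiff (op a b) (op a' b') ⊆ symmDiff a a' ∪ symmDiff b b') :
    Thin μ κ fun z => op (G z) (H z) := by
  obtain ⟨J, N, h1, h2, h3, h4⟩ := h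
  obtain ⟨J', N', h1', h2', h3', h4'⟩ := h'
  refine ⟨J ⊕ J', Sum.elim N N', ?_, ?_, ?_, ?_⟩
  · simp only [mk_sum, lift_id]
    exact Cardinal.add_le_of_le hκ h1 h1'
  · rintro (j | j)
    · exact h2 j
    · exact h2' j
  · rintro (j | j)
    · exact h3 j
    · exact h3' j
  · intro z hz ε hε
    have hz1 : ∀ w, w ∈ (⋃ j, Sum.elim N N' j)ᶜ → w ∈ (⋃ j, N j)ᶜ := by
      intro w hw hw'
      obtain ⟨j, hj⟩ := Set.mem_iUnion.1 hw'
      exact hw (Set.mem_iUnion.2 ⟨Sum.inl j, hj⟩)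
    have hz2 : ∀ w, w ∈ (⋃ j, Sum.elim N N' j)ᶜ → w ∈ (⋃ j, N' j)ᶜ := by
      intro w hw hw'
      obtain ⟨j, hj⟩ := Set.mem_iUnion.1 hw'
      exact hw (Set.mem_iUnion.2 ⟨Sum.inr j, hj⟩)
    obtain ⟨n, hn⟩ := h4 z (hz1 z hz) (ε / 2) (by positivity)
    obtain ⟨m, hm⟩ := h4' z (hz2 z hz) (ε / 2) (by positivity)
    refine ⟨max n m, fun z' hz' hk => ?_⟩
    have e1 := hn z' (hz1 z' hz') fun k hk' => hk k (lt_of_lt_of_le hk' (le_max_left _ _))
    have e2 := hm z' (hz2 z' hz') fun k hk' => hk k (lt_of_lt_of_le hk' (le_max_right _ _))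
    calc μ.real (symmDiff (op (G z) (H z)) (op (G z') (H z')))
        ≤ μ.real (symmDiff (G z) (G z') ∪ symmDiff (H z) (H z')) :=
          measureReal_mono (hop _ _ _ _) (measure_ne_top _ _)
      _ ≤ μ.real (symmDiff (G z) (G z')) + μ.real (symmDiff (H z) (H z')) :=
          measureReal_union_le _ _
      _ < ε / 2 + ε / 2 := add_lt_add e1 e2
      _ = ε := by ring

theorem thin_union_pr {κ : Cardinal.{0}} (hκ : ℵ₀ ≤ κ) {G H : (ℕ → Bool) → Set Ω}
    (h : Thin μ κ G) (h' : Thin μ κ H) : Thin μ κ fun z => G z ∪ H z := by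
  refine a3_union μ hκ h h' (fun a b => a ∪ b) ?_
  intro a b a' b' x hx
  simp only [Set.mem_union, Set.mem_symmDiff] at hx ⊢
  tauto

omit [IsProbabilityMeasure μ] in
theorem a3_const {κ : Cardinal.{0}} (S : Set Ω) : Thin μ κ fun _ => S := by
  refine ⟨Empty, fun j => j.elim, by simp, fun j => j.elim, fun j => j.elim, ?_⟩
  intro z _ ε hε
  exact ⟨0, fun z' _ _ => by simpa using hε⟩

theorem thin_inter_pr {κ : Cardinal.{0}} (hκ : ℵ₀ ≤ κ) {J : Type} (F : Finset J)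
    {G : J → (ℕ → Bool) → Set Ω} (h : ∀ j ∈ F, Thin μ κ (G j)) :
    Thin μ κ fun z => ⋂ j ∈ F, G j z := by
  classical
  induction F using Finset.induction_on with
  | empty =>
    have := a3_const μ (κ := κ) (Set.univ : Set Ω)
    simpa using this
  | insert a s ha ih =>
    have e1 := ih fun j hj => h j (Finset.mem_insert_of_mem hj)
    have e2 := h a (Finset.mem_insert_self _ _)
    have e3 := a3_union μ hκ e2 e1 (fun a b => a ∩ b) (by
      intro a b a' b' x hx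
      simp only [Set.mem_union, Set.mem_inter_iff, Set.mem_symmDiff] at hx ⊢
      tauto)
    have : (fun z => ⋂ j ∈ insert a s, G j z) = fun z => G a z ∩ ⋂ j ∈ s, G j z := by
      funext z
      exact Finset.set_biInter_insert a s fun j => G j z
    rw [this]
    exact e3

theorem a3_pre_eq (z z' : ℕ → Bool) : ∀ k, (∀ j < k, z' j = z j) → pre z' k = pre z k
  | 0, _ => rfl
  | k + 1, h => by
    rw [pre, pre, a3_pre_eq z z' k fun j hj => h j (Nat.lt_succ_of_lt hj), h k (Nat.lt_succ_self k)]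

omit [IsProbabilityMeasure μ] in
theorem thin_pre_pr {κ : Cardinal.{0}} (b : List Bool → Set Ω) (k : ℕ) :
    Thin μ κ fun z => b (pre z k) := by
  refine ⟨Empty, fun j => j.elim, by simp, fun j => j.elim, fun j => j.elim, ?_⟩
  intro z _ ε hε
  refine ⟨k, fun z' _ hk => ?_⟩
  show μ.real (symmDiff (b (pre z k)) (b (pre z' k))) < ε
  rw [a3_pre_eq z z' k hk]
  simpa using hε

end core

end Pool.Agent.ZC
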