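import Pool.Agent.Lib_helper72.ZC.A1
import Pool.Agent.Lib_helper72.ZC.A2
import Pool.Agent.Lib_helper72.ZC.A3

/-!
# Block A4: the recursion
-/

set_option linter.unusedSectionVars false

namespace Pool.Agent.ZC

open MeasureTheory Cardinal

variable {Ω : Type} [MeasurableSpace Ω] (μ : Measure Ω) [IsProbabilityMeasure μ]

/-- an infimum of a family of measurable sets -/
noncomputable def a4_inf {J : Type} (A : J → Set Ω) : Set Ω := by
  classical
  exact if hA : ∀ j, MeasurableSet (A j) then ⋂ i ∈ (exists_einf_pr μ A hA).choose, A i else Set.univ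

theorem a4_inf_spec {J : Type} {A : J → Set Ω} (hA : ∀ j, MeasurableSet (A j)) :
    ∃ J' : Set J, J'.Countable ∧ a4_inf μ A = (⋂ i ∈ J', A i) ∧ ∀ j, μ (a4_inf μ A \ A j) = 0 := by
  have h := (exists_einf_pr μ A hA).choose_spec
  refine ⟨(exists_einf_pr μ A hA).choose, h.1, ?_, ?_⟩
  · unfold a4_inf
    rw [dif_pos hA]
  · intro j
    unfold a4_inf
    rw [dif_pos hA]
    exact h.2 j

/-- the index set at `i` -/
abbrev A4J {I : Type} [LinearOrder I] (i : I) : Type := {F : Finset I // ∀ j ∈ F, j < i} × ℕ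

/-- the family at `i` -/
def a4_fam {I : Type} [LinearOrder I] (b : List Bool → Finset I → Set Ω) (z : ℕ → Bool) (i : I)
    (e : ∀ j, j < i → Set Ω) (x : A4J i) : Set Ω :=
  (⋂ j : {j // j ∈ x.1.1}, e j.1 (x.1.2 j.1 j.2))ᶜ ∪ b (pre z x.2) (insert i x.1.1)

/-- the recursion -/
noncomputable def a4_e {I : Type} [LinearOrder I] [WellFoundedLT I]
    (b : List Bool → Finset I → Set Ω) (z : ℕ → Bool) : I → Set Ω :=
  (wellFounded_lt (α := I)).fix fun i e => a4_inf μ (a4_fam b z i e)

theorem a4_e_eq {I : Type} [LinearOrder I] [WellFoundedLT I]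
    (b : List Bool → Finset I → Set Ω) (z : ℕ → Bool) (i : I) :
    a4_e μ b z i = a4_inf μ (fun x : A4J i => (⋂ j ∈ x.1.1, a4_e μ b z j)ᶜ ∪
      b (pre z x.2) (insert i x.1.1)) := by
  conv_lhs => rw [a4_e, WellFounded.fix_eq]
  congr 1
  funext x
  unfold a4_fam
  congr 2
  ext w
  simp only [Set.mem_iInter, Subtype.forall]
  rfl

theorem exists_e_pr {I : Type} [LinearOrder I] [WellFoundedLT I] {κ : Cardinal.{0}} (hκ : ℵ₀ ≤ κ)
    (hI : #I ≤ κ) (q : Set Ω) (b : List Bool → Finset I → Set Ω)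
    (hbm : ∀ s F, MeasurableSet (b s F)) (hq : ∀ s, μ (q \ b s ∅) = 0) :
    ∃ e : (ℕ → Bool) → I → Set Ω, (∀ z i, MeasurableSet (e z i)) ∧
      (∀ z F k, μ ((q ∩ ⋂ j ∈ F, e z j) \ b (pre z k) F) = 0) ∧
      (∀ z i C, (∀ F : Finset I, (∀ j ∈ F, j < i) → ∀ k,
        μ ((C ∩ ⋂ j ∈ F, e z j) \ b (pre z k) (insert i F)) = 0) → μ (C \ e z i) = 0) ∧
      ∀ i, Thin μ κ fun z => e z i := by
  classical
  have hmeas : ∀ z i, MeasurableSet (a4_e μ b z i) := by
    intro z i
    induction i using WellFoundedLT.induction with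
    | ind i ih =>
      have hA : ∀ x : A4J i, MeasurableSet ((⋂ j ∈ x.1.1, a4_e μ b z j)ᶜ ∪
          b (pre z x.2) (insert i x.1.1)) := fun x =>
        (x.1.1.measurableSet_biInter fun j hj => ih j (x.1.2 j hj)).compl.union (hbm _ _)
      obtain ⟨J', hJ', h1, _⟩ := a4_inf_spec μ hA
      rw [a4_e_eq, h1]
      exact MeasurableSet.biInter hJ' fun x _ => hA x
  have hfm : ∀ z i (x : A4J i), MeasurableSet ((⋂ j ∈ x.1.1, a4_e μ b z j)ᶜ ∪
      b (pre z x.2) (insert i x.1.1)) := fun z i x =>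
    (x.1.1.measurableSet_biInter fun j _ => hmeas z j).compl.union (hbm _ _)
  refine ⟨a4_e μ b, hmeas, ?_, ?_, ?_⟩
  · intro z F k
    rcases F.eq_empty_or_nonempty with rfl | hF
    · refine measure_mono_null ?_ (hq (pre z k))
      intro x hx
      exact ⟨hx.1.1, hx.2⟩
    · let i := F.max' hF
      have hi : i ∈ F := F.max'_mem hF
      obtain ⟨_, _, _, h2⟩ := a4_inf_spec μ (hfm z i)
      have h3 := h2 (⟨F.erase i, fun j hj => lt_of_le_of_ne
        (F.le_max' j (Finset.mem_of_mem_erase hj)) (Finset.ne_of_mem_erase hj)⟩, k)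
      rw [← a4_e_eq] at h3
      refine measure_mono_null ?_ h3
      rintro x ⟨⟨_, hx⟩, hxb⟩
      rw [Set.mem_iInter₂] at hx
      refine ⟨hx i hi, ?_⟩
      rintro (h4 | h4)
      · refine h4 ?_
        rw [Set.mem_iInter₂]
        exact fun j hj => hx j (Finset.mem_of_mem_erase hj)
      · have h5 : insert i (F.erase i) = F := Finset.insert_erase hi
        rw [h5] at h4
        exact hxb h4
  · intro z i C h
    obtain ⟨J', hJ', h1, _⟩ := a4_inf_spec μ (hfm z i)
    rw [a4_e_eq, h1, Set.sdiff_eq, Set.compl_iInter₂, Set.inter_iUnion₂]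
    refine (measure_biUnion_null_iff hJ').2 fun x _ => ?_
    refine measure_mono_null ?_ (h x.1.1 x.1.2 x.2)
    rintro w ⟨hw, hw'⟩
    rw [Set.compl_union, compl_compl] at hw'
    exact ⟨⟨hw, hw'.1⟩, hw'.2⟩
  · intro i
    induction i using WellFoundedLT.induction with
    | ind i ih =>
      have hcard : #(A4J i) ≤ κ := by
        have h1 : #(Finset I) ≤ κ := by
          rcases finite_or_infinite I with hfin | hinf
          · have : Finite (Finset I) := inferInstance
            exact (Cardinal.mk_le_aleph0).trans hκ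
          · rw [Cardinal.mk_finset_of_infinite]
            exact hI
        have h2 : #{F : Finset I // ∀ j ∈ F, j < i} ≤ κ := (Cardinal.mk_subtype_le _).trans h1
        rw [A4J, Cardinal.mk_prod, Cardinal.lift_id, Cardinal.lift_id, Cardinal.mk_nat]
        exact (mul_le_mul' h2 hκ).trans (Cardinal.mul_eq_self hκ).le
      refine thin_inf_pr μ hκ hcard
        (G := fun (x : A4J i) z => (⋂ j ∈ x.1.1, a4_e μ b z j)ᶜ ∪
          b (pre z x.2) (insert i x.1.1)) (fun x z => hfm z i x) ?_ ?_ ?_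
      · intro x
        refine thin_union_pr μ hκ ?_ (thin_pre_pr μ (fun s => b s (insert i x.1.1)) x.2)
        exact thin_compl_pr μ (thin_inter_pr μ hκ x.1.1 fun j hj => ih j (x.1.2 j hj))
      · intro z
        obtain ⟨J', hJ', h1, _⟩ := a4_inf_spec μ (hfm z i)
        exact ⟨J', hJ', (a4_e_eq μ b z i).trans h1⟩
      · intro z x
        obtain ⟨_, _, _, h2⟩ := a4_inf_spec μ (hfm z i)
        have h3 := h2 x
        rw [← a4_e_eq] at h3
        exact h3

end Pool.Agent.ZC
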