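import Pool.Agent.Lib_helper72.ZC.Defs

namespace Pool.Agent.ZC

open Pool.Agent.Lib_helper27 Fml MeasureTheory Cardinal V Filter

open scoped ENNReal

section core

variable {Ω : Type} [MeasurableSpace Ω] (μ : Measure Ω) [IsProbabilityMeasure μ]

/-- flip the n-th bit -/
def a5_tau (n : ℕ) (z : ℕ → Bool) : ℕ → Bool := Function.update z n (!z n)

theorem a5_tau_self (n : ℕ) (z : ℕ → Bool) : a5_tau n z n = !z n := by
  simp [a5_tau]

theorem a5_tau_ne {n k : ℕ} (h : k ≠ n) (z : ℕ → Bool) : a5_tau n z k = z k := by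
  simp [a5_tau, h]

theorem a5_tau_tau (n : ℕ) (z : ℕ → Bool) : a5_tau n (a5_tau n z) = z := by
  funext k
  by_cases h : k = n
  · subst h
    rw [a5_tau_self, a5_tau_self, Bool.not_not]
  · rw [a5_tau_ne h, a5_tau_ne h]

theorem a5_tau_cont (n : ℕ) : Continuous (a5_tau n) := by
  refine continuous_pi fun k => ?_
  by_cases h : k = n
  · subst h
    simp only [a5_tau_self]
    exact (continuous_of_discreteTopology (f := not)).comp (continuous_apply k)
  · simp only [a5_tau_ne h]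
    exact continuous_apply k

/-- the homeomorphism -/
def a5_homeo (n : ℕ) : (ℕ → Bool) ≃ₜ (ℕ → Bool) where
  toFun := a5_tau n
  invFun := a5_tau n
  left_inv := a5_tau_tau n
  right_inv := a5_tau_tau n
  continuous_toFun := a5_tau_cont n
  continuous_invFun := a5_tau_cont n

theorem a5_bc {D : ℕ → Set Ω} {N0 : ℕ} (hD : ∀ n, N0 ≤ n → μ.real (D n) ≤ (1 / 2) ^ n)
    {C : Set Ω} (hC : μ C ≠ 0) : ∃ N : ℕ, μ (C \ ⋃ n, ⋃ (_ : N ≤ n), D n) ≠ 0 := by
  by_contra hcon
  push Not at hcon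
  apply hC
  have h1 : μ {x | ∃ᶠ n in atTop, x ∈ D (n + N0)} = 0 := by
    apply measure_setOfPred_frequently_eq_zero
    have h2 : ∀ n, μ {x | x ∈ D (n + N0)} ≤ (2⁻¹ : ℝ≥0∞) ^ n := by
      intro n
      have e1 := hD (n + N0) (by omega)
      have e2 : μ (D (n + N0)) = ENNReal.ofReal (μ.real (D (n + N0))) := by
        rw [Measure.real, ENNReal.ofReal_toReal (measure_ne_top _ _)]
      show μ (D (n + N0)) ≤ _
      rw [e2]
      have e3 : (1 / 2 : ℝ) ^ (n + N0) ≤ (1 / 2) ^ n :=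
        pow_le_pow_of_le_one (by norm_num) (by norm_num) (by omega)
      refine (ENNReal.ofReal_le_ofReal (e1.trans e3)).trans ?_
      rw [ENNReal.ofReal_pow (by norm_num)]
      apply le_of_eq
      congr 1
      rw [one_div, ENNReal.ofReal_inv_of_pos (by norm_num)]
      norm_num
    refine ne_top_of_le_ne_top ?_ (ENNReal.tsum_le_tsum h2)
    rw [ENNReal.tsum_geometric]
    simp
  have h3 : C ⊆ (⋃ N, (C \ ⋃ n, ⋃ (_ : N ≤ n), D n)) ∪ {x | ∃ᶠ n in atTop, x ∈ D (n + N0)} := by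
    intro x hx
    by_cases hx' : ∃ N, x ∉ ⋃ n, ⋃ (_ : N ≤ n), D n
    · obtain ⟨N, hN⟩ := hx'
      exact Or.inl (Set.mem_iUnion.2 ⟨N, hx, hN⟩)
    · push Not at hx'
      right
      show ∃ᶠ n in atTop, x ∈ D (n + N0)
      rw [Filter.frequently_atTop]
      intro a
      have := hx' (a + N0)
      simp only [Set.mem_iUnion] at this
      obtain ⟨n, hn, hxn⟩ := this
      refine ⟨n - N0, by omega, ?_⟩
      rwa [Nat.sub_add_cancel (by omega)]
  refine measure_mono_null h3 (measure_union_null ?_ h1)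
  rw [measure_iUnion_null_iff]
  exact hcon

theorem exists_points_pr {I : Type} {κ : Cardinal.{0}} (hκ : ℵ₀ ≤ κ) (hI : #I ≤ κ)
    (hcov : CovAt κ) (hdom : DomAt κ) (e : (ℕ → Bool) → I → Set Ω)
    (he : ∀ z i, MeasurableSet (e z i)) (hT : ∀ i, Thin μ κ fun z => e z i) :
    ∃ (y : ℕ → ℕ → Bool) (y' : ℕ → Bool), (∀ n, y n ≠ y') ∧ (∀ m n, m ≠ n → y m ≠ y n) ∧
      ∀ i (C : Set Ω), μ C ≠ 0 → ∃ N : ℕ,
        μ (C \ ⋃ n, ⋃ (_ : N ≤ n), symmDiff (e (y n) i) (e y' i)) ≠ 0 := by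
  choose J N hJ hN1 hN2 hN3 using hT
  -- the point
  obtain ⟨y', hy'⟩ : ∃ y', ∀ i, (∀ a, y' ∉ N i a) ∧ ∀ n a, a5_tau n y' ∉ N i a := by
    have hcard : #((Σ i, J i) × Option ℕ) ≤ κ := by
      rw [mk_prod, lift_id, lift_id]
      refine Cardinal.mul_le_of_le hκ ?_ ?_
      · rw [mk_sigma]
        calc Cardinal.sum (fun i => #(J i)) ≤ Cardinal.sum (fun _ : I => κ) :=
              Cardinal.sum_le_sum _ _ hJ
          _ = #I * κ := by simp
          _ ≤ κ := Cardinal.mul_le_of_le hκ hI le_rfl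
      · exact (Cardinal.mk_le_aleph0).trans hκ
    obtain ⟨y', h⟩ := hcov ((Σ i, J i) × Option ℕ)
      (fun p => match p.2 with
        | none => N p.1.1 p.1.2
        | some n => a5_tau n ⁻¹' N p.1.1 p.1.2) hcard
      (by
        rintro ⟨⟨i, a⟩, (_ | n)⟩
        · exact hN1 i a
        · exact (hN1 i a).preimage (a5_tau_cont n))
      (by
        rintro ⟨⟨i, a⟩, (_ | n)⟩
        · exact hN2 i a
        · show interior (a5_homeo n ⁻¹' N i a) = ∅
          rw [← (a5_homeo n).preimage_interior, hN2 i a, Set.preimage_empty])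
    refine ⟨y', fun i => ⟨fun a => h ⟨⟨i, a⟩, none⟩, fun n a => h ⟨⟨i, a⟩, some n⟩⟩⟩
  have hmem : ∀ i, y' ∈ (⋃ a, N i a)ᶜ := by
    intro i hi
    obtain ⟨a, ha⟩ := Set.mem_iUnion.1 hi
    exact (hy' i).1 a ha
  have hmem' : ∀ i n, a5_tau n y' ∈ (⋃ a, N i a)ᶜ := by
    intro i n hi
    obtain ⟨a, ha⟩ := Set.mem_iUnion.1 hi
    exact (hy' i).2 n a ha
  have hh : ∀ i k, ∃ n : ℕ, ∀ m, n ≤ m →
      μ.real (symmDiff (e (a5_tau m y') i) (e y' i)) ≤ (1 / 2) ^ k := by
    intro i k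
    obtain ⟨n, hn⟩ := hN3 i y' (hmem i) ((1 / 2) ^ k) (by positivity)
    refine ⟨n, fun m hm => ?_⟩
    have := hn (a5_tau m y') (hmem' i m) fun k hk => a5_tau_ne (by omega) _
    rw [symmDiff_comm]
    exact this.le
  choose h hh using hh
  obtain ⟨g, hg⟩ := hdom I h hI
  set g' : ℕ → ℕ := fun k => (∑ j ∈ Finset.range (k + 1), g j) + k with hg'
  have hmono : StrictMono g' := by
    refine strictMono_nat_of_lt_succ fun n => ?_
    simp only [hg']
    rw [Finset.sum_range_succ _ (n + 1)]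
    omega
  have hle : ∀ k, g k ≤ g' k := by
    intro k
    have : g k ≤ ∑ j ∈ Finset.range (k + 1), g j :=
      Finset.single_le_sum (f := g) (fun _ _ => Nat.zero_le _) (Finset.mem_range.2 (by omega))
    simp only [hg']
    omega
  refine ⟨fun k => a5_tau (g' k) y', y', ?_, ?_, ?_⟩
  · intro n hn
    have := congrFun hn (g' n)
    simp only [a5_tau_self] at this
    exact Bool.not_ne_self _ this
  · intro m n hmn hn
    have := congrFun hn (g' n)
    simp only [a5_tau_self] at this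
    rw [a5_tau_ne (fun h => hmn (hmono.injective h.symm))] at this
    exact Bool.not_ne_self _ this.symm
  · intro i C hC
    obtain ⟨N0, hN0⟩ := eventually_atTop.1 (hg i)
    refine a5_bc μ (D := fun n => symmDiff (e (a5_tau (g' n) y') i) (e y' i)) (N0 := N0) ?_ hC
    intro n hn
    exact hh i n _ ((hN0 n hn).trans (hle n))

end core

end Pool.Agent.ZC
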