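import Pool.Agent.Lib_helper72.ZC.Defs

/-!
# Auxiliary facts about the forcing relation
-/

set_option linter.unusedSectionVars false

namespace Pool.Agent.ZC

open Pool.Agent.Lib_helper27 Fml MeasureTheory Cardinal V

open Pool.Agent.Lib_helper27.ST (EE)

section gen

variable {P : Type} [Preorder P]

theorem fc_ball_mk {a : Name P} {φ : Name P → Fml (Name P)} {p : P} :
    Fc p (ball a φ) ↔ ∀ x, ∀ q, q ≤ p → fmem x a q → Fc q (φ x) := forces_ball nf_basic

theorem fc_bex_mk {a : Name P} {φ : Name P → Fml (Name P)} {p : P} :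
    Fc p (bex a φ) ↔ Loc p (fun r => ∃ x, fmem x a r ∧ Fc r (φ x)) := forces_bex

theorem fc_imp {φ ψ : Fml (Name P)} {p : P} :
    Fc p (imp φ ψ) ↔ ∀ q, q ≤ p → Fc q φ → Fc q ψ := forces_imp nf_basic

theorem fc_mono {φ : Fml (Name P)} {p q : P} (h : q ≤ p) (hp : Fc p φ) : Fc q φ :=
  Forces.mono nf_basic h hp

theorem fc_dense {φ : Fml (Name P)} {p : P} (h : Loc p fun q => Fc q φ) : Fc p φ :=
  Forces.dense nf_basic h

theorem fc_neg {φ : Fml (Name P)} {p : P} : Fc p (neg φ) ↔ ∀ q, q ≤ p → ¬ Fc q φ := Iff.rfl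

theorem fc_subset {a b : Name P} {p : P} :
    Fc p (isSubset a b) ↔ ∀ x, ∀ q, q ≤ p → fmem x a q → fmem x b q := forces_ball nf_basic

/-- to be forced or to have a stronger condition forcing the negation -/
theorem fc_of_not_neg {φ : Fml (Name P)} {p : P} (h : ¬ Fc p φ) : ∃ q, q ≤ p ∧ Fc q (neg φ) := by
  by_contra hcon
  push Not at hcon
  refine h (fc_dense fun q hq => ?_)
  have h1 := hcon q hq
  rw [fc_neg] at h1
  push Not at h1
  exact h1

/-! ### Congruence -/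

theorem congr_env (φ : DF) (n : ℕ) (l : List (Name P)) :
    Congr1 fun x => φ.to n (env l x) := fun p x y h =>
  DF.rel (fun z => feq_refl z p) φ n _ _ (rel_env (r := fun x y => feq x y p)
    (List.forall₂_same.2 fun _ _ => feq_refl _ _) h)

theorem congr_phi (T f A D : Name P) : Congr1 fun x => phi T f A D x :=
  congr_env (cv (phi 0 1 2 3 4) 5) 5 [T, f, A, D]

theorem congr_clf (T f A : Name P) : Congr1 fun x => clf T f A x :=
  congr_env (cv (clf 0 1 2 3) 4) 4 [T, f, A]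

theorem congr_dir (X E : Name P) :
    Congr1 fun x => and (mem x X) (ball E fun C => mem x C) :=
  congr_env (cv (and (mem 2 0) (ball 1 fun C => mem 2 C)) 3) 3 [X, E]

/-! ### Monotonicity -/

theorem clf_mono {T f A A' x : Name P} {p : P} (h : Fc p (isSubset A' A))
    (hx : Fc p (clf T f A' x)) : Fc p (clf T f A x) := by
  unfold clf at hx ⊢
  rw [fc_ball_mk] at hx ⊢
  intro u q hq hu
  have h1 := hx u q hq hu
  rw [fc_imp] at h1 ⊢
  intro r hr hxu
  have h2 := h1 r hr hxu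
  rw [fc_bex_mk] at h2 ⊢
  refine h2.imp ?_
  rintro s hs ⟨n, hn, h3⟩
  exact ⟨n, fc_subset.1 h n s (hs.trans (hr.trans hq)) hn, h3⟩

theorem fmem_mkAll_fin {I : Type} {c : I → Name P} {F F' : Finset I} (h : F ⊆ F') {w : Name P}
    {p : P} (hw : fmem w (mkAll {i // i ∈ F} fun i => c i.1) p) :
    fmem w (mkAll {i // i ∈ F'} fun i => c i.1) p := by
  rw [fmem_mkAll] at hw ⊢
  refine hw.imp ?_
  rintro r _ ⟨⟨i, hi⟩, he⟩
  exact ⟨⟨i, h hi⟩, he⟩

theorem phi_mono {I : Type} {c : I → Name P} {F F' : Finset I} (hF : F ⊆ F')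
    {T f A A' x : Name P} {p : P} (h : Fc p (isSubset A' A))
    (hx : Fc p (phi T f A' (mkAll {i // i ∈ F'} fun i => c i.1) x)) :
    Fc p (phi T f A (mkAll {i // i ∈ F} fun i => c i.1) x) := by
  refine ⟨clf_mono h hx.1, ?_⟩
  refine fc_ball_mk.2 fun u q hq hu => ?_
  exact fc_ball_mk.1 hx.2 u q hq (fmem_mkAll_fin hF hu)

theorem isSubset_trans {a b c : Name P} {p : P} (h : Fc p (isSubset a b))
    (h' : Fc p (isSubset b c)) : Fc p (isSubset a c) :=
  fc_subset.2 fun x q hq hx => fc_subset.1 h' x q hq (fc_subset.1 h x q hq hx)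

theorem isSubset_refl {a : Name P} {p : P} : Fc p (isSubset a a) :=
  fc_subset.2 fun _ _ _ hx => hx

end gen

section rnd

variable {Ω : Type} [MeasurableSpace Ω] {μ : Measure Ω}

theorem rnd_le {r s : Rnd μ} : r ≤ s ↔ μ (r.1 \ s.1) = 0 := Iff.rfl

theorem null_diff_trans {A B C : Set Ω} (h1 : μ (A \ B) = 0) (h2 : μ (B \ C) = 0) :
    μ (A \ C) = 0 := by
  refine measure_mono_null (t := (A \ B) ∪ (B \ C)) ?_ (measure_union_null h1 h2)
  intro x hx
  by_cases h : x ∈ B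
  · exact Or.inr ⟨h, hx.2⟩
  · exact Or.inl ⟨hx.1, h⟩

theorem rnd_down {r s : Rnd μ} (h : r ≤ s) {C : Set Ω} (hs : μ (s.1 \ C) = 0) :
    μ (r.1 \ C) = 0 := null_diff_trans h hs

end rnd

end Pool.Agent.ZC
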