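import Pool.Agent.Lib_helper72.ZC.Defs

/-!
# Block B1: Martin's axiom and meager sets
-/

namespace Pool.Agent.ZC

open MeasureTheory Cardinal Filter

open scoped ENNReal

namespace B1

/-- Cohen forcing: finite binary sequences (last bit first), ordered by extension -/
structure Coh : Type where
  s : List Bool

instance : PartialOrder Coh where
  le a b := b.s <:+ a.s
  le_refl a := List.suffix_refl _
  le_trans a b c h1 h2 := h2.trans h1
  le_antisymm a b h1 h2 := by
    cases a; cases b
    congr 1
    exact List.IsSuffix.eq_of_length_le h2 h1.length_le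

theorem le_def (a b : Coh) : a ≤ b ↔ b.s <:+ a.s := Iff.rfl

instance : Countable Coh :=
  Function.Injective.countable (f := Coh.s) fun a b h => by cases a; cases b; exact congrArg _ h

theorem pre_length (z : ℕ → Bool) (k : ℕ) : (pre z k).length = k := by
  induction k with
  | zero => rfl
  | succ k ih => simp [pre, ih]

theorem pre_suffix (z : ℕ → Bool) {k l : ℕ} (h : k ≤ l) : pre z k <:+ pre z l := by
  induction l, h using Nat.le_induction with
  | base => exact List.suffix_refl _
  | succ l _ ih => exact ih.trans (List.suffix_cons _ _)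

theorem pre_eq {z z' : ℕ → Bool} {k : ℕ} (h : pre z k = pre z' k) : ∀ i < k, z i = z' i := by
  induction k with
  | zero => intro i hi; omega
  | succ k ih =>
    simp only [pre, List.cons.injEq] at h
    intro i hi
    rcases Nat.lt_succ_iff_lt_or_eq.1 hi with hi | rfl
    · exact ih h.2 i hi
    · exact h.1

theorem exists_pre (s : List Bool) : ∃ z, pre z s.length = s := by
  induction s with
  | nil => exact ⟨fun _ => false, rfl⟩
  | cons c s ih =>
    obtain ⟨z, hz⟩ := ih
    refine ⟨Function.update z s.length c, ?_⟩
    simp only [List.length_cons, pre, Function.update_self, List.cons.injEq, true_and]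
    have : ∀ k ≤ s.length, pre (Function.update z s.length c) k = pre z k := by
      intro k
      induction k with
      | zero => intro _; rfl
      | succ k ih =>
        intro hk
        simp only [pre]
        rw [ih (by omega), Function.update_of_ne (by omega)]
    rw [this _ le_rfl, hz]

theorem exists_cyl {U : Set (ℕ → Bool)} (hU : IsOpen U) {z : ℕ → Bool} (hz : z ∈ U) :
    ∃ n, ∀ w, (∀ i < n, w i = z i) → w ∈ U := by
  obtain ⟨_, ⟨x, n, rfl⟩, hx, hs⟩ :=
    (PiNat.isTopologicalBasis_cylinders (fun _ : ℕ => Bool)).exists_subset_of_mem_open hz hU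
  refine ⟨n, fun w hw => hs ?_⟩
  rw [PiNat.mem_cylinder_iff] at hx ⊢
  intro i hi
  rw [hw i hi, hx i hi]

end B1

open B1 in
/-- B1: `cov(M) = 𝔠` -/
theorem ma_cov_pr (h : MartinsAxiom) {κ : Cardinal.{0}} (hκ : κ < 𝔠) : CovAt κ := by
  classical
  intro J N hJ hcl hint
  let D1 : J → Set Coh := fun j => {s | ∀ z, pre z s.s.length = s.s → z ∉ N j}
  let D2 : ℕ → Set Coh := fun n => {s | n ≤ s.s.length}
  let D : Set (Set Coh) := Set.range (Sum.elim D1 D2)
  have hD : #D < 𝔠 := by
    refine (mk_range_le (f := Sum.elim D1 D2)).trans_lt ?_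
    rw [mk_sum, lift_id, lift_id, mk_nat]
    exact add_lt_of_lt aleph0_le_continuum (hJ.trans_lt hκ) aleph0_lt_continuum
  have : Nonempty Coh := ⟨⟨[]⟩⟩
  obtain ⟨G, ⟨p0, hp0⟩, hup, hdir, hmeet⟩ := h Coh (fun A _ => Set.to_countable A) D hD (by
    rintro _ ⟨j | n, rfl⟩ p
    · obtain ⟨z, hz⟩ := exists_pre p.s
      -- the cylinder is not a subset of N j
      have hne : ∃ w, w ∉ N j ∧ ∀ i < p.s.length, w i = z i := by
        by_contra hcon
        push Not at hcon
        have hsub : PiNat.cylinder z p.s.length ⊆ N j := by
          intro w hw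
          by_contra hw'
          obtain ⟨i, hi, hi2⟩ := hcon w hw'
          exact hi2 (PiNat.mem_cylinder_iff.1 hw i hi)
        have := interior_maximal hsub (PiNat.isOpen_cylinder (fun _ : ℕ => Bool) z p.s.length)
        rw [hint j] at this
        exact this (PiNat.self_mem_cylinder z _)
      obtain ⟨w, hw, hwz⟩ := hne
      obtain ⟨n, hn⟩ := exists_cyl (hcl j).isOpen_compl (z := w) hw
      refine ⟨⟨pre w (max n p.s.length)⟩, ?_, ?_⟩
      · simp only [Sum.elim_inl, D1, Set.mem_ofPred_eq, pre_length]
        intro v hv
        exact hn v fun i hi => pre_eq hv i (lt_of_lt_of_le hi (le_max_left _ _))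
      · rw [B1.le_def]
        have h1 : p.s = pre w p.s.length := by
          have : ∀ k ≤ p.s.length, pre z k = pre w k := by
            intro k
            induction k with
            | zero => intro _; rfl
            | succ k ih =>
              intro hk
              simp only [pre]
              rw [ih (by omega), hwz k (by omega)]
          rw [← this _ le_rfl, hz]
        conv_lhs => rw [h1]
        exact pre_suffix w (le_max_right _ _)
    · refine ⟨⟨List.replicate n false ++ p.s⟩, ?_, ?_⟩
      · simp [D2]
      · rw [B1.le_def]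
        exact List.suffix_append _ _)
  -- the generic sequence
  have hlen : ∀ n, ∃ s ∈ G, n ≤ s.s.length := by
    intro n
    obtain ⟨s, hs, hs2⟩ := hmeet (D2 n) ⟨Sum.inr n, rfl⟩
    exact ⟨s, hs, hs2⟩
  have hval : ∀ n : ℕ, ∃ c : Bool, ∀ s ∈ G, ∀ z, pre z s.s.length = s.s → n < s.s.length →
      z n = c := by
    intro n
    obtain ⟨s, hs, hs2⟩ := hlen (n + 1)
    obtain ⟨z, hz⟩ := exists_pre s.s
    refine ⟨z n, fun t ht w hw hnt => ?_⟩
    obtain ⟨r, hr, hrs, hrt⟩ := hdir s hs t ht
    obtain ⟨v, hv⟩ := exists_pre r.s
    have key : ∀ (a : Coh) (x : ℕ → Bool), r ≤ a → pre x a.s.length = a.s → n < a.s.length →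
        v n = x n := by
      intro a x hra hx hna
      rw [B1.le_def] at hra
      have h1 : pre v a.s.length <:+ r.s := by
        conv_rhs => rw [← hv]
        exact pre_suffix v hra.length_le
      have h2 : pre v a.s.length = a.s := by
        rcases List.suffix_or_suffix_of_suffix h1 hra with h | h
        · exact h.eq_of_length (pre_length _ _)
        · exact (h.eq_of_length (pre_length _ _).symm).symm
      exact pre_eq (h2.trans hx.symm) n hna
    rw [← key t w hrt hw hnt, ← key s z hrs hz (by omega)]
  choose y hy using hval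
  have hpre : ∀ s ∈ G, pre y s.s.length = s.s := by
    intro s hs
    obtain ⟨z, hz⟩ := exists_pre s.s
    have : ∀ k ≤ s.s.length, pre y k = pre z k := by
      intro k
      induction k with
      | zero => intro _; rfl
      | succ k ih =>
        intro hk
        simp only [pre]
        rw [ih (by omega), hy k s hs z hz (by omega)]
    rw [this _ le_rfl, hz]
  refine ⟨y, fun j => ?_⟩
  obtain ⟨s, hs, hs2⟩ := hmeet (D1 j) ⟨Sum.inl j, rfl⟩
  exact hs2 y (hpre s hs)

end Pool.Agent.ZC
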