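import Pool.Agent.Lib_helper72.ZC.Defs

/-!
# Block B2: Martin's axiom and dominating functions
-/

namespace Pool.Agent.ZC

open MeasureTheory Cardinal Filter

open scoped ENNReal

namespace B2

/-- Hechler forcing for the family `h`: conditions `(s, F)` with `s` a finite function with domain
`{0, …, n - 1}` (zero above `n`) and a finite set `F` of promises -/
structure Hec {J : Type} (h : J → ℕ → ℕ) : Type where
  n : ℕ
  s : ℕ → ℕ
  F : Finset J
  hs : ∀ k, n ≤ k → s k = 0

variable {J : Type} {h : J → ℕ → ℕ}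

instance : PartialOrder (Hec h) where
  le a b := b.n ≤ a.n ∧ (∀ k < b.n, a.s k = b.s k) ∧ b.F ⊆ a.F ∧
    ∀ j ∈ b.F, ∀ k, b.n ≤ k → k < a.n → h j k ≤ a.s k
  le_refl a := ⟨le_rfl, fun _ _ => rfl, subset_rfl, fun _ _ _ h1 h2 => absurd h2 (by omega)⟩
  le_trans a b c h1 h2 := by
    refine ⟨h2.1.trans h1.1, fun k hk => (h1.2.1 k (by have := h2.1; omega)).trans (h2.2.1 k hk),
      h2.2.2.1.trans h1.2.2.1, fun j hj k hk hk' => ?_⟩
    by_cases hkb : k < b.n
    · rw [h1.2.1 k hkb]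
      exact h2.2.2.2 j hj k hk hkb
    · exact h1.2.2.2 j (h2.2.2.1 hj) k (by omega) hk'
  le_antisymm a b h1 h2 := by
    have hn : a.n = b.n := le_antisymm h2.1 h1.1
    have hs : a.s = b.s := by
      funext k
      by_cases hk : k < b.n
      · exact h1.2.1 k hk
      · rw [a.hs k (by omega), b.hs k (by omega)]
    have hF : a.F = b.F := Finset.Subset.antisymm h2.2.2.1 h1.2.2.1
    cases a; cases b
    simp only at hn hs hF
    subst hn hs hF
    rfl

theorem hec_le (a b : Hec h) : a ≤ b ↔ b.n ≤ a.n ∧ (∀ k < b.n, a.s k = b.s k) ∧ b.F ⊆ a.F ∧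
    ∀ j ∈ b.F, ∀ k, b.n ≤ k → k < a.n → h j k ≤ a.s k := Iff.rfl

/-- extension to length `n` -/
def longer (p : Hec h) (n : ℕ) (hn : p.n ≤ n) : Hec h where
  n := n
  s k := if k < p.n then p.s k else if k < n then p.F.sup fun j => h j k else 0
  F := p.F
  hs k hk := by rw [if_neg (by omega), if_neg (by omega)]

theorem longer_le (p : Hec h) (n : ℕ) (hn : p.n ≤ n) : longer p n hn ≤ p := by
  refine ⟨hn, fun k hk => by simp [longer, hk], subset_rfl, fun j hj k hk hk' => ?_⟩
  simp only [longer] at hk' ⊢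
  rw [if_neg (by omega), if_pos hk']
  exact Finset.le_sup (f := fun j => h j k) hj

end B2

open B2 in
/-- B2: `𝔟 = 𝔠` -/
theorem ma_dom_pr (hM : MartinsAxiom) {κ : Cardinal.{0}} (hκ : κ < 𝔠) : DomAt κ := by
  classical
  intro J h hJ
  let D1 : J → Set (Hec h) := fun j => {p | j ∈ p.F}
  let D2 : ℕ → Set (Hec h) := fun n => {p | n ≤ p.n}
  let D : Set (Set (Hec h)) := Set.range (Sum.elim D1 D2)
  have hD : #D < 𝔠 := by
    refine (mk_range_le (f := Sum.elim D1 D2)).trans_lt ?_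
    rw [mk_sum, lift_id, lift_id, mk_nat]
    exact add_lt_of_lt aleph0_le_continuum (hJ.trans_lt hκ) aleph0_lt_continuum
  have : Nonempty (Hec h) := ⟨⟨0, fun _ => 0, ∅, fun _ _ => rfl⟩⟩
  have hccc : ∀ A : Set (Hec h), (∀ a ∈ A, ∀ b ∈ A, a ≠ b → ¬ ∃ r, r ≤ a ∧ r ≤ b) →
      A.Countable := by
    intro A hA
    -- the part `(n, s)` determines the elements of `A`
    let φ : A → Σ n : ℕ, (Fin n → ℕ) := fun a => ⟨a.1.n, fun k => a.1.s k⟩
    have hφ : Function.Injective φ := by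
      rintro ⟨a, ha⟩ ⟨b, hb⟩ hab
      by_contra hne
      have hne' : a ≠ b := fun h => hne (Subtype.ext h)
      apply hA a ha b hb hne'
      simp only [φ] at hab
      have hn : a.n = b.n := congrArg Sigma.fst hab
      have hs : ∀ k < b.n, a.s k = b.s k := by
        intro k hk
        cases a with | mk an as aF ahs =>
        cases b with | mk bn bs bF bhs =>
        simp only at hn hk hab ⊢
        subst hn
        simp only [Sigma.mk.injEq, heq_eq_eq, true_and] at hab
        exact congrFun hab ⟨k, hk⟩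
      refine ⟨⟨a.n, a.s, a.F ∪ b.F, a.hs⟩, ?_, ?_⟩
      · exact ⟨le_rfl, fun _ _ => rfl, Finset.subset_union_left, fun _ _ _ h1 h2 => by
          simp only at h2; omega⟩
      · refine ⟨hn.ge, hs, Finset.subset_union_right, fun _ _ _ h1 h2 => by
          simp only at h2; omega⟩
    exact Set.countable_coe_iff.1 hφ.countable
  obtain ⟨G, -, -, hdir, hmeet⟩ := hM (Hec h) hccc D hD (by
    rintro _ ⟨j | n, rfl⟩ p
    · refine ⟨⟨p.n, p.s, insert j p.F, p.hs⟩, Finset.mem_insert_self _ _, ?_⟩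
      exact ⟨le_rfl, fun _ _ => rfl, Finset.subset_insert _ _, fun _ _ _ h1 h2 => by
        simp only at h2; omega⟩
    · exact ⟨longer p (max n p.n) (le_max_right _ _),
        show n ≤ (longer p (max n p.n) (le_max_right _ _)).n from le_max_left n p.n,
        longer_le _ _ _⟩)
  have hlen : ∀ n, ∃ p ∈ G, n < p.n := by
    intro n
    obtain ⟨p, hp, hp2⟩ := hmeet (D2 (n + 1)) ⟨Sum.inr (n + 1), rfl⟩
    exact ⟨p, hp, hp2⟩
  choose P hP hPn using hlen
  refine ⟨fun n => (P n).s n, fun j => ?_⟩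
  obtain ⟨p, hp, hpj⟩ := hmeet (D1 j) ⟨Sum.inl j, rfl⟩
  filter_upwards [Filter.eventually_ge_atTop p.n] with k hk
  obtain ⟨r, -, hr1, hr2⟩ := hdir p hp (P k) (hP k)
  have h1 : r.s k = (P k).s k := hr2.2.1 k (hPn k)
  rw [← h1]
  exact hr1.2.2.2 j hpj k hk (lt_of_lt_of_le (hPn k) hr2.1)

end Pool.Agent.ZC
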