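import Pool.Agent.Lib_helper72.ZC.Defs

/-!
# Block B3: there are at most `𝔠` measurable subsets of `{0, 1} ^ I`
-/

namespace Pool.Agent.ZC

open MeasureTheory Cardinal

theorem B3_gen (I : Type) : (MeasurableSpace.pi : MeasurableSpace (I → Bool)) =
    MeasurableSpace.generateFrom
      (Set.range fun p : I × Set Bool => (fun x : I → Bool => x p.1) ⁻¹' p.2) := by
  apply le_antisymm
  · refine iSup_le fun i => ?_
    rintro s ⟨t, _, rfl⟩
    exact MeasurableSpace.measurableSet_generateFrom ⟨(i, t), rfl⟩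
  · refine MeasurableSpace.generateFrom_le ?_
    rintro s ⟨⟨i, t⟩, rfl⟩
    exact measurable_pi_apply i (MeasurableSet.of_discrete (s := t))

theorem mk_meas_pr {I : Type} (hI : #I ≤ 𝔠) : #{A : Set (I → Bool) // MeasurableSet A} ≤ 𝔠 := by
  rw [B3_gen I]
  refine MeasurableSpace.cardinal_measurableSet_le_continuum ?_
  refine mk_range_le.trans ?_
  rw [mk_prod, lift_id, lift_id]
  have h1 : #(Set Bool) ≤ ℵ₀ := mk_le_aleph0
  calc #I * #(Set Bool) ≤ 𝔠 * ℵ₀ := mul_le_mul' hI h1
    _ = 𝔠 := continuum_mul_aleph0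

end Pool.Agent.ZC
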