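import Pool.Agent.Lib_helper72.ZC.Defs
import Pool.Agent.Lib_helper27.R.Ccc

/-!
# Block B4: random forcing is ccc
-/

namespace Pool.Agent.ZC

open Pool.Agent.Lib_helper27 MeasureTheory Cardinal V

theorem ccc_rnd_pr {Ω : Type} [MeasurableSpace Ω] (μ : Measure Ω) [IsProbabilityMeasure μ] :
    R.CCC (Rnd μ) := by
  intro ι p X hX
  by_contra hcon
  push Not at hcon
  have hdisj : ∀ i ∈ X, ∀ j ∈ X, i ≠ j → μ ((p i).1 ∩ (p j).1) = 0 := by
    intro i hi j hj hij
    by_contra hne
    refine hcon i hi j hj hij ⟨(p i).1 ∩ (p j).1, (p i).2.1.inter (p j).2.1, hne⟩ ?_ ?_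
    · change μ (((p i).1 ∩ (p j).1) \ (p i).1) = 0
      rw [Set.diff_eq_empty.2 Set.inter_subset_left, measure_empty]
    · change μ (((p i).1 ∩ (p j).1) \ (p j).1) = 0
      rw [Set.diff_eq_empty.2 Set.inter_subset_right, measure_empty]
  have hc := Measure.countable_meas_pos_of_disjoint_iUnion₀ (μ := μ)
    (As := fun i : X => (p i.1).1) (fun i => (p i.1).2.1.nullMeasurableSet)
    (fun i j hij => hdisj i.1 i.2 j.1 j.2 (fun h => hij (Subtype.ext h)))
  have hall : {i : X | 0 < μ (p i.1).1} = Set.univ := by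
    ext i
    simp only [Set.mem_setOf_eq, Set.mem_univ, iff_true]
    exact pos_iff_ne_zero.2 (p i.1).2.2
  rw [hall] at hc
  exact hX (Set.countable_coe_iff.1 (Set.countable_univ_iff.1 hc))

end Pool.Agent.ZC
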