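import Pool.Agent.Lib_helper72.ZC.Defs
import Pool.Agent.Lib_helper27.R.Top
import Pool.Agent.Lib_helper27.Card

/-!
# `βω` inside a model of ZFC: definitions
-/

set_option linter.unusedSectionVars false

namespace Pool.Agent.ZC

open Pool.Agent.Lib_helper27 Fml ST

universe u v

variable {M : Type u} [SetStr M] [ZFC M]

/-- `x ⊆ y` -/
def Sub (x y : M) : Prop := ∀ z, z ∈ x → z ∈ y

@[fun_prop]
theorem dbl_sub {Γ : Type v} [Ctx M Γ] {f g : Γ → M} (hf : Dbl M f) (hg : Dbl M g) :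
    Dbl M (fun γ => Sub (f γ) (g γ)) := by
  unfold Sub
  fun_prop

/-- the intersection of two sets -/
noncomputable def cap (x y : M) : M := comp (fun z : M => z ∈ x ∧ z ∈ y)

theorem small_cap (x y : M) : Small (fun z : M => z ∈ x ∧ z ∈ y) := small_sep (by fun_prop) x

@[simp] theorem mem_cap {x y z : M} : z ∈ cap x y ↔ z ∈ x ∧ z ∈ y := mem_comp (small_cap x y)

/-- the difference of two sets -/
noncomputable def dif (x y : M) : M := comp (fun z : M => z ∈ x ∧ ¬ z ∈ y)

theorem small_dif (x y : M) : Small (fun z : M => z ∈ x ∧ ¬ z ∈ y) := small_sep (by fun_prop) x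

@[simp] theorem mem_dif {x y z : M} : z ∈ dif x y ↔ z ∈ x ∧ ¬ z ∈ y := mem_comp (small_dif x y)

@[fun_prop]
theorem dbl_cap {Γ : Type v} [Ctx M Γ] {f g : Γ → M} (hf : Dbl M f) (hg : Dbl M g) :
    Dbl M (fun γ => cap (f γ) (g γ)) :=
  dbl_comp (fun γ => small_cap _ _) (by fun_prop)

@[fun_prop]
theorem dbl_dif {Γ : Type v} [Ctx M Γ] {f g : Γ → M} (hf : Dbl M f) (hg : Dbl M g) :
    Dbl M (fun γ => dif (f γ) (g γ)) :=
  dbl_comp (fun γ => small_dif _ _) (by fun_prop)

/-- `u` is a (proper) filter of subsets of `ω` -/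
def IsFilt (u : M) : Prop :=
  (∀ A, A ∈ u → Sub A omega) ∧ omega ∈ u ∧ ¬ empty ∈ u ∧
    (∀ A, A ∈ u → ∀ B, B ∈ u → cap A B ∈ u) ∧
    ∀ A, A ∈ u → ∀ B, Sub A B → Sub B omega → B ∈ u

/-- `u` is an ultrafilter on `ω` -/
def UF (u : M) : Prop := IsFilt u ∧ ∀ A, Sub A omega → A ∈ u ∨ dif omega A ∈ u

@[fun_prop]
theorem dbl_isFilt {Γ : Type v} [Ctx M Γ] {f : Γ → M} (hf : Dbl M f) :
    Dbl M (fun γ => IsFilt (f γ)) := by
  unfold IsFilt
  fun_prop

@[fun_prop]
theorem dbl_UF {Γ : Type v} [Ctx M Γ] {f : Γ → M} (hf : Dbl M f) :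
    Dbl M (fun γ => UF (f γ)) := by
  unfold UF
  fun_prop

theorem small_UF : Small (fun u : M => UF u) := by
  refine small_of_subset (by fun_prop) (power (power omega)) ?_
  intro u hu
  rw [mem_power]
  intro A hA
  rw [mem_power]
  exact hu.1.1 A hA

/-- the set of all ultrafilters on `ω` -/
noncomputable def bX : M := comp (fun u : M => UF u)

@[simp] theorem mem_bX {u : M} : u ∈ (bX : M) ↔ UF u := mem_comp small_UF

/-- the basic open set of all ultrafilters which contain `A` -/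
noncomputable def hat (A : M) : M := comp (fun u : M => u ∈ (bX : M) ∧ A ∈ u)

theorem small_hat (A : M) : Small (fun u : M => u ∈ (bX : M) ∧ A ∈ u) :=
  small_sep (by fun_prop) bX

@[simp] theorem mem_hat {A u : M} : u ∈ hat A ↔ UF u ∧ A ∈ u := by
  rw [hat, mem_comp (small_hat A), mem_bX]

@[fun_prop]
theorem dbl_hat {Γ : Type v} [Ctx M Γ] {f : Γ → M} (hf : Dbl M f) :
    Dbl M (fun γ => hat (f γ)) :=
  dbl_comp (fun γ => small_hat _) (by fun_prop)

/-- the base: all `hat A`, `A ⊆ ω` -/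
noncomputable def bB : M := image hat (power omega)

theorem mem_bB {v : M} : v ∈ (bB : M) ↔ ∃ A : M, Sub A omega ∧ hat A = v := by
  rw [bB, mem_image (by fun_prop)]
  simp only [mem_power]
  rfl

/-- `O` is open -/
def IsOp (O : M) : Prop := Sub O bX ∧ ∀ u, u ∈ O → ∃ A, A ∈ u ∧ Sub (hat A) O

@[fun_prop]
theorem dbl_isOp {Γ : Type v} [Ctx M Γ] {f : Γ → M} (hf : Dbl M f) :
    Dbl M (fun γ => IsOp (f γ)) := by
  unfold IsOp
  fun_prop

theorem small_isOp : Small (fun O : M => IsOp O) := by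
  refine small_of_subset (by fun_prop) (power bX) ?_
  intro O hO
  rw [mem_power]
  exact hO.1

/-- the topology -/
noncomputable def bT : M := comp (fun O : M => IsOp O)

@[simp] theorem mem_bT {O : M} : O ∈ (bT : M) ↔ IsOp O := mem_comp small_isOp

end Pool.Agent.ZC
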