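import Pool.Agent.Lib_helper72.ZC.Defs

/-!
# Block C1: what holds in all models of ZFC is forced
-/

namespace Pool.Agent.ZC

open Pool.Agent.Lib_helper27 Fml V

open Pool.Agent.Lib_helper27.ST (EE)

namespace C1

variable {P : Type} [Preorder P] (q : P)

/-- the conditions below `q` -/
abbrev Bel : Type := {r : P // r ≤ q}

/-- names over `P` as names over the conditions below `q` -/
def rho : Name P → Name (Bel q)
  | .mk J x c => .mk (Σ j : J, {r : Bel q // r.1 ≤ c j}) (fun z => rho (x z.1)) (fun z => z.2.1)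

/-- inclusion -/
def inc : Name (Bel q) → Name P
  | .mk J x c => .mk J (fun j => inc (x j)) (fun j => (c j).1)

variable {q}

theorem inc_eq (a : Name (Bel q)) : inc q a = .mk a.idx (fun j => inc q (a.elt j))
    (fun j => (a.cnd j).1) := by
  cases a
  rfl

theorem feq_inc {a b : Name (Bel q)} {r : Bel q} : feq (inc q a) (inc q b) r.1 ↔ feq a b r := by
  induction a generalizing b r with
  | mk J x c ih =>
    cases b with
    | mk K y d =>
      rw [inc_eq, inc_eq, feq_iff, feq_iff]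
      constructor
      · rintro ⟨h1, h2⟩
        refine ⟨fun i s hs hs' => ?_, fun j s hs hs' => ?_⟩
        · obtain ⟨t, ht, j, hj, he⟩ := h1 i s.1 hs hs'
          exact ⟨⟨t, ht.trans s.2⟩, ht, j, hj, (ih i (r := ⟨t, ht.trans s.2⟩)).1 he⟩
        · obtain ⟨t, ht, i, hi, he⟩ := h2 j s.1 hs hs'
          exact ⟨⟨t, ht.trans s.2⟩, ht, i, hi, (ih i (r := ⟨t, ht.trans s.2⟩)).1 he⟩
      · rintro ⟨h1, h2⟩
        refine ⟨fun i s hs hs' => ?_, fun j s hs hs' => ?_⟩
        · obtain ⟨t, ht, j, hj, he⟩ := h1 i ⟨s, hs.trans r.2⟩ hs hs'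
          exact ⟨t.1, ht, j, hj, (ih i).2 he⟩
        · obtain ⟨t, ht, i, hi, he⟩ := h2 j ⟨s, hs.trans r.2⟩ hs hs'
          exact ⟨t.1, ht, i, hi, (ih i).2 he⟩

theorem fmem_inc {a b : Name (Bel q)} {r : Bel q} :
    fmem (inc q a) (inc q b) r.1 ↔ fmem a b r := by
  rw [inc_eq b]
  unfold fmem
  constructor
  · intro h s hs
    obtain ⟨t, ht, j, hj, he⟩ := h s.1 hs
    exact ⟨⟨t, ht.trans s.2⟩, ht, j, hj, (feq_inc (r := ⟨t, ht.trans s.2⟩)).1 he⟩
  · intro h s hs
    obtain ⟨t, ht, j, hj, he⟩ := h ⟨s, hs.trans r.2⟩ hs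
    exact ⟨t.1, ht, j, hj, feq_inc.2 he⟩

theorem inc_rho (x : Name P) {r : P} (hr : r ≤ q) : feq (inc q (rho q x)) x r := by
  induction x generalizing r with
  | mk J x c ih =>
    rw [feq_iff]
    constructor
    · rintro ⟨j, s, hs⟩ t ht ht'
      refine ⟨t, le_rfl, j, le_trans ht' hs, ?_⟩
      exact ih j (ht.trans hr)
    · intro j t ht ht'
      refine ⟨t, le_rfl, ⟨j, ⟨t, ht.trans hr⟩, ht'⟩, le_rfl, ?_⟩
      exact ih j (ht.trans hr)

theorem forces_inc (φ : DF) (n : ℕ) (e : ℕ → Name (Bel q)) (r : Bel q) :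
    Fc r (φ.to n e) ↔ Fc r.1 (φ.to n fun i => inc q (e i)) := by
  induction φ generalizing n e r with
  | mem i j => exact fmem_inc.symm
  | eq i j => exact feq_inc.symm
  | neg φ ih =>
    constructor
    · intro h s hs hs'
      exact h ⟨s, hs.trans r.2⟩ hs ((ih n e ⟨s, hs.trans r.2⟩).2 hs')
    · intro h s hs hs'
      exact h s.1 hs ((ih n e s).1 hs')
  | and φ ψ ih1 ih2 => exact and_congr (ih1 n e r) (ih2 n e r)
  | all φ ih =>
    have key : ∀ x : Name (Bel q), (fun i => inc q (upd e n x i)) =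
        upd (fun i => inc q (e i)) n (inc q x) := by
      intro x
      funext i
      unfold upd
      split_ifs <;> rfl
    constructor
    · intro h y
      have h1 := (ih (n + 1) (upd e n (rho q y)) r).1 (h (rho q y))
      rw [key] at h1
      refine (fc_congr (DF.rel (fun z => feq_refl z r.1) φ (n + 1) _ _ fun i => ?_) le_rfl).1 h1
      unfold upd
      split_ifs
      · exact inc_rho y r.2
      · exact feq_refl _ _
    · intro h x
      refine (ih (n + 1) (upd e n x) r).2 ?_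
      rw [key]
      exact h (inc q x)

end C1

open C1 in
/-- C1: what holds in all models of ZFC is forced. -/
theorem transfer_pr (φ : DF) (n : ℕ)
    (h : ∀ (M : Type 1) [SetStr M] [ZFC M] (e : ℕ → M), Holds (EE M) (φ.to n e))
    {P : Type} [Preorder P] (p : P) (e : ℕ → Name P) : Fc p (φ.to n e) := by
  refine Forces.dense nf_basic ?_
  intro q hq
  by_contra hcon
  push Not at hcon
  have : Nonempty (Bel q) := ⟨⟨q, le_rfl⟩⟩
  let _ : SetStr (Ext (Bel q)) := ⟨extE (Bel q)⟩
  have : ZFC (Ext (Bel q)) := ⟨ext_zfc⟩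
  have h1 : Holds (extE (Bel q)) (φ.to n fun i => π (rho q (e i))) :=
    h (Ext (Bel q)) fun i => π (rho q (e i))
  have h2 : T (φ.to n fun i => rho q (e i)) := (los (DF.lk φ n fun i => rho q (e i))).1 h1
  obtain ⟨r, hr⟩ := h2.exists
  have h3 := (forces_inc φ n _ r).1 hr
  refine hcon r.1 r.2 ?_
  exact (fc_congr (DF.rel (fun z => feq_refl z r.1) φ n _ _ fun i => inc_rho (e i) r.2)
    le_rfl).1 h3

end Pool.Agent.ZC
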