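import Pool.Agent.Lib_helper72.ZC.Defs

/-!
# Block C2: Boolean values
-/

namespace Pool.Agent.ZC

open Pool.Agent.Lib_helper27 Fml MeasureTheory Cardinal V

open scoped ENNReal

section

variable {Ω : Type} [MeasurableSpace Ω] (μ : Measure Ω) [IsProbabilityMeasure μ]

/-- A countable union of members of a class of measurable sets which contains all the members
modulo null sets. -/
theorem C2_exhaust (S : Set (Set Ω)) (hS : ∀ A ∈ S, MeasurableSet A) :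
    ∃ T : Set (Set Ω), T.Countable ∧ T ⊆ S ∧ ∀ A ∈ S, μ (A \ ⋃₀ T) = 0 := by
  let V : Set ℝ≥0∞ := {m | ∃ T : Set (Set Ω), T.Countable ∧ T ⊆ S ∧ m = μ (⋃₀ T)}
  have hV : V.Nonempty := ⟨μ (⋃₀ ∅), ∅, Set.countable_empty, Set.empty_subset _, rfl⟩
  obtain ⟨u, _, hu, huV⟩ := exists_seq_tendsto_sSup hV (OrderTop.bddAbove V)
  choose T hTc hTS hTu using huV
  refine ⟨⋃ n, T n, Set.countable_iUnion hTc, Set.iUnion_subset hTS, ?_⟩
  intro A hA
  have hle : ∀ n, u n ≤ μ (⋃₀ ⋃ n, T n) := by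
    intro n
    rw [hTu n]
    exact measure_mono (Set.sUnion_mono (Set.subset_iUnion T n))
  have hsup : sSup V ≤ μ (⋃₀ ⋃ n, T n) := le_of_tendsto' hu hle
  have hins : μ (A ∪ ⋃₀ ⋃ n, T n) ≤ sSup V := by
    refine le_sSup ⟨insert A (⋃ n, T n), (Set.countable_iUnion hTc).insert A,
      Set.insert_subset hA (Set.iUnion_subset hTS), ?_⟩
    rw [Set.sUnion_insert]
  have hmeas : MeasurableSet (⋃₀ ⋃ n, T n) :=
    MeasurableSet.sUnion (Set.countable_iUnion hTc) fun t ht =>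
      hS t (Set.iUnion_subset hTS ht)
  have hsplit : μ (A ∪ ⋃₀ ⋃ n, T n) = μ (⋃₀ ⋃ n, T n) + μ (A \ ⋃₀ ⋃ n, T n) := by
    rw [← Set.diff_union_self, Set.union_comm]
    exact measure_union Set.disjoint_sdiff_right ((hS A hA).diff hmeas)
  have h3 : μ (⋃₀ ⋃ n, T n) + μ (A \ ⋃₀ ⋃ n, T n) ≤ μ (⋃₀ ⋃ n, T n) + 0 := by
    rw [← hsplit, add_zero]
    exact hins.trans hsup
  exact nonpos_iff_eq_zero.1 ((ENNReal.add_le_add_iff_left (measure_ne_top μ _)).1 h3)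

/-- C2: Boolean values -/
theorem exists_val_pr (φ : Fml (Name (Rnd μ))) : ∃ A : Set Ω, MeasurableSet A ∧
    ∀ r : Rnd μ, Fc r φ ↔ μ (r.1 \ A) = 0 := by
  obtain ⟨T, hTc, hTS, hT⟩ := C2_exhaust μ {A | ∃ r : Rnd μ, r.1 = A ∧ Fc r φ} (by
    rintro A ⟨r, rfl, _⟩
    exact r.2.1)
  refine ⟨⋃₀ T, MeasurableSet.sUnion hTc fun t ht => ?_, ?_⟩
  · obtain ⟨r, rfl, _⟩ := hTS ht
    exact r.2.1
  · intro r
    refine ⟨fun h => hT r.1 ⟨r, rfl, h⟩, fun h => ?_⟩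
    refine Forces.dense nf_basic ?_
    intro q hq
    have hq0 : μ (q.1 \ ⋃₀ T) = 0 := by
      refine measure_mono_null (t := (q.1 \ r.1) ∪ (r.1 \ ⋃₀ T)) ?_ (measure_union_null hq h)
      intro x hx
      by_cases hxr : x ∈ r.1
      · exact Or.inr ⟨hxr, hx.2⟩
      · exact Or.inl ⟨hx.1, hxr⟩
    have : ∃ t ∈ T, μ (q.1 ∩ t) ≠ 0 := by
      by_contra hcon
      push Not at hcon
      have h0 : μ (⋃ t ∈ T, q.1 ∩ t) = 0 := (measure_biUnion_null_iff hTc).2 hcon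
      refine q.2.2 (measure_mono_null (t := (q.1 \ ⋃₀ T) ∪ (⋃ t ∈ T, q.1 ∩ t)) ?_
        (measure_union_null hq0 h0))
      intro x hx
      by_cases hxT : x ∈ ⋃₀ T
      · obtain ⟨t, ht, hxt⟩ := hxT
        exact Or.inr (Set.mem_biUnion ht ⟨hx, hxt⟩)
      · exact Or.inl ⟨hx, hxT⟩
    obtain ⟨t, ht, hne⟩ := this
    obtain ⟨s, rfl, hs⟩ := hTS ht
    refine ⟨⟨q.1 ∩ s.1, q.2.1.inter s.2.1, hne⟩, ?_, ?_⟩
    · change μ ((q.1 ∩ s.1) \ q.1) = 0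
      rw [Set.diff_eq_empty.2 Set.inter_subset_left, measure_empty]
    · refine Forces.mono nf_basic ?_ hs
      change μ ((q.1 ∩ s.1) \ s.1) = 0
      rw [Set.diff_eq_empty.2 Set.inter_subset_right, measure_empty]

end

end Pool.Agent.ZC
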