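import Pool.Agent.Lib_helper72.ZC.Defs
import Pool.Agent.Lib_helper72.ZC.C2

/-!
# Block C3: indexing a base of cardinality less than the continuum
-/

namespace Pool.Agent.ZC

open Pool.Agent.Lib_helper27 Fml V MeasureTheory Cardinal

set_option linter.unusedSectionVars false

namespace C3

section rec

variable {P : Type} [Preorder P] {K : Type} [LinearOrder K] [WellFoundedLT K]

/-- `t` is an element of `B` and not an element of `D` -/
def chi (B D t : Name P) : Fml (Name P) := and (mem t B) (neg (mem t D))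

theorem chi_congr (B D : Name P) : Congr1 (chi B D) := fun p _ _ h =>
  .and (.mem h (feq_refl B p)) (.neg (.mem h (feq_refl D p)))

theorem exists_next (B D : Name P) : ∃ t, ∀ r, Fc r (ex (chi B D)) → Fc r (chi B D t) :=
  exists_mix (chi B D) (chi_congr B D)

theorem exists_seq (B : Name P) : ∃ c : K → Name P, ∀ a r,
    Fc r (ex (chi B (mkAll {b : K // b < a} fun b => c b.1))) →
      Fc r (chi B (mkAll {b : K // b < a} fun b => c b.1) (c a)) := by
  let c : K → Name P := (wellFounded_lt (α := K)).fix fun a ih =>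
    (exists_next B (mkAll {b : K // b < a} fun b => ih b.1 b.2)).choose
  have hc : ∀ a, c a = (exists_next B (mkAll {b : K // b < a} fun b => c b.1)).choose := by
    intro a
    exact WellFounded.fix_eq _ _ _
  refine ⟨c, fun a r h => ?_⟩
  have h1 := (exists_next B (mkAll {b : K // b < a} fun b => c b.1)).choose_spec r h
  rw [← hc a] at h1
  exact h1

/-- case 1 -/
theorem exhaust {B : Name P} {p : P} (c : K → Name P) (hc : ∀ a r,
    Fc r (ex (chi B (mkAll {b : K // b < a} fun b => c b.1))) →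
      Fc r (chi B (mkAll {b : K // b < a} fun b => c b.1) (c a))) {a : K}
    (ha : ¬ Fc p (ex (chi B (mkAll {b : K // b < a} fun b => c b.1))))
    (hb : ∀ b < a, Fc p (ex (chi B (mkAll {b' : K // b' < b} fun b' => c b'.1)))) :
    ∃ q, q ≤ p ∧ feq B (mkAll {b : K // b < a} fun b => c b.1) q := by
  rw [Fc, forces_ex] at ha
  unfold Loc at ha
  push Not at ha
  obtain ⟨q, hq, hq'⟩ := ha
  refine ⟨q, hq, feq_ext fun t r hr => ?_⟩
  constructor
  · intro ht
    refine fmem_dense fun s hs => ?_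
    by_contra hcon
    push Not at hcon
    refine hq' s (hs.trans hr) t ⟨fmem_mono hs ht, fun s' hs' => hcon s' hs'⟩
  · intro ht
    refine fmem_dense ((fmem_mkAll.1 ht).imp ?_)
    rintro s hs ⟨⟨b, hb'⟩, he⟩
    have h1 : fmem (c b) B p := (hc b p (hb b hb')).1
    exact fmem_congr_left (feq_symm he) (fmem_mono (hs.trans (hr.trans hq)) h1)

end rec

section val

variable {Ω : Type} [MeasurableSpace Ω] (μ : Measure Ω) [IsProbabilityMeasure μ]

/-- the measurable sets -/
abbrev MS (Ω : Type) [MeasurableSpace Ω] : Type := {A : Set Ω // MeasurableSet A}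

/-- the name of a subset of `ω` -/
noncomputable def nm (A : ℕ → MS Ω) : Name (Rnd μ) :=
  mkQ ℕ (onm (Rnd μ)) fun k r => μ (r.1 \ (A k).1) = 0

variable {μ}

omit [IsProbabilityMeasure μ] in
theorem null_mono {r s : Rnd μ} (h : s ≤ r) {A : Set Ω} (hr : μ (r.1 \ A) = 0) :
    μ (s.1 \ A) = 0 := by
  have h' : μ (s.1 \ r.1) = 0 := h
  refine measure_mono_null (t := (s.1 \ r.1) ∪ (r.1 \ A)) ?_ (measure_union_null h' hr)
  intro x hx
  by_cases h1 : x ∈ r.1
  · exact Or.inr ⟨h1, hx.2⟩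
  · exact Or.inl ⟨hx.1, h1⟩

omit [IsProbabilityMeasure μ] in
theorem nm_down (A : ℕ → MS Ω) : Down (P := Rnd μ) fun (k : ℕ) r => μ (r.1 \ (A k).1) = 0 :=
  fun _ _ _ hq h => null_mono hq h

omit [IsProbabilityMeasure μ] in
theorem nm_sub (A : ℕ → MS Ω) (r : Rnd μ) : Fc r (isSubset (nm μ A) (oall (Rnd μ) ℕ)) := by
  intro z
  refine (forces_imp nf_basic).2 fun q hq hz => ?_
  refine fmem_oall.2 (((fmem_mkQ (nm_down A)).1 hz).imp ?_)
  rintro s hs ⟨k, _, he⟩
  exact ⟨k, he⟩

theorem exists_nm (x : Name (Rnd μ)) : ∃ A : ℕ → MS Ω, ∀ q : Rnd μ,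
    Fc q (isSubset x (oall (Rnd μ) ℕ)) → feq x (nm μ A) q := by
  choose A hA hA' using fun k : ℕ => exists_val_pr μ (mem (onm (Rnd μ) k) x)
  refine ⟨fun k => ⟨A k, hA k⟩, fun q hq => feq_ext fun z r hr => ?_⟩
  constructor
  · intro hz
    have h1 : fmem z (oall (Rnd μ) ℕ) r := (forces_imp nf_basic).1 (hq z) r hr hz
    refine (fmem_mkQ (nm_down _)).2 ((fmem_oall.1 h1).imp ?_)
    rintro s hs ⟨k, he⟩
    refine ⟨k, ?_, he⟩
    exact (hA' k s).1 (fmem_congr_left he (fmem_mono hs hz))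
  · intro hz
    refine fmem_dense (((fmem_mkQ (nm_down _)).1 hz).imp ?_)
    rintro s hs ⟨k, hk, he⟩
    exact fmem_congr_left (feq_symm he) ((hA' k s).2 hk)

end val

end C3

open C3 in
/-- C3 -/
theorem exists_index_pr {Ω : Type} [MeasurableSpace Ω] (μ : Measure Ω) [IsProbabilityMeasure μ]
    (hcard : #{A : Set Ω // MeasurableSet A} ≤ 𝔠) {p : Rnd μ}
    {C B : Name (Rnd μ)} (hC : Fc p (isPower C (oall (Rnd μ) ℕ)))
    (hinj : Fc p (neg (ex fun f => isInj f C B))) :
    ∃ (I : Type) (_ : LinearOrder I) (_ : WellFoundedLT I) (c : I → Name (Rnd μ)) (q : Rnd μ),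
      q ≤ p ∧ #I < 𝔠 ∧ feq B (mkAll I c) q := by
  obtain ⟨c, hc⟩ := C3.exists_seq (K := (𝔠 : Cardinal.{0}).ord.ToType) B
  by_cases hcase : ∃ a : (𝔠 : Cardinal.{0}).ord.ToType,
      ¬ Fc p (ex (chi B (mkAll {b : (𝔠 : Cardinal.{0}).ord.ToType // b < a} fun b => c b.1)))
  · obtain ⟨a, ha, hmin⟩ := WellFounded.has_min
      (wellFounded_lt (α := (𝔠 : Cardinal.{0}).ord.ToType)) _ hcase
    obtain ⟨q, hq, he⟩ := exhaust c hc ha fun b hb => by
      by_contra hcon
      exact hmin b hcon hb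
    exact ⟨{b : (𝔠 : Cardinal.{0}).ord.ToType // b < a}, inferInstance, inferInstance,
      fun b => c b.1, q, hq, mk_Iio_toType_ord_lt a, he⟩
  · exfalso
    push Not at hcase
    have hall : ∀ a r, r ≤ p → fmem (c a) B r := fun a r hr => fmem_mono hr (hc a p (hcase a)).1
    have hne : ∀ a b r, b < a → r ≤ p → ¬ feq (c b) (c a) r := by
      intro a b r hb hr he
      refine (hc a p (hcase a)).2 r hr ?_
      exact fmem_congr_left he (fmem_mkAll_of (x := fun b : {b // b < a} => c b.1) ⟨b, hb⟩)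
    have hS : #(ℕ → MS Ω) ≤ #((𝔠 : Cardinal.{0}).ord.ToType) := by
      rw [mk_ord_toType]
      calc #(ℕ → MS Ω) = #(MS Ω) ^ ℵ₀ := by simp
        _ ≤ 𝔠 ^ ℵ₀ := Cardinal.power_le_power_right hcard
        _ = 𝔠 := continuum_power_aleph0
    obtain ⟨ψ⟩ := hS
    have hQ : Down (P := Rnd μ) fun (A : ℕ → MS Ω) r =>
        ∀ A', ψ A' < ψ A → ∀ s, s ≤ r → ¬ feq (nm μ A') (nm μ A) s :=
      fun A r r' hr' h A' hA' s hs => h A' hA' s (hs.trans hr')
    have huniq : ∀ (A A' : ℕ → MS Ω) (r : Rnd μ),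
        (∀ A'', ψ A'' < ψ A → ∀ s, s ≤ r → ¬ feq (nm μ A'') (nm μ A) s) →
        (∀ A'', ψ A'' < ψ A' → ∀ s, s ≤ r → ¬ feq (nm μ A'') (nm μ A') s) →
        feq (nm μ A) (nm μ A') r → A = A' := by
      intro A A' r h1 h2 he
      rcases lt_trichotomy (ψ A) (ψ A') with h | h | h
      · exact (h2 A h r le_rfl he).elim
      · exact ψ.injective h
      · exact (h1 A' h r le_rfl (feq_symm he)).elim
    have hCm : ∀ x r, r ≤ p → (fmem x C r ↔ Fc r (isSubset x (oall (Rnd μ) ℕ))) :=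
      fun x r hr => (forces_iff nf_basic).1 (hC x) r hr
    have hfun : Fc p (isFunc (mkFn (ℕ → MS Ω) (fun A => nm μ A) (fun A => c (ψ A))
        fun A r => ∀ A', ψ A' < ψ A → ∀ s, s ≤ r → ¬ feq (nm μ A') (nm μ A) s) C B) := by
      refine fc_isFunc hQ ?_ ?_ ?_
      · intro A r hr _
        exact ⟨(hCm _ r hr).2 (nm_sub A r), hall _ r hr⟩
      · intro x q hq hx
        obtain ⟨A₀, hA₀⟩ := exists_nm (μ := μ) x
        have h0 : feq x (nm μ A₀) q := hA₀ q ((hCm x q hq).1 hx)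
        intro q' hq'
        obtain ⟨A, ⟨r, hr, he⟩, hmin⟩ := WellFounded.has_min
          (InvImage.wf ψ (wellFounded_lt (α := (𝔠 : Cardinal.{0}).ord.ToType)))
          {A | ∃ r, r ≤ q' ∧ feq x (nm μ A) r} ⟨A₀, q', le_rfl, feq_mono hq' h0⟩
        refine ⟨r, hr, A, fun A' hA' s hs hs' => ?_, he⟩
        refine hmin A' ⟨s, hs.trans hr, ?_⟩ hA'
        exact feq_trans (feq_mono hs he) (feq_symm hs')
      · intro A A' r _ h1 h2 he
        rw [huniq A A' r h1 h2 he]
        exact feq_refl _ _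
    have hin := fc_isInj hQ hfun (by
      intro A A' r hr _ _ he
      rcases lt_trichotomy (ψ A) (ψ A') with h | h | h
      · exact (hne _ _ r h hr he).elim
      · rw [ψ.injective h]
        exact feq_refl _ _
      · exact (hne _ _ r h hr (feq_symm he)).elim)
    exact hinj p le_rfl (forces_ex.2 (Loc.pure fun q hq => ⟨_, Forces.mono nf_basic hq hin⟩))

end Pool.Agent.ZC
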