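import Pool.Agent.Lib_helper72.ZC.Defs

/-! Block C4: an infinite set has an infinite countable subset. -/

namespace Pool.Agent.ZC

open Pool.Agent.Lib_helper27 Fml V

section

variable {P : Type} [Preorder P]

/-- the formula: `x` is an element of `X` and not an element of `Y` -/
def C4_phi (X Y x : Name P) : Fml (Name P) := and (mem x X) (neg (mem x Y))

theorem C4_congr (X Y : Name P) : Congr1 (C4_phi X Y) := by
  intro p x y h
  exact .and (.mem h (feq_refl _ _)) (.neg (.mem h (feq_refl _ _)))

/-- the recursion -/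
noncomputable def C4_z (X : Name P) : ℕ → Name P :=
  (wellFounded_lt (α := ℕ)).fix fun n ih => Classical.choose (exists_mix
    (C4_phi X (mkAll {m : ℕ // m < n} fun m => ih m.1 m.2)) (C4_congr _ _))

theorem C4_z_spec (X : Name P) (n : ℕ) (p : P)
    (h : Fc p (ex (C4_phi X (mkAll {m : ℕ // m < n} fun m => C4_z X m.1)))) :
    Fc p (C4_phi X (mkAll {m : ℕ // m < n} fun m => C4_z X m.1) (C4_z X n)) := by
  have e : C4_z X n = Classical.choose (exists_mix
    (C4_phi X (mkAll {m : ℕ // m < n} fun m => C4_z X m.1)) (C4_congr _ _)) := by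
    rw [C4_z, WellFounded.fix_eq]
  rw [e]
  exact Classical.choose_spec (exists_mix
    (C4_phi X (mkAll {m : ℕ // m < n} fun m => C4_z X m.1)) (C4_congr _ _)) p h

theorem C4_ne {X : Name P} {p : P} {n m : ℕ} (hm : m < n)
    (h : Fc p (C4_phi X (mkAll {m : ℕ // m < n} fun m => C4_z X m.1) (C4_z X n))) (r : P)
    (hr : r ≤ p) : ¬ feq (C4_z X n) (C4_z X m) r := by
  intro he
  refine h.2 r hr ?_
  exact fmem_mkAll.2 (Loc.pure fun s hs => ⟨⟨m, hm⟩, feq_mono hs he⟩)

theorem exists_seq_pr {X : Name P} {p : P} (h : Fc p (neg (isFin (oall P ℕ) X))) :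
    ∃ f, Fc p (isInj f (oall P ℕ) X) := by
  classical
  have key : ∀ n : ℕ, Fc p (C4_phi X (mkAll {m : ℕ // m < n} fun m => C4_z X m.1) (C4_z X n)) := by
    intro n
    induction n using Nat.strong_induction_on with
    | _ n ih =>
      refine C4_z_spec X n p ?_
      by_contra hcon
      obtain ⟨q, hq, hq'⟩ : ∃ q, q ≤ p ∧ ∀ r, r ≤ q →
          ¬ Fc r (ex (C4_phi X (mkAll {m : ℕ // m < n} fun m => C4_z X m.1))) := by
        by_contra hc
        push Not at hc
        exact hcon (Forces.dense nf_basic fun q hq => hc q hq)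
      have hQ : Down (P := P) (fun (_ : {m : ℕ // m < n}) _ => True) := down_true
      have hf : Fc q (isFunc (mkFn {m : ℕ // m < n} (fun m => onm P m.1) (fun m => C4_z X m.1)
          fun _ _ => True) (onm P n) X) := by
        refine fc_isFunc hQ ?_ ?_ ?_
        · intro i r hr _
          exact ⟨onm_mem i.2 r, fmem_mono (hr.trans hq) (ih i.1 i.2).1⟩
        · intro y r _ hy
          refine (fmem_onm.1 hy).imp ?_
          rintro s _ ⟨m, hm, he⟩
          exact ⟨⟨m, hm⟩, trivial, he⟩
        · intro i j r _ _ _ he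
          rw [onm_inj he]
          exact feq_refl _ _
      have hinj := fc_isInj hQ hf (by
        intro i j r hr _ _ he
        rcases lt_trichotomy i.1 j.1 with hij | hij | hij
        · exact (C4_ne hij (ih j.1 j.2) r (hr.trans hq) (feq_symm he)).elim
        · rw [hij]
          exact feq_refl _ _
        · exact (C4_ne hij (ih i.1 i.2) r (hr.trans hq) he).elim)
      have hbij := fc_isBij hQ hinj (by
        intro y r hr hy s hs
        by_contra hc
        push Not at hc
        refine hq' s (hs.trans hr) (forces_ex.2 (Loc.pure fun t ht => ⟨y, ?_, ?_⟩))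
        · exact fmem_mono (ht.trans hs) hy
        · intro w hw hmem
          obtain ⟨v, hv, i, hi⟩ := (fmem_mkAll.1 hmem).exists
          exact hc v (hv.trans (hw.trans ht)) i trivial (onm_mem i.2 v) hi)
      refine h q hq (forces_bex.2 (Loc.pure fun r hr => ⟨onm P n, onm_mem_oall n r,
        forces_ex.2 (Loc.pure fun s hs => ⟨_, Forces.mono nf_basic (hs.trans hr) hbij⟩)⟩))
  have hQ : Down (P := P) (fun (_ : ℕ) _ => True) := down_true
  have hf : Fc p (isFunc (mkFn ℕ (onm P) (C4_z X) fun _ _ => True) (oall P ℕ) X) := by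
    refine fc_isFunc hQ ?_ ?_ ?_
    · intro i r hr _
      exact ⟨onm_mem_oall i r, fmem_mono hr (key i).1⟩
    · intro y r _ hy
      refine (fmem_oall.1 hy).imp ?_
      rintro s _ ⟨m, he⟩
      exact ⟨m, trivial, he⟩
    · intro i j r _ _ _ he
      rw [onm_inj he]
      exact feq_refl _ _
  refine ⟨_, fc_isInj hQ hf ?_⟩
  intro i j r hr _ _ he
  rcases lt_trichotomy i j with hij | hij | hij
  · exact (C4_ne hij (key j) r hr (feq_symm he)).elim
  · rw [hij]
    exact feq_refl _ _
  · exact (C4_ne hij (key i) r hr he).elim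

end

end Pool.Agent.ZC
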