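import Pool.Agent.Lib_helper72.ZC.Defs

/-! Block C5: a non-trivially convergent sequence from names of its elements. -/

namespace Pool.Agent.ZC

open Pool.Agent.Lib_helper27 Fml V

theorem conv_of_names_pr {P : Type} [Preorder P] {X T : Name P} {x : ℕ → Name P} {x' : Name P}
    {p : P} (h1 : ∀ n, fmem (x n) X p) (h2 : fmem x' X p)
    (h3 : ∀ u r, r ≤ p → fmem u T r → fmem x' u r → Loc r fun s => ∃ N : ℕ, ∀ n, N ≤ n →
      fmem (x n) u s)
    (h4 : ∀ n r, r ≤ p → ¬ feq (x n) (x (n + 1)) r) :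
    ¬ Fc p (noConv (oall P ℕ) X T) := by
  intro hno
  have hQ : Down (P := P) (fun (_ : ℕ) _ => True) := down_true
  have hf : Fc p (isFunc (mkFn ℕ (onm P) x fun _ _ => True) (oall P ℕ) X) := by
    refine fc_isFunc hQ ?_ ?_ ?_
    · intro i r hr _
      exact ⟨onm_mem_oall i r, fmem_mono hr (h1 i)⟩
    · intro y q _ hy
      refine (fmem_oall.1 hy).imp ?_
      rintro r _ ⟨i, hi⟩
      exact ⟨i, trivial, hi⟩
    · intro i j r _ _ _ h
      rw [onm_inj h]
      exact feq_refl _ _
  refine hno p le_rfl (forces_ex.2 (Loc.pure fun q hq =>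
    ⟨mkFn ℕ (onm P) x fun _ _ => True, Forces.mono nf_basic hq hf, ?_, ?_⟩))
  · intro r hr hev
    obtain ⟨s, hs, m, hm, hm'⟩ := (forces_bex.1 hev).exists
    obtain ⟨t, ht, v, hv⟩ := (forces_ex.1 hm').exists
    obtain ⟨w, hw, k, hk⟩ := ((fmem_oall.1 hm).mono ht).exists
    have hv' := Forces.mono nf_basic hw hv
    have key : ∀ n, k < n → feq v (x n) w := by
      intro n hn
      have e1 := (forces_ball nf_basic).1 hv' (onm P n) w le_rfl (onm_mem_oall n w)
      have e2 := (forces_imp nf_basic).1 e1 w le_rfl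
        (fmem_congr_left (feq_symm hk) (onm_mem hn w))
      refine feq_dense (((fc_app hQ).1 e2).imp ?_)
      rintro z _ ⟨i, _, hi, hi'⟩
      rw [onm_inj hi]
      exact hi'
    exact h4 (k + 1) w (hw.trans (ht.trans (hs.trans (hr.trans hq))))
      (feq_trans (feq_symm (key (k + 1) (Nat.lt_succ_self k)))
        (key (k + 1 + 1) (by omega)))
  · refine forces_bex.2 (Loc.pure fun r hr => ⟨x', fmem_mono (hr.trans hq) h2, ?_⟩)
    refine (forces_ball nf_basic).2 fun u s hs hu => ?_
    refine (forces_imp nf_basic).2 fun t ht hx' => ?_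
    refine forces_bex.2 ?_
    refine (h3 u t (ht.trans (hs.trans (hr.trans hq))) (fmem_mono ht hu) hx').imp ?_
    rintro w hw ⟨N, hN⟩
    refine ⟨onm P N, onm_mem_oall N w, ?_⟩
    refine (forces_ball nf_basic).2 fun n w1 hw1 _ => ?_
    refine (forces_imp nf_basic).2 fun w2 hw2 hmn => ?_
    intro v
    refine (forces_imp nf_basic).2 fun w3 hw3 happ => ?_
    refine fmem_dense (((fc_app hQ).1 happ).imp ?_)
    rintro w4 hw4 ⟨i, _, hi, hi'⟩
    have e1 : fmem (onm P N) (onm P i) w4 :=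
      fmem_congr_right hi (fmem_mono (hw4.trans hw3) hmn)
    have e2 : N < i := onm_mem_iff.1 e1
    exact fmem_congr_left (feq_symm hi')
      (fmem_mono (hw4.trans (hw3.trans (hw2.trans hw1))) (hN i e2.le))

end Pool.Agent.ZC
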