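import Pool.Agent.Lib_helper72.ZC.Aux1
import Pool.Agent.Lib_helper72.ZC.C5

/-!
# Block C6: no restriction of an injective sequence converges
-/

set_option linter.unusedSectionVars false

namespace Pool.Agent.ZC

open Pool.Agent.Lib_helper27 Fml MeasureTheory Cardinal V

section seq

variable {P : Type} [Preorder P]

theorem congr_next (A a b : Name P) :
    Congr1 fun t => and (mem t A) (and (mem a t) (mem b t)) :=
  congr_env (cv (and (mem 3 0) (and (mem 1 3) (mem 2 3))) 4) 4 [A, a, b]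

theorem congr_app (f a : Name P) : Congr1 fun v => app f a v :=
  congr_env (cv (app 0 1 2) 3) 3 [f, a]

/-- a natural number which contains `n` contains all `k < n` -/
theorem nat_lt_mem {a : Name P} {p : P} (ha : fmem a (oall P ℕ) p) {k n : ℕ}
    (hk : k < n) (h : fmem (onm P n) a p) : fmem (onm P k) a p := by
  refine fmem_dense ((fmem_oall.1 ha).imp ?_)
  rintro r hr ⟨l, hl⟩
  have h1 : fmem (onm P n) (onm P l) r := fmem_congr_right hl (fmem_mono hr h)
  exact fmem_congr_right (feq_symm hl) (onm_mem (hk.trans (onm_mem_iff.1 h1)) r)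

theorem no_convA_pr {X T f A : Name P} {p : P} (hf : Fc p (isInj f (oall P ℕ) X))
    (hA : Fc p (unb (oall P ℕ) A)) (hn : Fc p (noConv (oall P ℕ) X T)) :
    Fc p (neg (bex X fun x => convA (oall P ℕ) T f A x)) := by
  intro r₀ hr₀ hbex
  obtain ⟨r, hr, x', hx', hconv⟩ := (fc_bex_mk.1 hbex).exists
  have hrp : r ≤ p := hr.trans hr₀
  -- the names `a n`
  choose G hG using fun (n : ℕ) (b : Name P) => exists_mix _ (congr_next A (onm P n) b)
  have hex : ∀ (n : ℕ) (b : Name P), fmem b (oall P ℕ) r →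
      Fc r (ex fun t => and (mem t A) (and (mem (onm P n) t) (mem b t))) := by
    intro n b hb
    refine forces_ex.2 ?_
    refine (fmem_oall.1 hb).bind ?_
    rintro s hs ⟨k, hk⟩
    have hsp : s ≤ p := hs.trans hrp
    refine (fc_bex_mk.1 (fc_ball_mk.1 hA.2 (onm P (max n k)) s hsp (onm_mem_oall _ s))).bind ?_
    rintro t ht ⟨c, hc, hmc⟩
    have hcW : fmem c (oall P ℕ) t := fc_subset.1 hA.1 c t (ht.trans hsp) hc
    refine (fmem_oall.1 hcW).imp ?_
    rintro w hw ⟨l, hl⟩
    have h1 : max n k < l := onm_mem_iff.1 (fmem_congr_right hl (fmem_mono hw hmc))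
    refine ⟨c, fmem_mono hw hc, ?_, ?_⟩
    · exact fmem_congr_right (feq_symm hl) (onm_mem ((le_max_left n k).trans_lt h1) w)
    · exact fmem_congr_left (feq_symm (feq_mono (hw.trans ht) hk))
        (fmem_congr_right (feq_symm hl) (onm_mem ((le_max_right n k).trans_lt h1) w))
  let a : ℕ → Name P := fun n => Nat.rec (G 0 (onm P 0)) (fun n b => G (n + 1) b) n
  have ha0 : a 0 = G 0 (onm P 0) := rfl
  have has : ∀ n, a (n + 1) = G (n + 1) (a n) := fun n => rfl
  have haW : ∀ n, fmem (a n) A r → fmem (a n) (oall P ℕ) r := fun n h =>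
    fc_subset.1 hA.1 (a n) r hrp h
  have haA : ∀ n, fmem (a n) A r ∧ fmem (onm P n) (a n) r := by
    intro n
    induction n with
    | zero =>
      have h1 := hG 0 (onm P 0) r (hex 0 _ (onm_mem_oall 0 r))
      exact ⟨h1.1, h1.2.1⟩
    | succ n ih =>
      have h1 := hG (n + 1) (a n) r (hex (n + 1) _ (haW n ih.1))
      exact ⟨h1.1, h1.2.1⟩
  have hlt : ∀ n, fmem (a n) (a (n + 1)) r := by
    intro n
    have h1 := hG (n + 1) (a n) r (hex (n + 1) _ (haW n (haA n).1))
    exact h1.2.2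
  -- the names `v n`
  choose H hH using fun (b : Name P) => exists_mix _ (congr_app f b)
  let v : ℕ → Name P := fun n => H (a n)
  have hv : ∀ n, Fc r (app f (a n) (v n)) := by
    intro n
    refine hH (a n) r (forces_ex.2 ?_)
    refine (func_total (fc_mono hrp hf.1) (haW n (haA n).1)).imp ?_
    rintro s _ ⟨y, _, hy⟩
    exact ⟨y, hy⟩
  have hvX : ∀ n, fmem (v n) X r := fun n => (func_dom (fc_mono hrp hf.1) (hv n)).2
  refine conv_of_names_pr (X := X) (T := T) (x := v) (x' := x') (p := r) hvX hx' ?_ ?_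
    (fc_mono hrp hn)
  · intro u s hs hu hxu
    have h1 := fc_imp.1 (fc_ball_mk.1 hconv u s hs hu) s le_rfl hxu
    refine (fc_bex_mk.1 h1).bind ?_
    rintro t ht ⟨m, hm, h2⟩
    refine (fmem_oall.1 hm).imp ?_
    rintro w hw ⟨k, hk⟩
    have hwr : w ≤ r := hw.trans (ht.trans hs)
    refine ⟨k + 1, fun n hkn => ?_⟩
    have h3 : fmem (onm P k) (a n) w :=
      nat_lt_mem (fmem_mono hwr (haW n (haA n).1)) (Nat.lt_of_succ_le hkn)
        (fmem_mono hwr (haA n).2)
    have h4 : fmem m (a n) w := fmem_congr_left (feq_symm hk) h3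
    have h5 := fc_imp.1 (fc_ball_mk.1 h2 (a n) w hw (fmem_mono hwr (haA n).1)) w le_rfl h4
    exact fc_imp.1 (h5 (v n)) w le_rfl (fc_mono hwr (hv n))
  · intro n s hs heq
    have h1 : Fc s (app f (a (n + 1)) (v n)) :=
      app_congr' (feq_refl _ _) (feq_symm heq) (fc_mono hs (hv (n + 1)))
    have h2 : feq (a n) (a (n + 1)) s :=
      inj_single (fc_mono (hs.trans hrp) hf) (fc_mono hs (hv n)) h1
    have h3 : fmem (a n) (a n) s := fmem_congr_right (feq_symm h2) (fmem_mono hs (hlt n))
    obtain ⟨t, ht, l, hl⟩ := (fmem_oall.1 (fmem_mono hs (haW n (haA n).1))).exists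
    exact onm_irrefl l t (fmem_congr_left hl (fmem_congr_right hl (fmem_mono ht h3)))

end seq

end Pool.Agent.ZC
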