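import Pool.Agent.Lib_helper72.ZC.D1

/-!
# Block D2: the splitting lemma inside a model of ZFC
-/

namespace Pool.Agent.ZC

open Pool.Agent.Lib_helper27 Fml V

open Pool.Agent.Lib_helper27.ST

open Pool.Agent.Lib_helper27.ST (EE)

universe u

section st

variable {M : Type u} [SetStr M] [ZFC M]

/-- D2: the splitting lemma -/
theorem st_split_pr {W X T f A : M} (h : Holds (EE M) (splitPrem W X T f A)) :
    Holds (EE M) (ex fun A' => ex fun A'' => splitConc W X T f A A' A'') := by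
  unfold splitPrem isHaus unb convA at h
  simp only [holds_and, holds_isOmega, holds_isTop, holds_ex, holds_ball, holds_bex, mem_def,
    holds_mem, holds_imp, holds_neg, holds_isFunc, holds_isSubset, holds_app, holds_all,
    holds_eq] at h
  obtain ⟨rfl, hT, hH, hC, ⟨_, hf2, hf3⟩, ⟨hAW, hAu⟩, hnc⟩ := h
  have hc := D1_cpt hC
  -- values of f
  have happ : ∀ n v, opair n v ∈ f → fapp f n = v := fun n v hnv =>
    iota_eq hnv fun z hz => hf3 n z v ⟨hz, hnv⟩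
  have hval : ∀ n, n ∈ (omega : M) → fapp f n ∈ X ∧ opair n (fapp f n) ∈ f := by
    intro n hn
    obtain ⟨v, hv, hnv⟩ := hf2 n hn
    rw [happ n v hnv]
    exact ⟨hv, hnv⟩
  obtain ⟨e, he, he'⟩ : ∃ e, e ∈ T ∧ ∀ x, ¬ x ∈ e := by
    obtain ⟨w, hw, hw'⟩ := hT.union empty fun u hu => (not_mem_empty u hu).elim
    refine ⟨w, hw, fun x hx => ?_⟩
    obtain ⟨u, hu, _⟩ := (hw' x).1 hx
    exact not_mem_empty u hu
  -- (a) an accumulation point
  obtain ⟨p, hp, hacc⟩ : ∃ p, p ∈ X ∧ ∀ u, u ∈ T → p ∈ u → ∀ m, m ∈ (omega : M) →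
      ∃ n, n ∈ A ∧ m ∈ n ∧ fapp f n ∈ u := by
    by_contra hcon
    push Not at hcon
    have h1 := D1_cover hc (Φ := fun u => ∃ m, m ∈ (omega : M) ∧ ∀ n, n ∈ A → m ∈ n →
        ¬ fapp f n ∈ u) (by fun_prop)
      ⟨e, he, empty, empty_mem_omega, fun n _ _ h => he' _ h⟩
      (by
        rintro u v hu hv ⟨m, hm, hmu⟩ ⟨m', hm', hmv⟩
        obtain ⟨w, hw, hw'⟩ := D1_top_union hT hu hv
        obtain ⟨k, hk, hk1, hk2⟩ := nat_max (succ_mem_omega hm) (succ_mem_omega hm')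
        refine ⟨w, hw, ⟨k, hk, fun n hn hkn hfn => ?_⟩, fun x _ hx => (hw' x).2 hx⟩
        have hno : IsOrd n := isOrd_omega.mem (hAW n hn)
        rcases (hw' _).1 hfn with h5 | h5
        · exact hmu n hn (hno.trans hkn (hk1 m (mem_succ.2 (Or.inr rfl)))) h5
        · exact hmv n hn (hno.trans hkn (hk2 m' (mem_succ.2 (Or.inr rfl)))) h5)
      (by
        intro x hx
        obtain ⟨u, hu, hxu, m, hm, hmu⟩ := hcon x hx
        exact ⟨u, hu, ⟨m, hm, hmu⟩, hxu⟩)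
    obtain ⟨u, hu, ⟨m, hm, hmu⟩, hXu⟩ := h1
    obtain ⟨n, hn, hmn⟩ := hAu m hm
    exact hmu n hn hmn (hXu _ (hval n (hAW n hn)).1)
  -- (b) no convergence
  obtain ⟨w0, hw0, hpw0, hesc⟩ : ∃ u, u ∈ T ∧ p ∈ u ∧ ∀ m, m ∈ (omega : M) →
      ∃ n, n ∈ A ∧ m ∈ n ∧ ¬ fapp f n ∈ u := by
    by_contra hcon
    push Not at hcon
    refine hnc ⟨p, hp, fun u hu hpu => ?_⟩
    obtain ⟨m, hm, hmu⟩ := hcon u hu hpu
    refine ⟨m, hm, fun n hn hmn v hv => ?_⟩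
    rw [← happ n v hv]
    exact hmu n hn hmn
  -- (c) regularity
  obtain ⟨u, hu, ⟨v, hv, o, ho, hpv, hvo, hcov⟩, hXu⟩ := D1_cover hc
    (Φ := fun u => ∃ v, v ∈ T ∧ ∃ o, o ∈ T ∧ p ∈ v ∧ (∀ z, z ∈ v → ¬ z ∈ o) ∧
      ∀ x, x ∈ X → x ∈ u → x ∈ o ∨ x ∈ w0) (by fun_prop)
    ⟨e, he, X, hT.univ, e, he, hp, fun z _ => he' z, fun x _ hx => (he' x hx).elim⟩
    (by
      rintro u u' hu hu' ⟨v, hv, o, ho, h1, h2, h3⟩ ⟨v', hv', o', ho', h1', h2', h3'⟩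
      obtain ⟨w, hw, hw'⟩ := D1_top_union hT hu hu'
      obtain ⟨o2, ho2, ho2'⟩ := D1_top_union hT ho ho'
      obtain ⟨v2, hv2, hv2'⟩ := hT.inter v v' hv hv'
      refine ⟨w, hw, ⟨v2, hv2, o2, ho2, (hv2' p).2 ⟨h1, h1'⟩, fun z hz hzo => ?_,
        fun x hx hxw => ?_⟩, fun x _ hx => (hw' x).2 hx⟩
      · obtain ⟨h4, h5⟩ := (hv2' z).1 hz
        rcases (ho2' z).1 hzo with h6 | h6
        · exact h2 z h4 h6
        · exact h2' z h5 h6
      · rcases (hw' x).1 hxw with h6 | h6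
        · rcases h3 x hx h6 with h7 | h7
          · exact Or.inl ((ho2' x).2 (Or.inl h7))
          · exact Or.inr h7
        · rcases h3' x hx h6 with h7 | h7
          · exact Or.inl ((ho2' x).2 (Or.inr h7))
          · exact Or.inr h7)
    (by
      intro x hx
      by_cases hxp : x = p
      · subst hxp
        exact ⟨w0, hw0, ⟨X, hT.univ, e, he, hx, fun z _ => he' z, fun x _ hx => Or.inr hx⟩, hpw0⟩
      · obtain ⟨u, hu, v, hv, hxu, hpv, huv⟩ := hH x hx p hp hxp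
        exact ⟨u, hu, ⟨v, hv, u, hu, hpv, fun z hz hz' => huv ⟨z, hz', hz⟩,
          fun x _ hx => Or.inl hx⟩, hxu⟩)
  -- the two sets
  obtain ⟨A', hA'⟩ := sep_exists (D := fun n => fapp f n ∈ v) (by fun_prop) A
  obtain ⟨A'', hA''⟩ := sep_exists (D := fun n => ¬ fapp f n ∈ w0) (by fun_prop) A
  unfold splitConc unb disj clf
  simp only [holds_and, holds_ex, holds_ball, holds_bex, mem_def,
    holds_mem, holds_imp, holds_neg, holds_isSubset, holds_app]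
  refine ⟨A', A'', ⟨⟨fun n hn => hAW n ((hA' n).1 hn).1, fun m hm => ?_⟩,
    fun n hn => ((hA' n).1 hn).1⟩, ⟨⟨fun n hn => hAW n ((hA'' n).1 hn).1, fun m hm => ?_⟩,
    fun n hn => ((hA'' n).1 hn).1⟩, ?_⟩
  · obtain ⟨n, hn, hmn, hfn⟩ := hacc v hv hpv m hm
    exact ⟨n, (hA' n).2 ⟨hn, hfn⟩, hmn⟩
  · obtain ⟨n, hn, hmn, hfn⟩ := hesc m hm
    exact ⟨n, (hA'' n).2 ⟨hn, hfn⟩, hmn⟩
  · rintro x hx ⟨h1, h2⟩
    rcases hcov x hx (hXu x hx) with h3 | h3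
    · obtain ⟨n, hn, z, hz, hnz⟩ := h1 o ho h3
      have h4 := ((hA' n).1 hn).2
      rw [happ n z hnz] at h4
      exact hvo z h4 hz
    · obtain ⟨n, hn, z, hz, hnz⟩ := h2 w0 hw0 h3
      have h4 := ((hA'' n).1 hn).2
      rw [happ n z hnz] at h4
      exact h4 hz

end st

end Pool.Agent.ZC
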