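import Pool.Agent.Lib_helper72.ZC.Aux1
import Pool.Agent.Lib_helper72.ZC.C1
import Pool.Agent.Lib_helper72.ZC.D2
import Pool.Agent.Lib_helper72.ZC.C6

/-!
# Block C7: the Cantor scheme
-/

set_option linter.unusedSectionVars false

namespace Pool.Agent.ZC

open Pool.Agent.Lib_helper27 Fml MeasureTheory Cardinal V

open Pool.Agent.Lib_helper27.ST (EE)

section seq

variable {P : Type} [Preorder P]

theorem congr_split1 (W X T f A : Name P) :
    Congr1 fun A' => ex fun A'' => splitConc W X T f A A' A'' :=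
  congr_env (cv (ex fun A'' => splitConc 0 1 2 3 4 5 A'') 6) 6 [W, X, T, f, A]

theorem congr_split2 (W X T f A A' : Name P) :
    Congr1 fun A'' => splitConc W X T f A A' A'' :=
  congr_env (cv (splitConc 0 1 2 3 4 5 6) 7) 7 [W, X, T, f, A, A']

theorem fc_split {W X T f A : Name P} {p : P} (h : Fc p (splitPrem W X T f A)) :
    Fc p (ex fun A' => ex fun A'' => splitConc W X T f A A' A'') := by
  have h1 : Fc p (imp (splitPrem W X T f A)
      (ex fun A' => ex fun A'' => splitConc W X T f A A' A'')) :=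
    transfer_pr (cv (imp (splitPrem 0 1 2 3 4)
      (ex fun A' => ex fun A'' => splitConc 0 1 2 3 4 A' A'')) 5) 5 (fun M _ _ e => by
      change Holds (EE M) (imp (splitPrem (e 0) (e 1) (e 2) (e 3) (e 4))
        (ex fun A' => ex fun A'' => splitConc (e 0) (e 1) (e 2) (e 3) (e 4) A' A''))
      rw [holds_imp]
      exact st_split_pr) p (env [W, X, T, f] A)
  exact fc_imp.1 h1 p le_rfl h

theorem exists_halves (W X T f A : Name P) : ∃ A' A'' : Name P, ∀ p,
    Fc p (ex fun A' => ex fun A'' => splitConc W X T f A A' A'') →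
      Fc p (splitConc W X T f A A' A'') := by
  obtain ⟨A', hA'⟩ := exists_mix _ (congr_split1 W X T f A)
  obtain ⟨A'', hA''⟩ := exists_mix _ (congr_split2 W X T f A A')
  exact ⟨A', A'', fun p h => hA'' p (hA' p h)⟩

theorem fc_unb_omega (p : P) : Fc p (unb (oall P ℕ) (oall P ℕ)) := by
  refine ⟨isSubset_refl, fc_ball_mk.2 fun m q _ hm => ?_⟩
  refine fc_bex_mk.2 ((fmem_oall.1 hm).imp ?_)
  rintro r _ ⟨n, hn⟩
  exact ⟨onm P (n + 1), onm_mem_oall _ r, fmem_congr_left (feq_symm hn)
    (onm_mem (Nat.lt_succ_self n) r)⟩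

theorem exists_scheme_pr {X T f : Name P} {p : P}
    (hX : Fc p (isNonSeq (oall P ℕ) X T)) (hf : Fc p (isInj f (oall P ℕ) X)) :
    ∃ A : List Bool → Name P, (∀ s, Fc p (unb (oall P ℕ) (A s))) ∧
      (∀ s c, Fc p (isSubset (A (c :: s)) (A s))) ∧
      ∀ s, Fc p (disj X T f (A (false :: s)) (A (true :: s))) := by
  choose g h hgh using fun A : Name P => exists_halves (oall P ℕ) X T f A
  let A : List Bool → Name P := fun s => List.rec (oall P ℕ)
    (fun c _ B => bif c then h B else g B) s
  have hA0 : A [] = oall P ℕ := rfl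
  have hAf : ∀ s, A (false :: s) = g (A s) := fun s => rfl
  have hAt : ∀ s, A (true :: s) = h (A s) := fun s => rfl
  have key : ∀ s, Fc p (unb (oall P ℕ) (A s)) →
      Fc p (splitConc (oall P ℕ) X T f (A s) (g (A s)) (h (A s))) := by
    intro s hs
    refine hgh (A s) p (fc_split ?_)
    exact ⟨omega_isOmega p, hX.1, hX.2.1, hX.2.2.1, hf.1, hs, no_convA_pr hf hs hX.2.2.2.2⟩
  have hu : ∀ s, Fc p (unb (oall P ℕ) (A s)) := by
    intro s
    induction s with
    | nil => exact fc_unb_omega p
    | cons c s ih =>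
      cases c
      · exact (key s ih).1.1
      · exact (key s ih).2.1.1
  refine ⟨A, hu, ?_, ?_⟩
  · intro s c
    cases c
    · exact (key s (hu s)).1.2
    · exact (key s (hu s)).2.1.2
  · intro s
    exact (key s (hu s)).2.2

end seq

end Pool.Agent.ZC
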