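import Pool.Agent.Lib_helper72.ZC.Defs
import Pool.Agent.Lib_helper27.R.Top

/-!
# Block D1: directed compactness inside a model of ZFC
-/

namespace Pool.Agent.ZC

open Pool.Agent.Lib_helper27 Fml V

open Pool.Agent.Lib_helper27.ST

open Pool.Agent.Lib_helper27.ST (EE)

universe u

section st

variable {M : Type u} [SetStr M] [ZFC M]

/-- `(X, T)` is compact -/
def D1_Cpt (X T : M) : Prop :=
  ∀ c : M, ((∀ u, u ∈ c → u ∈ T) ∧ ∀ x, x ∈ X → ∃ u, u ∈ c ∧ x ∈ u) →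
    ∃ d : M, (∀ u, u ∈ d → u ∈ c) ∧ Fin d ∧ ∀ x, x ∈ X → ∃ u, u ∈ d ∧ x ∈ u

theorem D1_fin {d : M} (h : Holds (EE M) (isFin omega d)) : Fin d := by
  unfold isFin isBij at h
  simp only [holds_bex, holds_ex, holds_and, holds_ball, mem_def, holds_app, holds_isInj] at h
  obtain ⟨n, hn, g, hg, hs⟩ := h
  refine ⟨n, hn, Inj.of_surj (φ := fapp g) (by fun_prop) ?_ ?_⟩
  · intro y hy
    obtain ⟨x, hx, hxy⟩ := hs y hy
    exact ⟨x, hx, hg.fapp_eq hxy⟩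
  · intro x hx y hy he
    exact hg.fapp_inj hx hy he

theorem D1_cpt {X T : M} (h : Holds (EE M) (isCpt omega X T)) : D1_Cpt X T := by
  unfold isCpt at h
  simp only [holds_all, holds_imp, holds_and, holds_isSubset, holds_ball, holds_bex, mem_def,
    holds_ex, holds_mem] at h
  intro c hc
  obtain ⟨d, h1, h2, h3⟩ := h c hc
  exact ⟨d, h1, D1_fin h2, h3⟩

theorem D1_top_union {X T u v : M} (hT : TopM X T) (hu : u ∈ T) (hv : v ∈ T) :
    ∃ w, w ∈ T ∧ ∀ x, x ∈ w ↔ x ∈ u ∨ x ∈ v := by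
  obtain ⟨w, hw, hw'⟩ := hT.union (upair u v) (by
    intro z hz
    rcases mem_upair.1 hz with rfl | rfl
    · exact hu
    · exact hv)
  refine ⟨w, hw, fun x => ?_⟩
  rw [hw' x]
  constructor
  · rintro ⟨z, hz, hxz⟩
    rcases mem_upair.1 hz with rfl | rfl
    · exact Or.inl hxz
    · exact Or.inr hxz
  · rintro (h | h)
    · exact ⟨u, mem_upair.2 (Or.inl rfl), h⟩
    · exact ⟨v, mem_upair.2 (Or.inr rfl), h⟩

/-- A definable class of open sets, directed upwards, which covers the compact space `X` has a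
member which contains `X`. -/
theorem D1_cover {X T : M} (hc : D1_Cpt X T) {Φ : M → Prop} (hΦ : Dbl M Φ)
    (hne : ∃ u, u ∈ T ∧ Φ u)
    (hdir : ∀ u v, u ∈ T → v ∈ T → Φ u → Φ v →
      ∃ w, w ∈ T ∧ Φ w ∧ ∀ x, x ∈ X → (x ∈ u ∨ x ∈ v) → x ∈ w)
    (hcov : ∀ x, x ∈ X → ∃ u, u ∈ T ∧ Φ u ∧ x ∈ u) :
    ∃ u, u ∈ T ∧ Φ u ∧ ∀ x, x ∈ X → x ∈ u := by
  obtain ⟨c, hc'⟩ := sep_exists hΦ T
  obtain ⟨d, hd, hdf, hdc⟩ := hc c ⟨fun u hu => ((hc' u).1 hu).1, fun x hx => by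
    obtain ⟨u, hu, hu', hxu⟩ := hcov x hx
    exact ⟨u, (hc' u).2 ⟨hu, hu'⟩, hxu⟩⟩
  have key := fin_induction (Φ := fun d => (∀ u, u ∈ d → u ∈ T ∧ Φ u) →
    ∃ w, w ∈ T ∧ Φ w ∧ ∀ u, u ∈ d → ∀ x, x ∈ X → x ∈ u → x ∈ w) (by fun_prop) (by
      intro _
      obtain ⟨u, hu, hu'⟩ := hne
      exact ⟨u, hu, hu', fun z hz => (not_mem_empty z hz).elim⟩) (by
      intro e a _ _ ih h
      obtain ⟨w, hw, hw', hw''⟩ := ih fun u hu => h u (mem_union.2 (Or.inl hu))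
      obtain ⟨ha, ha'⟩ := h a (mem_union.2 (Or.inr (mem_upair.2 (Or.inl rfl))))
      obtain ⟨w2, hw2, hw2', hw2''⟩ := hdir w a hw ha hw' ha'
      refine ⟨w2, hw2, hw2', fun u hu x hx hxu => ?_⟩
      rcases mem_union.1 hu with hu | hu
      · exact hw2'' x hx (Or.inl (hw'' u hu x hx hxu))
      · have : u = a := by simpa using hu
        exact hw2'' x hx (Or.inr (this ▸ hxu))) hdf
  obtain ⟨w, hw, hw', hw''⟩ := key fun u hu => (hc' u).1 (hd u hu)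
  refine ⟨w, hw, hw', fun x hx => ?_⟩
  obtain ⟨u, hu, hxu⟩ := hdc x hx
  exact hw'' u hu x hx hxu

/-- D1: directed compactness -/
theorem st_dir_pr {W X T E : M} (h : Holds (EE M) (dirPrem W X T E)) :
    Holds (EE M) (dirConc X E) := by
  unfold dirPrem at h
  simp only [holds_and, holds_isOmega, holds_isTop, holds_ex, holds_ball, holds_bex, mem_def,
    holds_mem, holds_imp, holds_neg] at h
  obtain ⟨rfl, hT, hC, ⟨C0, hC0⟩, hne, hdir, hcl⟩ := h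
  have hc := D1_cpt hC
  unfold dirConc
  simp only [holds_bex, holds_ball, holds_mem, mem_def]
  by_contra hcon
  push Not at hcon
  have h1 := D1_cover hc (Φ := fun u => ∃ C, C ∈ E ∧ ∀ z, z ∈ X → z ∈ u → ¬ z ∈ C) (by fun_prop)
    (by
      obtain ⟨x, hx, _⟩ := hne C0 hC0
      obtain ⟨C, hC, hxC⟩ := hcon x hx
      obtain ⟨u, hu, hxu, hu'⟩ := hcl C hC x hx hxC
      exact ⟨u, hu, C, hC, fun z _ hz => hu' z hz⟩)
    (by
      rintro u v hu hv ⟨C, hC, hCu⟩ ⟨D, hD, hDv⟩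
      obtain ⟨w, hw, hw'⟩ := D1_top_union hT hu hv
      obtain ⟨G, hG, hG'⟩ := hdir C hC D hD
      refine ⟨w, hw, ⟨G, hG, fun z hz hzw hzG => ?_⟩, fun x _ hx => (hw' x).2 hx⟩
      obtain ⟨h3, h4⟩ := hG' z hz hzG
      rcases (hw' z).1 hzw with h5 | h5
      · exact hCu z hz h5 h3
      · exact hDv z hz h5 h4)
    (by
      intro x hx
      obtain ⟨C, hC, hxC⟩ := hcon x hx
      obtain ⟨u, hu, hxu, hu'⟩ := hcl C hC x hx hxC
      exact ⟨u, hu, ⟨C, hC, fun z _ hz => hu' z hz⟩, hxu⟩)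
  obtain ⟨u, hu, ⟨C, hC, hCu⟩, hXu⟩ := h1
  obtain ⟨x, hx, hxC⟩ := hne C hC
  exact hCu x hx (hXu x hx) hxC

end st

end Pool.Agent.ZC
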