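import Pool.Agent.Lib_helper72.ZC.BDefs

/-!
# Block Z4: the topology of `βω` inside a model of ZFC
-/

namespace Pool.Agent.ZC

open Pool.Agent.Lib_helper27 Fml ST

universe u

variable {M : Type u} [SetStr M] [ZFC M]

theorem Z4_hat_open (A : M) : hat A ∈ (bT : M) := by
  rw [mem_bT]
  refine ⟨fun u hu => mem_bX.2 (mem_hat.1 hu).1, fun u hu => ⟨A, (mem_hat.1 hu).2, fun z hz => hz⟩⟩

theorem Z4_not_both {u A : M} (hu : UF u) (h1 : A ∈ u) (h2 : dif omega A ∈ u) : False := by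
  have h3 := hu.1.2.2.2.1 A h1 _ h2
  have h4 : cap A (dif omega A) = (empty : M) := by
    rw [eq_empty_iff]
    intro z hz
    rw [mem_cap, mem_dif] at hz
    exact hz.2.2 hz.1
  rw [h4] at h3
  exact hu.1.2.2.1 h3

theorem Z4_ne {x y : M} (hx : UF x) (hy : UF y) (h : x ≠ y) : ∃ A, A ∈ x ∧ dif omega A ∈ y := by
  by_contra hcon
  push Not at hcon
  apply h
  refine ext fun A => ⟨fun hA => ?_, fun hA => ?_⟩
  · rcases hy.2 A (hx.1.1 A hA) with h1 | h1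
    · exact h1
    · exact (hcon A hA h1).elim
  · rcases hx.2 A (hy.1.1 A hA) with h1 | h1
    · exact h1
    · exfalso
      refine hcon _ h1 ?_
      have h2 : dif omega (dif omega A) = A := ext fun z => by
        rw [mem_dif, mem_dif]
        constructor
        · rintro ⟨h3, h4⟩
          by_contra h5
          exact h4 ⟨h3, h5⟩
        · intro h3
          exact ⟨hy.1.1 A hA z h3, fun h4 => h4.2 h3⟩
      rw [h2]
      exact hA

/-- Z4: topology, Hausdorff, base -/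
theorem bT_top_pr : TopM (bX : M) bT where
  sub u hu x hx := (mem_bT.1 hu).1 x hx
  univ := by
    rw [mem_bT]
    exact ⟨fun z hz => hz, fun u hu => ⟨omega, (mem_bX.1 hu).1.2.1,
      fun z hz => mem_bX.2 (mem_hat.1 hz).1⟩⟩
  inter u v hu hv := by
    rw [mem_bT] at hu hv
    refine ⟨cap u v, ?_, fun x => mem_cap⟩
    rw [mem_bT]
    refine ⟨fun z hz => hu.1 z (mem_cap.1 hz).1, fun x hx => ?_⟩
    obtain ⟨A, hA, hA'⟩ := hu.2 x (mem_cap.1 hx).1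
    obtain ⟨B, hB, hB'⟩ := hv.2 x (mem_cap.1 hx).2
    have hxU : UF x := mem_bX.1 (hu.1 x (mem_cap.1 hx).1)
    refine ⟨cap A B, hxU.1.2.2.2.1 A hA B hB, fun z hz => ?_⟩
    obtain ⟨hz1, hz2⟩ := mem_hat.1 hz
    rw [mem_cap]
    refine ⟨hA' z (mem_hat.2 ⟨hz1, ?_⟩), hB' z (mem_hat.2 ⟨hz1, ?_⟩)⟩
    · exact hz1.1.2.2.2.2 _ hz2 A (fun w hw => (mem_cap.1 hw).1) (hxU.1.1 A hA)
    · exact hz1.1.2.2.2.2 _ hz2 B (fun w hw => (mem_cap.1 hw).2) (hxU.1.1 B hB)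
  union A hA := by
    refine ⟨sUnion A, ?_, fun x => mem_sUnion⟩
    rw [mem_bT]
    refine ⟨fun z hz => ?_, fun x hx => ?_⟩
    · obtain ⟨u, hu, hzu⟩ := mem_sUnion.1 hz
      exact (mem_bT.1 (hA u hu)).1 z hzu
    · obtain ⟨u, hu, hxu⟩ := mem_sUnion.1 hx
      obtain ⟨B, hB, hB'⟩ := (mem_bT.1 (hA u hu)).2 x hxu
      exact ⟨B, hB, fun z hz => mem_sUnion.2 ⟨u, hu, hB' z hz⟩⟩

theorem bT_haus_pr : Holds (EE M) (isHaus (bX : M) bT) := by
  unfold isHaus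
  simp only [holds_ball, holds_imp, holds_neg, holds_eq, holds_bex, holds_and, holds_mem, holds_ex,
    mem_def]
  intro x hx y hy hxy
  obtain ⟨A, hA, hA'⟩ := Z4_ne (mem_bX.1 hx) (mem_bX.1 hy) hxy
  refine ⟨hat A, Z4_hat_open A, hat (dif omega A), Z4_hat_open _,
    mem_hat.2 ⟨mem_bX.1 hx, hA⟩, mem_hat.2 ⟨mem_bX.1 hy, hA'⟩, ?_⟩
  rintro ⟨z, hz1, hz2⟩
  exact Z4_not_both (mem_hat.1 hz1).1 (mem_hat.1 hz1).2 (mem_hat.1 hz2).2

theorem bB_base_pr : Holds (EE M) (isBase (bB : M) bT) := by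
  unfold isBase
  simp only [holds_and, holds_isSubset, holds_ball, holds_bex, holds_mem, mem_def]
  refine ⟨?_, ?_⟩
  · intro v hv
    obtain ⟨A, _, rfl⟩ := mem_bB.1 hv
    exact Z4_hat_open A
  · intro O hO x hx
    obtain ⟨h1, h2⟩ := mem_bT.1 hO
    obtain ⟨A, hA, hA'⟩ := h2 x hx
    have hxU : UF x := mem_bX.1 (h1 x hx)
    exact ⟨hat A, mem_bB.2 ⟨A, hxU.1.1 A hA, rfl⟩, mem_hat.2 ⟨hxU, hA⟩, hA'⟩

end Pool.Agent.ZC
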