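import Pool.Agent.Lib_helper72.ZC.BDefs

/-!
# ZC blocks Z1 (Zorn's lemma for inclusion inside a model of ZFC) and Z3 (principal ultrafilters)
-/

set_option linter.unusedSectionVars false

namespace Pool.Agent.ZC

open Pool.Agent.Lib_helper27 Fml ST

universe u

variable {M : Type u} [SetStr M] [ZFC M]

theorem z1_sub_refl (x : M) : Sub x x := fun _ h => h

theorem z1_sub_trans {x y z : M} (h : Sub x y) (h' : Sub y z) : Sub x z := fun w hw => h' w (h w hw)

theorem z1_sub_antisymm {x y : M} (h : Sub x y) (h' : Sub y x) : x = y :=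
  ext fun z => ⟨h z, h' z⟩

/-- Z1: Zorn's lemma for inclusion. -/
theorem st_zorn_pr {D x₀ : M} (hx₀ : x₀ ∈ D)
    (hch : ∀ c : M, (∃ x, x ∈ c) → (∀ x, x ∈ c → x ∈ D) →
      (∀ x, x ∈ c → ∀ y, y ∈ c → Sub x y ∨ Sub y x) → sUnion c ∈ D) :
    ∃ m, m ∈ D ∧ Sub x₀ m ∧ ∀ x, x ∈ D → Sub m x → x = m := by
  by_contra hcon
  push Not at hcon
  -- the set of the elements of `D` above `x₀`
  have hsm : Small (fun x : M => x ∈ D ∧ Sub x₀ x) := small_sep (by fun_prop) D
  obtain ⟨e, he, he'⟩ := choice_fun (M := M) (R := fun x y : M => Sub x y ∧ x ≠ y)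
    (a := comp (fun x : M => x ∈ D ∧ Sub x₀ x)) (b := D)
    (by
      show Dbl M (fun z : M × M => Sub z.1 z.2 ∧ ¬ z.1 = z.2)
      fun_prop)
    (by
      intro x hx
      rw [mem_comp hsm] at hx
      obtain ⟨y, hy, hxy, hne⟩ := hcon x hx.1 hx.2
      exact ⟨y, hy, hxy, fun h => hne h.symm⟩)
  have he2 : ∀ x, x ∈ D → Sub x₀ x → e x ∈ D ∧ Sub x (e x) ∧ x ≠ e x := by
    intro x hx hx'
    exact he' x ((mem_comp hsm).2 ⟨hx, hx'⟩)
  -- the recursion
  let H : M → M → M := fun n g => e (union x₀ (sUnion (image (fun m => fapp g m) n)))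
  have hH : Dbl M (fun z : M × M => H z.1 z.2) := by
    show Dbl M (fun z : M × M => e (union x₀ (sUnion (image (fun m => fapp z.2 m) z.1))))
    fun_prop
  have hD := recData_ord hH
  let F := recF (fun y x : M => IsOrd x ∧ y ∈ x) H
  have hF : Dbl M F := hD.dbl_recF
  have hpreds : ∀ n : M, IsOrd n → preds (fun y x : M => IsOrd x ∧ y ∈ x) n = n := fun n hn =>
    ext fun z => by rw [hD.mem_preds]; simp [hn]
  have hspec : ∀ n : M, IsOrd n → F n = e (union x₀ (sUnion (image F n))) := by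
    intro n hn
    have h1 : F n = H n (graph F (preds (fun y x : M => IsOrd x ∧ y ∈ x) n)) := hD.recF_spec n
    rw [hpreds n hn] at h1
    rw [h1]
    show e (union x₀ (sUnion (image (fun m => fapp (graph F n) m) n))) = _
    congr 3
    refine ext fun z => ?_
    rw [mem_image (by fun_prop), mem_image hF]
    constructor
    · rintro ⟨x, hx, rfl⟩
      exact ⟨x, hx, by rw [fapp_graph hF hx]⟩
    · rintro ⟨x, hx, rfl⟩
      exact ⟨x, hx, by rw [fapp_graph hF hx]⟩
  -- the induction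
  have key : ∀ ξ : M, IsOrd ξ → F ξ ∈ D ∧ Sub x₀ (F ξ) ∧
      ∀ η, η ∈ ξ → Sub (F η) (F ξ) ∧ ¬ F η = F ξ := by
    intro ξ hξ
    refine ord_induction (Φ := fun ξ => F ξ ∈ D ∧ Sub x₀ (F ξ) ∧
      ∀ η, η ∈ ξ → Sub (F η) (F ξ) ∧ ¬ F η = F ξ) (by fun_prop) ?_ hξ
    intro ξ hξ ih
    set U : M := union x₀ (sUnion (image F ξ)) with hU
    have hFξ : F ξ = e U := hspec ξ hξ
    have hUD : U ∈ D := by
      have h1 := hch (union (upair x₀ x₀) (image F ξ)) ⟨x₀, by simp⟩ (by
        intro x hx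
        rcases mem_union.1 hx with hx | hx
        · have : x = x₀ := by simpa using hx
          rw [this]; exact hx₀
        · obtain ⟨η, hη, rfl⟩ := (mem_image hF).1 hx
          exact (ih η hη).1) (by
        intro x hx y hy
        rcases mem_union.1 hx with hx | hx
        · have hx1 : x = x₀ := by simpa using hx
          rcases mem_union.1 hy with hy | hy
          · have hy1 : y = x₀ := by simpa using hy
            left; rw [hx1, hy1]; exact z1_sub_refl _
          · obtain ⟨η, hη, rfl⟩ := (mem_image hF).1 hy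
            left; rw [hx1]; exact (ih η hη).2.1
        · obtain ⟨η, hη, rfl⟩ := (mem_image hF).1 hx
          rcases mem_union.1 hy with hy | hy
          · have hy1 : y = x₀ := by simpa using hy
            right; rw [hy1]; exact (ih η hη).2.1
          · obtain ⟨η', hη', rfl⟩ := (mem_image hF).1 hy
            rcases (hξ.mem hη).tri' (hξ.mem hη') with h | h | h
            · left; exact ((ih η' hη').2.2 η h).1
            · left; rw [h]; exact z1_sub_refl _
            · right; exact ((ih η hη).2.2 η' h).1)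
      have h2 : sUnion (union (upair x₀ x₀) (image F ξ)) = U := by
        refine ext fun z => ?_
        rw [mem_sUnion, hU, mem_union, mem_sUnion]
        constructor
        · rintro ⟨y, hy, hz⟩
          rcases mem_union.1 hy with hy | hy
          · have : y = x₀ := by simpa using hy
            left; rw [← this]; exact hz
          · right; exact ⟨y, hy, hz⟩
        · rintro (hz | ⟨y, hy, hz⟩)
          · exact ⟨x₀, by simp, hz⟩
          · exact ⟨y, mem_union.2 (Or.inr hy), hz⟩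
      rw [← h2]; exact h1
    have hUx : Sub x₀ U := fun z hz => by rw [hU, mem_union]; exact Or.inl hz
    obtain ⟨h1, h2, h3⟩ := he2 U hUD hUx
    refine ⟨by rw [hFξ]; exact h1, by rw [hFξ]; exact z1_sub_trans hUx h2, fun η hη => ?_⟩
    have h4 : Sub (F η) U := by
      intro z hz
      rw [hU, mem_union, mem_sUnion]
      exact Or.inr ⟨F η, (mem_image hF).2 ⟨η, hη, rfl⟩, hz⟩
    refine ⟨by rw [hFξ]; exact z1_sub_trans h4 h2, fun h5 => h3 ?_⟩
    apply z1_sub_antisymm h2
    rw [← hFξ, ← h5]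
    exact h4
  -- all ordinals are in one set
  have hinj : ∀ ξ η : M, IsOrd ξ → IsOrd η → F ξ = F η → ξ = η := by
    intro ξ η hξ hη h
    rcases hξ.tri' hη with h1 | h1 | h1
    · exact absurd h ((key η hη).2.2 ξ h1).2
    · exact h1
    · exact absurd h.symm ((key ξ hξ).2.2 η h1).2
  have hι : Dbl M (fun y : M => iota (fun ξ : M => IsOrd ξ ∧ F ξ = y)) :=
    dbl_iota (by fun_prop)
  obtain ⟨θ, hθ, hθ'⟩ := exists_ord_not_mem
    (image (fun y : M => iota (fun ξ : M => IsOrd ξ ∧ F ξ = y)) D)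
  apply hθ'
  rw [mem_image hι]
  refine ⟨F θ, (key θ hθ).1, ?_⟩
  exact iota_eq (D := fun ξ : M => IsOrd ξ ∧ F ξ = F θ) ⟨hθ, rfl⟩
    fun z hz => hinj z θ hz.1 hθ hz.2

/-! ### Z3 -/

/-- the principal ultrafilter of `n` -/
noncomputable def z3_pr (n : M) : M := comp (fun A : M => Sub A omega ∧ n ∈ A)

theorem z3_small (n : M) : Small (fun A : M => Sub A omega ∧ n ∈ A) := by
  refine small_of_subset (by fun_prop) (power omega) ?_
  intro A hA
  rw [mem_power]
  exact hA.1

theorem z3_mem {n A : M} : A ∈ z3_pr n ↔ Sub A omega ∧ n ∈ A := mem_comp (z3_small n)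

theorem z3_dbl : Dbl M (fun n : M => z3_pr n) :=
  dbl_comp (fun n => z3_small n) (by fun_prop)

theorem z3_UF {n : M} (hn : n ∈ (omega : M)) : UF (z3_pr n) := by
  refine ⟨⟨?_, ?_, ?_, ?_, ?_⟩, ?_⟩
  · intro A hA
    exact (z3_mem.1 hA).1
  · exact z3_mem.2 ⟨fun _ h => h, hn⟩
  · intro h
    exact not_mem_empty n (z3_mem.1 h).2
  · intro A hA B hB
    rw [z3_mem] at hA hB ⊢
    exact ⟨fun z hz => hA.1 z (mem_cap.1 hz).1, mem_cap.2 ⟨hA.2, hB.2⟩⟩
  · intro A hA B hAB hB
    rw [z3_mem] at hA ⊢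
    exact ⟨hB, hAB n hA.2⟩
  · intro A hA
    by_cases h : n ∈ A
    · exact Or.inl (z3_mem.2 ⟨hA, h⟩)
    · exact Or.inr (z3_mem.2 ⟨fun z hz => (mem_dif.1 hz).1, mem_dif.2 ⟨hn, h⟩⟩)

/-- Z3: the principal ultrafilters -/
theorem inj_omega_bX_pr : Inj (omega : M) bX := by
  refine Inj.of_fun (φ := fun n => z3_pr n) z3_dbl (fun n hn => mem_bX.2 (z3_UF hn)) ?_
  intro n hn m hm h
  have h1 : upair n n ∈ z3_pr n := z3_mem.2 ⟨fun z hz => by
    have : z = n := by simpa using hz
    rw [this]; exact hn, by simp⟩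
  rw [h] at h1
  have h2 := (z3_mem.1 h1).2
  have h3 : m = n := by simpa using h2
  exact h3.symm

end Pool.Agent.ZC
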