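import Pool.Agent.Lib_helper72.ZC.BDefs
import Pool.Agent.Lib_helper72.ZC.Z1

/-!
# Block Z2: the ultrafilter theorem inside a model of ZFC
-/

namespace Pool.Agent.ZC

open Pool.Agent.Lib_helper27 Fml ST

universe u

variable {M : Type u} [SetStr M] [ZFC M]

theorem Z2_dd {A : M} (hA : Sub A omega) : dif omega (dif omega A) = A := ext fun z => by
  rw [mem_dif, mem_dif]
  constructor
  · rintro ⟨h3, h4⟩
    by_contra h5
    exact h4 ⟨h3, h5⟩
  · intro h3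
    exact ⟨hA z h3, fun h4 => h4.2 h3⟩

/-- Z2: the ultrafilter theorem -/
theorem exists_UF_pr {J : M} (h0 : empty ∈ J) (h1 : ∀ A, A ∈ J → ∀ B, Sub B A → B ∈ J)
    (h2 : ∀ A, A ∈ J → ∀ B, B ∈ J → union A B ∈ J) (h3 : ¬ omega ∈ J)
    (h4 : ∀ A, A ∈ J → Sub A omega) : ∃ u : M, UF u ∧ ∀ A, A ∈ J → ¬ A ∈ u := by
  obtain ⟨D, hD⟩ : Small (fun u : M => IsFilt u ∧ ∀ A, A ∈ J → dif omega A ∈ u) := by
    refine small_of_subset (by fun_prop) (power (power omega)) ?_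
    intro u hu
    rw [mem_power]
    intro A hA
    rw [mem_power]
    exact hu.1.1 A hA
  obtain ⟨x₀, hx₀⟩ : Small (fun B : M => Sub B omega ∧ dif omega B ∈ J) := by
    refine small_of_subset (by fun_prop) (power omega) ?_
    intro B hB
    rw [mem_power]
    exact hB.1
  have hx₀D : x₀ ∈ D := by
    rw [hD]
    refine ⟨⟨fun A hA => ((hx₀ A).1 hA).1, ?_, ?_, ?_, ?_⟩, ?_⟩
    · rw [hx₀]
      refine ⟨fun z hz => hz, ?_⟩
      have : dif omega omega = (empty : M) := eq_empty_iff.2 fun z hz => by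
        rw [mem_dif] at hz
        exact hz.2 hz.1
      rw [this]
      exact h0
    · rw [hx₀]
      rintro ⟨_, h⟩
      have : dif omega empty = (omega : M) := ext fun z => by
        rw [mem_dif]
        exact ⟨fun h => h.1, fun h => ⟨h, not_mem_empty z⟩⟩
      rw [this] at h
      exact h3 h
    · intro A hA B hB
      rw [hx₀] at hA hB ⊢
      refine ⟨fun z hz => hA.1 z (mem_cap.1 hz).1, h1 _ (h2 _ hA.2 _ hB.2) _ fun z hz => ?_⟩
      rw [mem_dif, mem_cap] at hz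
      rw [mem_union, mem_dif, mem_dif]
      by_cases hzA : z ∈ A
      · exact Or.inr ⟨hz.1, fun hzB => hz.2 ⟨hzA, hzB⟩⟩
      · exact Or.inl ⟨hz.1, hzA⟩
    · intro A hA B hAB hB
      rw [hx₀] at hA ⊢
      refine ⟨hB, h1 _ hA.2 _ fun z hz => ?_⟩
      rw [mem_dif] at hz ⊢
      exact ⟨hz.1, fun h => hz.2 (hAB z h)⟩
    · intro A hA
      rw [hx₀]
      refine ⟨fun z hz => (mem_dif.1 hz).1, ?_⟩
      rw [Z2_dd (h4 A hA)]
      exact hA
  obtain ⟨m, hm, _, hmax⟩ := st_zorn_pr hx₀D (by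
    rintro c ⟨x, hx⟩ hcD hch
    rw [hD]
    have hcF : ∀ x, x ∈ c → IsFilt x := fun x hx => ((hD x).1 (hcD x hx)).1
    refine ⟨⟨?_, mem_sUnion.2 ⟨x, hx, (hcF x hx).2.1⟩, ?_, ?_, ?_⟩, ?_⟩
    · intro A hA
      obtain ⟨y, hy, hAy⟩ := mem_sUnion.1 hA
      exact (hcF y hy).1 A hAy
    · intro hA
      obtain ⟨y, hy, hAy⟩ := mem_sUnion.1 hA
      exact (hcF y hy).2.2.1 hAy
    · intro A hA B hB
      obtain ⟨y, hy, hAy⟩ := mem_sUnion.1 hA
      obtain ⟨z, hz, hBz⟩ := mem_sUnion.1 hB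
      rcases hch y hy z hz with h | h
      · exact mem_sUnion.2 ⟨z, hz, (hcF z hz).2.2.2.1 A (h A hAy) B hBz⟩
      · exact mem_sUnion.2 ⟨y, hy, (hcF y hy).2.2.2.1 A hAy B (h B hBz)⟩
    · intro A hA B hAB hB
      obtain ⟨y, hy, hAy⟩ := mem_sUnion.1 hA
      exact mem_sUnion.2 ⟨y, hy, (hcF y hy).2.2.2.2 A hAy B hAB hB⟩
    · intro A hA
      exact mem_sUnion.2 ⟨x, hx, ((hD x).1 (hcD x hx)).2 A hA⟩)
  obtain ⟨hmF, hmJ⟩ := (hD m).1 hm
  refine ⟨m, ⟨hmF, ?_⟩, ?_⟩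
  · intro A hA
    by_contra hcon
    push Not at hcon
    obtain ⟨hcon1, hcon2⟩ := hcon
    obtain ⟨m', hm'⟩ : Small (fun B : M => Sub B omega ∧
        ∃ C, C ∈ m ∧ Sub (cap C (dif omega A)) B) := by
      refine small_of_subset (by fun_prop) (power omega) ?_
      intro B hB
      rw [mem_power]
      exact hB.1
    have hsub : Sub m m' := by
      intro B hB
      rw [hm']
      exact ⟨hmF.1 B hB, B, hB, fun z hz => (mem_cap.1 hz).1⟩
    have hm'D : m' ∈ D := by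
      rw [hD]
      refine ⟨⟨fun B hB => ((hm' B).1 hB).1, hsub _ hmF.2.1, ?_, ?_, ?_⟩,
        fun B hB => hsub _ (hmJ B hB)⟩
      · intro he
        obtain ⟨_, C, hC, hCA⟩ := (hm' _).1 he
        refine hcon1 (hmF.2.2.2.2 C hC A (fun z hz => ?_) hA)
        by_contra hzA
        exact not_mem_empty z (hCA z (mem_cap.2 ⟨hz, mem_dif.2 ⟨hmF.1 C hC z hz, hzA⟩⟩))
      · intro B hB B' hB'
        obtain ⟨h5, C, hC, hCB⟩ := (hm' B).1 hB
        obtain ⟨h5', C', hC', hCB'⟩ := (hm' B').1 hB'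
        rw [hm']
        refine ⟨fun z hz => h5 z (mem_cap.1 hz).1, cap C C', hmF.2.2.2.1 C hC C' hC',
          fun z hz => ?_⟩
        obtain ⟨h6, h7⟩ := mem_cap.1 hz
        obtain ⟨h8, h9⟩ := mem_cap.1 h6
        exact mem_cap.2 ⟨hCB z (mem_cap.2 ⟨h8, h7⟩), hCB' z (mem_cap.2 ⟨h9, h7⟩)⟩
      · intro B hB B' hBB' hB'
        obtain ⟨h5, C, hC, hCB⟩ := (hm' B).1 hB
        rw [hm']
        exact ⟨hB', C, hC, fun z hz => hBB' z (hCB z hz)⟩
    have heq := hmax m' hm'D hsub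
    refine hcon2 ?_
    rw [← heq, hm']
    exact ⟨fun z hz => (mem_dif.1 hz).1, omega, hmF.2.1, fun z hz => (mem_cap.1 hz).2⟩
  · intro A hA hAm
    have h5 := hmF.2.2.2.1 A hAm _ (hmJ A hA)
    have h6 : cap A (dif omega A) = (empty : M) := by
      rw [eq_empty_iff]
      intro z hz
      rw [mem_cap, mem_dif] at hz
      exact hz.2.2 hz.1
    rw [h6] at h5
    exact hmF.2.2.1 h5

end Pool.Agent.ZC
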