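import Pool.Agent.Lib_helper72.ZC.BDefs
import Pool.Agent.Lib_helper72.ZC.Z2

/-!
# Block Z5: compactness of `βω` inside a model of ZFC
-/

namespace Pool.Agent.ZC

open Pool.Agent.Lib_helper27 Fml ST

universe u

variable {M : Type u} [SetStr M] [ZFC M]

/-- a finite set is in bijection with a natural number -/
theorem Z5_fin_bij {d : M} (h : Fin d) : ∃ n, n ∈ (omega : M) ∧ ∃ g, IsInjSet g n d ∧
    ∀ y, y ∈ d → ∃ x, x ∈ n ∧ opair x y ∈ g := by
  refine fin_induction (Φ := fun d => ∃ n, n ∈ (omega : M) ∧ ∃ g, IsInjSet g n d ∧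
    ∀ y, y ∈ d → ∃ x, x ∈ n ∧ opair x y ∈ g) (by fun_prop) ?_ ?_ h
  · refine ⟨empty, empty_mem_omega, graph (fun x => x) empty,
      isInjSet_graph (by fun_prop) (fun x hx => hx) (fun _ _ _ _ h => h),
      fun y hy => (not_mem_empty y hy).elim⟩
  · rintro x a _ hax ⟨n, hn, g, hg, hs⟩
    have hφ : Dbl M (fun z : M => open Classical in if z ∈ n then fapp g z else a) :=
      Dbl_ite (by fun_prop) (by fun_prop) (by fun_prop)
    refine ⟨succ n, succ_mem_omega hn,
      graph (fun z : M => open Classical in if z ∈ n then fapp g z else a) (succ n),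
      isInjSet_graph hφ ?_ ?_, ?_⟩
    · intro z _
      by_cases hzn : z ∈ n
      · rw [if_pos hzn]
        exact mem_union.2 (Or.inl (hg.fapp_mem hzn))
      · rw [if_neg hzn]
        exact mem_union.2 (Or.inr (mem_upair.2 (Or.inl rfl)))
    · intro z hz z' hz' he
      by_cases hzn : z ∈ n
      · by_cases hzn' : z' ∈ n
        · rw [if_pos hzn, if_pos hzn'] at he
          exact hg.fapp_inj hzn hzn' he
        · rw [if_pos hzn, if_neg hzn'] at he
          exact (hax (he ▸ hg.fapp_mem hzn)).elim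
      · by_cases hzn' : z' ∈ n
        · rw [if_neg hzn, if_pos hzn'] at he
          exact (hax (he ▸ hg.fapp_mem hzn')).elim
        · rw [(mem_succ.1 hz).resolve_left hzn, (mem_succ.1 hz').resolve_left hzn']
    · intro y hy
      rcases mem_union.1 hy with hy | hy
      · obtain ⟨z, hz, hzy⟩ := hs y hy
        refine ⟨z, mem_succ.2 (Or.inl hz), ?_⟩
        rw [opair_mem_graph hφ]
        refine ⟨mem_succ.2 (Or.inl hz), ?_⟩
        rw [if_pos hz]
        exact hg.fapp_eq hzy
      · have hya : y = a := by simpa using hy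
        refine ⟨n, mem_succ.2 (Or.inr rfl), ?_⟩
        rw [opair_mem_graph hφ]
        refine ⟨mem_succ.2 (Or.inr rfl), ?_⟩
        rw [if_neg (mem_irrefl n), hya]

theorem Z5_isFin {d : M} (h : Fin d) : Holds (EE M) (isFin omega d) := by
  unfold isFin isBij
  simp only [holds_bex, holds_ex, holds_and, holds_ball, mem_def, holds_app, holds_isInj]
  exact Z5_fin_bij h

/-- Z5: compactness -/
theorem bT_cpt_pr : Holds (EE M) (isCpt omega (bX : M) bT) := by
  unfold isCpt
  simp only [holds_all, holds_imp, holds_and, holds_isSubset, holds_ball, holds_bex, mem_def,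
    holds_ex, holds_mem]
  rintro c ⟨hc, hcov⟩
  obtain ⟨J, hJ⟩ : Small (fun A : M => Sub A omega ∧ ∃ d, Sub d c ∧ Fin d ∧
      ∀ x, x ∈ hat A → ∃ u, u ∈ d ∧ x ∈ u) := by
    refine small_of_subset (by fun_prop) (power omega) ?_
    intro A hA
    rw [mem_power]
    exact hA.1
  have hom : omega ∈ J := by
    by_contra hcon
    obtain ⟨u, hu, huJ⟩ := exists_UF_pr (J := J)
      (by
        rw [hJ]
        refine ⟨fun z hz => (not_mem_empty z hz).elim, empty,
          fun z hz => (not_mem_empty z hz).elim, fin_empty, fun x hx => ?_⟩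
        obtain ⟨h1, h2⟩ := mem_hat.1 hx
        exact (h1.1.2.2.1 h2).elim)
      (by
        intro A hA B hBA
        rw [hJ] at hA ⊢
        obtain ⟨hA1, d, hd, hdf, hdA⟩ := hA
        refine ⟨fun z hz => hA1 z (hBA z hz), d, hd, hdf, fun x hx => ?_⟩
        obtain ⟨h1, h2⟩ := mem_hat.1 hx
        exact hdA x (mem_hat.2 ⟨h1, h1.1.2.2.2.2 B h2 A hBA hA1⟩))
      (by
        intro A hA B hB
        rw [hJ] at hA hB ⊢
        obtain ⟨hA1, d, hd, hdf, hdA⟩ := hA
        obtain ⟨hB1, e, he, hef, heB⟩ := hB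
        refine ⟨fun z hz => ?_, union d e, fun z hz => ?_, hdf.union hef, fun x hx => ?_⟩
        · rcases mem_union.1 hz with hz | hz
          · exact hA1 z hz
          · exact hB1 z hz
        · rcases mem_union.1 hz with hz | hz
          · exact hd z hz
          · exact he z hz
        · obtain ⟨h1, h2⟩ := mem_hat.1 hx
          rcases h1.2 A hA1 with h3 | h3
          · obtain ⟨u, hu, hxu⟩ := hdA x (mem_hat.2 ⟨h1, h3⟩)
            exact ⟨u, mem_union.2 (Or.inl hu), hxu⟩
          · have h4 := h1.1.2.2.2.1 _ h2 _ h3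
            have h5 : B ∈ x := by
              refine h1.1.2.2.2.2 _ h4 B (fun z hz => ?_) hB1
              rw [mem_cap, mem_union, mem_dif] at hz
              exact hz.1.resolve_left hz.2.2
            obtain ⟨u, hu, hxu⟩ := heB x (mem_hat.2 ⟨h1, h5⟩)
            exact ⟨u, mem_union.2 (Or.inr hu), hxu⟩)
      hcon (fun A hA => ((hJ A).1 hA).1)
    obtain ⟨O, hO, huO⟩ := hcov u (mem_bX.2 hu)
    obtain ⟨A, hA, hAO⟩ := (mem_bT.1 (hc O hO)).2 u huO
    refine huJ A ?_ hA
    rw [hJ]
    refine ⟨hu.1.1 A hA, union empty (upair O O), fun z hz => ?_, fin_empty.insert,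
      fun x hx => ⟨O, mem_union.2 (Or.inr (mem_upair.2 (Or.inl rfl))), hAO x hx⟩⟩
    rcases mem_union.1 hz with hz | hz
    · exact (not_mem_empty z hz).elim
    · have : z = O := by simpa using hz
      rw [this]
      exact hO
  obtain ⟨_, d, hd, hdf, hdc⟩ := (hJ omega).1 hom
  refine ⟨d, hd, Z5_isFin hdf, fun x hx => hdc x ?_⟩
  rw [mem_hat]
  exact ⟨mem_bX.1 hx, (mem_bX.1 hx).1.2.1⟩

end Pool.Agent.ZC
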