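import Pool.Agent.Lib_helper72.ZC.BDefs

/-!
# Block Z6: `βω` has no non-trivially convergent sequences
-/

set_option linter.unusedSectionVars false

namespace Pool.Agent.ZC

open Pool.Agent.Lib_helper27 Fml ST

universe u v

variable {M : Type u} [SetStr M] [ZFC M]

theorem UF.up {u : M} (hu : UF u) {A B : M} (hA : A ∈ u) (h : Sub A B) (hB : Sub B omega) :
    B ∈ u := hu.1.2.2.2.2 A hA B h hB

theorem UF.cap {u : M} (hu : UF u) {A B : M} (hA : A ∈ u) (hB : B ∈ u) : cap A B ∈ u :=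
  hu.1.2.2.2.1 A hA B hB

theorem UF.sub {u : M} (hu : UF u) {A : M} (hA : A ∈ u) : Sub A omega := hu.1.1 A hA

theorem UF.not_empty {u : M} (hu : UF u) : ¬ empty ∈ u := hu.1.2.2.1

theorem UF.disj {u : M} (hu : UF u) {A B : M} (hA : A ∈ u) (hB : B ∈ u)
    (h : ∀ x, x ∈ A → x ∈ B → False) : False := by
  have h1 := hu.cap hA hB
  have h2 : Pool.Agent.ZC.cap A B = (empty : M) := by
    rw [eq_empty_iff]
    intro y hy
    rw [mem_cap] at hy
    exact h y hy.1 hy.2
  rw [h2] at h1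
  exact hu.not_empty h1

theorem UF.or_dif {u : M} (hu : UF u) {A : M} (hA : Sub A omega) : A ∈ u ∨ dif omega A ∈ u :=
  hu.2 A hA

theorem UF.eq_of_sub {u v : M} (hu : UF u) (hv : UF v) (h : Sub u v) : u = v := by
  refine ST.ext fun A => ⟨h A, fun hA => ?_⟩
  rcases hu.or_dif (hv.sub hA) with h1 | h1
  · exact h1
  · exact (hv.disj hA (h _ h1) fun x hx hx' => (mem_dif.1 hx').2 hx).elim

/-- state of the construction: a number and two disjoint small sets -/
def Z6St (u z : M) : Prop :=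
  fstp z ∈ (omega : M) ∧ Sub (fstp (sndp z)) omega ∧ Sub (sndp (sndp z)) omega ∧
    ¬ fstp (sndp z) ∈ u ∧ ¬ sndp (sndp z) ∈ u ∧
    ∀ x, x ∈ fstp (sndp z) → ¬ x ∈ sndp (sndp z)

/-- step of the construction -/
def Z6Step (u g z w : M) : Prop :=
  Z6St u w ∧ fstp z ∈ fstp w ∧ Sub (fstp (sndp z)) (fstp (sndp w)) ∧
    Sub (sndp (sndp z)) (sndp (sndp w)) ∧
    (∃ n, n ∈ (omega : M) ∧ fstp z ∈ n ∧ fstp (sndp w) ∈ fapp g n) ∧
    sndp (sndp w) ∈ fapp g (fstp w)

@[fun_prop]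
theorem dbl_z6St {Γ : Type v} [Ctx M Γ] {f g : Γ → M} (hf : Dbl M f) (hg : Dbl M g) :
    Dbl M (fun γ => Z6St (f γ) (g γ)) := by
  unfold Z6St
  fun_prop

@[fun_prop]
theorem dbl_z6Step {Γ : Type v} [Ctx M Γ] {f g h k : Γ → M} (hf : Dbl M f) (hg : Dbl M g)
    (hh : Dbl M h) (hk : Dbl M k) :
    Dbl M (fun γ => Z6Step (f γ) (g γ) (h γ) (k γ)) := by
  unfold Z6Step
  fun_prop

theorem z6_one {u g : M} (hu : UF u) (hg : ∀ n, n ∈ (omega : M) → UF (fapp g n))
    (hconv : ∀ A, A ∈ u → ∃ m, m ∈ (omega : M) ∧ ∀ n, n ∈ (omega : M) → m ∈ n → A ∈ fapp g n)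
    (hev : ∀ m, m ∈ (omega : M) → ∃ n, n ∈ (omega : M) ∧ m ∈ n ∧ fapp g n ≠ u)
    {m S : M} (hm : m ∈ (omega : M)) (hS : Sub S omega) (hSu : ¬ S ∈ u) :
    ∃ n, n ∈ (omega : M) ∧ m ∈ n ∧ ∃ A, Sub A omega ∧ (∀ x, x ∈ A → ¬ x ∈ S) ∧
      A ∈ fapp g n ∧ ¬ A ∈ u := by
  have hS' : dif omega S ∈ u := (hu.or_dif hS).resolve_left hSu
  obtain ⟨l, hl, hl'⟩ := hconv _ hS'
  obtain ⟨k, hk, hk1, hk2⟩ := nat_max (succ_mem_omega hm) (succ_mem_omega hl)
  obtain ⟨n, hn, hkn, hne⟩ := hev k hk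
  have hmn : m ∈ n := nat_trans hn hkn (hk1 m (mem_succ.2 (Or.inr rfl)))
  have hln : l ∈ n := nat_trans hn hkn (hk2 l (mem_succ.2 (Or.inr rfl)))
  have h1 : dif omega S ∈ fapp g n := hl' n hn hln
  obtain ⟨A, hA, hAu⟩ : ∃ A, A ∈ fapp g n ∧ ¬ A ∈ u := by
    by_contra hcon
    push Not at hcon
    exact hne ((hg n hn).eq_of_sub hu hcon)
  refine ⟨n, hn, hmn, cap A (dif omega S), ?_, ?_, (hg n hn).cap hA h1, ?_⟩
  · intro x hx
    exact (hg n hn).sub hA x (mem_cap.1 hx).1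
  · intro x hx
    exact (mem_dif.1 (mem_cap.1 hx).2).2
  · intro h2
    exact hAu (hu.up h2 (fun x hx => (mem_cap.1 hx).1) ((hg n hn).sub hA))

theorem z6_union {u S A : M} (hu : UF u) (hS : Sub S omega) (hA : Sub A omega) (h1 : ¬ S ∈ u)
    (h2 : ¬ A ∈ u) : ¬ union S A ∈ u := by
  intro h
  have h3 := (hu.or_dif hS).resolve_left h1
  have h4 := (hu.or_dif hA).resolve_left h2
  refine hu.disj (hu.cap h3 h4) h fun x hx hx' => ?_
  rw [mem_cap, mem_dif, mem_dif] at hx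
  rw [mem_union] at hx'
  exact hx'.elim hx.1.2 hx.2.2

theorem z6_step {u g : M} (hu : UF u) (hg : ∀ n, n ∈ (omega : M) → UF (fapp g n))
    (hconv : ∀ A, A ∈ u → ∃ m, m ∈ (omega : M) ∧ ∀ n, n ∈ (omega : M) → m ∈ n → A ∈ fapp g n)
    (hev : ∀ m, m ∈ (omega : M) → ∃ n, n ∈ (omega : M) ∧ m ∈ n ∧ fapp g n ≠ u)
    {z : M} (hz : Z6St u z) :
    ∃ w, w ∈ prod (omega : M) (prod (power omega) (power omega)) ∧ Z6Step u g z w := by
  obtain ⟨h1, h2, h3, h4, h5, h6⟩ := hz
  have hSE : Sub (union (fstp (sndp z)) (sndp (sndp z))) omega := by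
    intro x hx
    rcases mem_union.1 hx with h | h
    · exact h2 x h
    · exact h3 x h
  have hSEu : ¬ union (fstp (sndp z)) (sndp (sndp z)) ∈ u := z6_union hu h2 h3 h4 h5
  obtain ⟨n, hn, hmn, A, hA, hAS, hAg, hAu⟩ := z6_one hu hg hconv hev h1 hSE hSEu
  have hE1 : Sub (union (fstp (sndp z)) A) omega := by
    intro x hx
    rcases mem_union.1 hx with h | h
    · exact h2 x h
    · exact hA x h
  have hE1u : ¬ union (fstp (sndp z)) A ∈ u := z6_union hu h2 hA h4 hAu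
  have hS2 : Sub (union (union (fstp (sndp z)) A) (sndp (sndp z))) omega := by
    intro x hx
    rcases mem_union.1 hx with h | h
    · exact hE1 x h
    · exact h3 x h
  have hS2u : ¬ union (union (fstp (sndp z)) A) (sndp (sndp z)) ∈ u :=
    z6_union hu hE1 h3 hE1u h5
  obtain ⟨k, hk, hnk, B, hB, hBS, hBg, hBu⟩ := z6_one hu hg hconv hev hn hS2 hS2u
  have hE2 : Sub (union (sndp (sndp z)) B) omega := by
    intro x hx
    rcases mem_union.1 hx with h | h
    · exact h3 x h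
    · exact hB x h
  refine ⟨opair k (opair (union (fstp (sndp z)) A) (union (sndp (sndp z)) B)), ?_, ?_⟩
  · rw [opair_mem_prod, opair_mem_prod, mem_power, mem_power]
    exact ⟨hk, hE1, hE2⟩
  · unfold Z6Step Z6St
    simp only [fstp_opair, sndp_opair]
    refine ⟨⟨hk, hE1, hE2, hE1u, z6_union hu h3 hB h5 hBu, ?_⟩, nat_trans hk hnk hmn, ?_, ?_,
      ⟨n, hn, hmn, ?_⟩, ?_⟩
    · intro x hx hx'
      rw [mem_union] at hx hx'
      rcases hx with hx | hx
      · rcases hx' with hx' | hx'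
        · exact h6 x hx hx'
        · exact hBS x hx' (mem_union.2 (Or.inl (mem_union.2 (Or.inl hx))))
      · rcases hx' with hx' | hx'
        · exact hAS x hx (mem_union.2 (Or.inr hx'))
        · exact hBS x hx' (mem_union.2 (Or.inl (mem_union.2 (Or.inr hx))))
    · exact fun x hx => mem_union.2 (Or.inl hx)
    · exact fun x hx => mem_union.2 (Or.inl hx)
    · exact (hg n hn).up hAg (fun x hx => mem_union.2 (Or.inr hx)) hE1
    · exact (hg k hk).up hBg (fun x hx => mem_union.2 (Or.inr hx)) hE2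

theorem z6_main {u g : M} (hu : UF u) (hg : ∀ n, n ∈ (omega : M) → UF (fapp g n))
    (hconv : ∀ A, A ∈ u → ∃ m, m ∈ (omega : M) ∧ ∀ n, n ∈ (omega : M) → m ∈ n → A ∈ fapp g n)
    (hev : ∀ m, m ∈ (omega : M) → ∃ n, n ∈ (omega : M) ∧ m ∈ n ∧ fapp g n ≠ u) : False := by
  obtain ⟨φ, hφ, hφ'⟩ := choice_fun (R := fun z w : M => Z6St u z → Z6Step u g z w)
    (a := prod (omega : M) (prod (power omega) (power omega)))
    (b := prod (omega : M) (prod (power omega) (power omega))) (by fun_prop) (by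
      intro z hz
      by_cases h : Z6St u z
      · obtain ⟨w, hw, hw'⟩ := z6_step hu hg hconv hev h
        exact ⟨w, hw, fun _ => hw'⟩
      · exact ⟨z, hz, fun h' => (h h').elim⟩)
  obtain ⟨F, hF, hF0, hFs⟩ := omega_rec (H := fun _ z : M => φ z) (by fun_prop)
    (opair (empty : M) (opair empty empty))
  have hst : ∀ k, k ∈ (omega : M) →
      F k ∈ prod (omega : M) (prod (power omega) (power omega)) ∧ Z6St u (F k) := by
    intro k hk
    refine omega_induction (Φ := fun k => F k ∈ prod (omega : M) (prod (power omega) (power omega)) ∧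
      Z6St u (F k)) (by fun_prop) ?_ ?_ hk
    · rw [hF0]
      refine ⟨?_, ?_⟩
      · rw [opair_mem_prod, opair_mem_prod, mem_power]
        exact ⟨empty_mem_omega, fun v hv => (not_mem_empty v hv).elim,
          fun v hv => (not_mem_empty v hv).elim⟩
      · unfold Z6St
        simp only [fstp_opair, sndp_opair]
        exact ⟨empty_mem_omega, fun v hv => (not_mem_empty v hv).elim,
          fun v hv => (not_mem_empty v hv).elim, hu.not_empty, hu.not_empty,
          fun v hv => (not_mem_empty v hv).elim⟩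
    · intro n hn ih
      rw [hFs n hn]
      obtain ⟨h1, h2⟩ := hφ' (F n) ih.1
      exact ⟨h1, (h2 ih.2).1⟩
  have hstep : ∀ k, k ∈ (omega : M) → Z6Step u g (F k) (F (succ k)) := by
    intro k hk
    rw [hFs k hk]
    exact (hφ' (F k) (hst k hk).1).2 (hst k hk).2
  -- monotonicity
  have hmono : ∀ l, l ∈ (omega : M) → ∀ k, k ∈ l → Sub (fstp (sndp (F k))) (fstp (sndp (F l))) ∧
      Sub (sndp (sndp (F k))) (sndp (sndp (F l))) := by
    intro l hl
    refine omega_induction (Φ := fun l => ∀ k, k ∈ l →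
      Sub (fstp (sndp (F k))) (fstp (sndp (F l))) ∧
      Sub (sndp (sndp (F k))) (sndp (sndp (F l)))) (by fun_prop) ?_ ?_ hl
    · exact fun k hk => (not_mem_empty k hk).elim
    · intro n hn ih k hk
      obtain ⟨_, _, h3, h4, _, _⟩ := hstep n hn
      rcases mem_succ.1 hk with hk | rfl
      · exact ⟨fun x hx => h3 x ((ih k hk).1 x hx), fun x hx => h4 x ((ih k hk).2 x hx)⟩
      · exact ⟨h3, h4⟩
  -- the numbers are large
  have hlarge : ∀ k, k ∈ (omega : M) → k ∈ succ (fstp (F k)) := by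
    intro k hk
    refine omega_induction (Φ := fun k => k ∈ succ (fstp (F k))) (by fun_prop) ?_ ?_ hk
    · rcases nat_cases (hst _ empty_mem_omega).2.1 with h | ⟨m, hm, h⟩
      · rw [mem_succ]
        exact Or.inr h.symm
      · rw [mem_succ]
        left
        rw [h]
        rcases nat_tri empty_mem_omega (succ_mem_omega hm) with h1 | h1 | h1
        · exact h1
        · exact (not_mem_empty m (h1 ▸ mem_succ.2 (Or.inr rfl))).elim
        · exact (not_mem_empty _ h1).elim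
    · intro n hn ih
      have h1 : fstp (F n) ∈ fstp (F (succ n)) := (hstep n hn).2.1
      have hN : fstp (F (succ n)) ∈ (omega : M) := (hst _ (succ_mem_omega hn)).2.1
      have h2 : n ∈ fstp (F (succ n)) := by
        rcases mem_succ.1 ih with h3 | h3
        · exact nat_trans hN h1 h3
        · rw [← h3] at h1
          exact h1
      exact succ_mem_succ hN h2
  -- the two unions
  have hsm1 : Small (fun x : M => ∃ k, k ∈ (omega : M) ∧ x ∈ fstp (sndp (F k))) := by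
    refine small_of_subset (by fun_prop) omega ?_
    rintro x ⟨k, hk, hx⟩
    exact (hst k hk).2.2.1 x hx
  have hsm2 : Small (fun x : M => ∃ k, k ∈ (omega : M) ∧ x ∈ sndp (sndp (F k))) := by
    refine small_of_subset (by fun_prop) omega ?_
    rintro x ⟨k, hk, hx⟩
    exact (hst k hk).2.2.2.1 x hx
  obtain ⟨E, hE⟩ := hsm1
  obtain ⟨E', hE'⟩ := hsm2
  have hEs : Sub E omega := by
    intro x hx
    obtain ⟨k, hk, hx⟩ := (hE x).1 hx
    exact (hst k hk).2.2.1 x hx
  have hEs' : Sub E' omega := by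
    intro x hx
    obtain ⟨k, hk, hx⟩ := (hE' x).1 hx
    exact (hst k hk).2.2.2.1 x hx
  have hdisj : ∀ x, x ∈ E → x ∈ E' → False := by
    intro x hx hx'
    obtain ⟨k, hk, hx⟩ := (hE x).1 hx
    obtain ⟨l, hl, hx'⟩ := (hE' x).1 hx'
    rcases nat_tri hk hl with h | h | h
    · exact (hst l hl).2.2.2.2.2.2 x ((hmono l hl k h).1 x hx) hx'
    · subst h
      exact (hst k hk).2.2.2.2.2.2 x hx hx'
    · exact (hst k hk).2.2.2.2.2.2 x hx ((hmono k hk l h).2 x hx')
  have hE1 : ∀ m, m ∈ (omega : M) → ∃ n, n ∈ (omega : M) ∧ m ∈ n ∧ E ∈ fapp g n := by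
    intro m hm
    obtain ⟨_, _, _, _, ⟨n, hn, h1, h2⟩, _⟩ := hstep (succ m) (succ_mem_omega hm)
    refine ⟨n, hn, ?_, ?_⟩
    · refine nat_trans hn h1 ?_
      rcases mem_succ.1 (hlarge _ (succ_mem_omega hm)) with h3 | h3
      · exact nat_trans (hst _ (succ_mem_omega hm)).2.1 h3 (mem_succ.2 (Or.inr rfl))
      · rw [← h3]
        exact mem_succ.2 (Or.inr rfl)
    · exact (hg n hn).up h2
        (fun x hx => (hE x).2 ⟨_, succ_mem_omega (succ_mem_omega hm), hx⟩) hEs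
  have hE2 : ∀ m, m ∈ (omega : M) → ∃ n, n ∈ (omega : M) ∧ m ∈ n ∧ E' ∈ fapp g n := by
    intro m hm
    obtain ⟨h0, h1, _, _, _, h2⟩ := hstep m hm
    refine ⟨fstp (F (succ m)), h0.1, ?_, ?_⟩
    · rcases mem_succ.1 (hlarge _ hm) with h3 | h3
      · exact nat_trans h0.1 h1 h3
      · rw [← h3] at h1
        exact h1
    · exact (hg _ h0.1).up h2 (fun x hx => (hE' x).2 ⟨_, succ_mem_omega hm, hx⟩) hEs'
  rcases hu.or_dif hEs with h | h
  · obtain ⟨m, hm, hm'⟩ := hconv E h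
    obtain ⟨n, hn, hmn, hn'⟩ := hE2 m hm
    exact (hg n hn).disj (hm' n hn hmn) hn' hdisj
  · obtain ⟨m, hm, hm'⟩ := hconv _ h
    obtain ⟨n, hn, hmn, hn'⟩ := hE1 m hm
    exact (hg n hn).disj hn' (hm' n hn hmn) fun x hx hx' => (mem_dif.1 hx').2 hx

theorem bX_noConv_pr : Holds (EE M) (noConv (omega : M) bX bT) := by
  unfold noConv evConst convTo
  simp only [holds_neg, holds_ex, holds_and, holds_isFunc, holds_bex, holds_ball, holds_imp,
    holds_all, holds_app, holds_mem, mem_def]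
  rintro ⟨g, hg, hev, u, hu, hconv⟩
  have hg : IsFn g (omega : M) bX := hg
  rw [mem_bX] at hu
  refine z6_main (u := u) (g := g) hu (fun n hn => mem_bX.1 (hg.fapp_mem hn)) ?_ ?_
  · intro A hA
    obtain ⟨m, hm, hm'⟩ := hconv (hat A) (mem_bT.2 ⟨fun w hw => mem_bX.2 (mem_hat.1 hw).1,
      fun w hw => ⟨A, (mem_hat.1 hw).2, fun _ h => h⟩⟩) (mem_hat.2 ⟨hu, hA⟩)
    refine ⟨m, hm, fun n hn hmn => ?_⟩
    exact (mem_hat.1 (hm' n hn hmn _ (hg.opair_fapp hn))).2
  · intro m hm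
    by_contra hcon
    push Not at hcon
    refine hev ⟨m, hm, u, fun n hn hmn => ?_⟩
    rw [← hcon n hn hmn]
    exact hg.opair_fapp hn

end Pool.Agent.ZC
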