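import Pool.Agent.Lib_helper72.ZC.Z1
import Pool.Agent.Lib_helper72.ZC.Z4
import Pool.Agent.Lib_helper72.ZC.Z5
import Pool.Agent.Lib_helper72.ZC.Z6

/-!
# Block D3: `𝔷 ≤ 𝔠`
-/

set_option linter.unusedSectionVars false

namespace Pool.Agent.ZC

open Pool.Agent.Lib_helper27 Fml ST

universe u v

variable {M : Type u} [SetStr M] [ZFC M]

theorem not_isFin_bX : ¬ Holds (EE M) (isFin (omega : M) bX) := by
  unfold isFin
  simp only [holds_bex, holds_ex, mem_def]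
  rintro ⟨n, hn, g, hg⟩
  have h1 : IsInjSet g n bX := holds_isInj.1 hg.1
  have h2 : ∀ y, y ∈ (bX : M) → ∃ x, x ∈ n ∧ opair x y ∈ g := by
    have h3 := hg.2
    simp only [holds_ball, holds_bex, holds_app, mem_def] at h3
    exact h3
  have h4 : Inj (bX : M) n := Inj.of_surj (φ := fapp g) (by fun_prop) (fun y hy => by
    obtain ⟨x, hx, hxy⟩ := h2 y hy
    exact ⟨x, hx, h1.fapp_eq hxy⟩) fun x hx y hy he => h1.fapp_inj hx hy he
  exact not_inj_omega_fin ⟨n, hn, h4⟩ inj_omega_bX_pr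

theorem st_zLe_pr {W C : M} (hW : Holds (EE M) (isOmega W)) (hC : Holds (EE M) (isPower C W)) :
    Holds (EE M) (zLe W C) := by
  obtain rfl : W = omega := holds_isOmega.1 hW
  unfold isPower at hC
  simp only [holds_all, holds_iff, holds_mem, holds_isSubset, mem_def] at hC
  have h1 : Inj (bB : M) C := by
    obtain ⟨φ, hφ, hφ'⟩ := choice_fun (R := fun y A : M => hat A = y) (a := (bB : M)) (b := C)
      (by fun_prop) (by
        intro y hy
        obtain ⟨A, hA, hAy⟩ := mem_bB.1 hy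
        exact ⟨A, (hC A).2 hA, hAy⟩)
    refine Inj.of_fun hφ (fun y hy => (hφ' y hy).1) fun y hy y' hy' he => ?_
    rw [← (hφ' y hy).2, ← (hφ' y' hy').2, he]
  obtain ⟨f, hf⟩ := h1
  unfold zLe
  refine holds_ex.2 ⟨bX, holds_ex.2 ⟨bT, holds_ex.2 ⟨bB, ⟨⟨holds_isTop.2 bT_top_pr, bT_haus_pr,
    bT_cpt_pr, not_isFin_bX, bX_noConv_pr⟩, bB_base_pr⟩, holds_ex.2 ⟨f, holds_isInj.2 hf⟩⟩⟩⟩

end Pool.Agent.ZC
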