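import Pool.Agent.Lib_helper72.ZC.Stmt
import Pool.Agent.Lib_helper27.R.NameB

/-!
# Auxiliary formulas and definitions
-/

namespace Pool.Agent.ZC

open Pool.Agent.Lib_helper27 Fml MeasureTheory Cardinal V

universe v

section formulas

variable {U : Type v}

/-- `x` belongs to the closure of `{f(n) : n ∈ A}` -/
def clf (T f A x : U) : Fml U :=
  ball T fun u => imp (mem x u) (bex A fun n => bex u fun v => app f n v)

/-- `A` is an unbounded subset of `W = ω` -/
def unb (W A : U) : Fml U := and (isSubset A W) (ball W fun m => bex A fun n => mem m n)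

/-- the closures of `{f(n) : n ∈ A}` and of `{f(n) : n ∈ A'}` are disjoint -/
def disj (X T f A A' : U) : Fml U :=
  ball X fun x => neg (and (clf T f A x) (clf T f A' x))

/-- `f(n)`, `n ∈ A`, converges to `x` -/
def convA (W T f A x : U) : Fml U :=
  ball T fun u => imp (mem x u) (bex W fun m => ball A fun n =>
    imp (mem m n) (all fun v => imp (app f n v) (mem v u)))

/-- hypotheses of directed compactness: `E` is a nonempty set of nonempty closed sets, directed
downwards -/
def dirPrem (W X T E : U) : Fml U :=
  and (isOmega W) (and (isTop X T) (and (isCpt W X T) (and (ex fun C => mem C E)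
    (and (ball E fun C => bex X fun x => mem x C)
      (and (ball E fun C => ball E fun D => bex E fun G => ball X fun x =>
          imp (mem x G) (and (mem x C) (mem x D)))
        (ball E fun C => ball X fun x => imp (neg (mem x C))
          (bex T fun u => and (mem x u) (ball u fun z => neg (mem z C)))))))))

/-- conclusion of directed compactness -/
def dirConc (X E : U) : Fml U := bex X fun x => ball E fun C => mem x C

/-- hypotheses of the splitting lemma -/
def splitPrem (W X T f A : U) : Fml U :=
  and (isOmega W) (and (isTop X T) (and (isHaus X T) (and (isCpt W X T) (and (isFunc f W X)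
    (and (unb W A) (neg (bex X fun x => convA W T f A x)))))))

/-- conclusion of the splitting lemma -/
def splitConc (W X T f A A' A'' : U) : Fml U :=
  and (and (unb W A') (isSubset A' A)) (and (and (unb W A'') (isSubset A'' A)) (disj X T f A' A''))

/-- `x` belongs to the closure of `{f(n) : n ∈ A}` and to no element of `D` -/
def phi (T f A D x : U) : Fml U := and (clf T f A x) (ball D fun u => neg (mem x u))

end formulas

/-! ### Cantor space and the combinatorial core -/

/-- the sequence of the first `k` values of `z`, in reverse order -/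
def pre (z : ℕ → Bool) : ℕ → List Bool
  | 0 => []
  | k + 1 => z k :: pre z k

/-- every family of at most `κ` closed nowhere dense subsets of Cantor space does not cover it -/
def CovAt (κ : Cardinal.{0}) : Prop :=
  ∀ (J : Type) (N : J → Set (ℕ → Bool)), #J ≤ κ → (∀ j, IsClosed (N j)) →
    (∀ j, interior (N j) = ∅) → ∃ y, ∀ j, y ∉ N j

/-- every family of at most `κ` functions is dominated -/
def DomAt (κ : Cardinal.{0}) : Prop :=
  ∀ (J : Type) (h : J → ℕ → ℕ), #J ≤ κ → ∃ g : ℕ → ℕ, ∀ j, ∀ᶠ k in Filter.atTop, h j k ≤ g k

section core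

variable {Ω : Type} [MeasurableSpace Ω]

/-- `G z`, `z ∈ Y`, is continuous in `z` with respect to `μ (A ∆ B)` -/
def Cts (μ : Measure Ω) (Y : Set (ℕ → Bool)) (G : (ℕ → Bool) → Set Ω) : Prop :=
  ∀ z ∈ Y, ∀ ε : ℝ, 0 < ε → ∃ n : ℕ, ∀ z' ∈ Y, (∀ k < n, z' k = z k) →
    μ.real (symmDiff (G z) (G z')) < ε

/-- `G` is continuous off a union of at most `κ` closed nowhere dense sets -/
def Thin (μ : Measure Ω) (κ : Cardinal.{0}) (G : (ℕ → Bool) → Set Ω) : Prop :=
  ∃ (J : Type) (N : J → Set (ℕ → Bool)), #J ≤ κ ∧ (∀ j, IsClosed (N j)) ∧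
    (∀ j, interior (N j) = ∅) ∧ Cts μ (⋃ j, N j)ᶜ G

end core

end Pool.Agent.ZC
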