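import Pool.Agent.Lib_helper72.ZC.Aux1
import Pool.Agent.Lib_helper72.ZC.C1
import Pool.Agent.Lib_helper72.ZC.D1

/-!
# Block E1: the point
-/

set_option linter.unusedSectionVars false

namespace Pool.Agent.ZC

open Pool.Agent.Lib_helper27 Fml MeasureTheory Cardinal V

open Pool.Agent.Lib_helper27.ST (EE)

section gen

variable {P : Type} [Preorder P]

theorem fc_dir {W X T E : Name P} {p : P} (h : Fc p (dirPrem W X T E)) : Fc p (dirConc X E) := by
  have h1 : Fc p (imp (dirPrem W X T E) (dirConc X E)) :=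
    transfer_pr (cv (imp (dirPrem 0 1 2 3) (dirConc 1 3)) 4) 4 (fun M _ _ e => by
      change Holds (EE M) (imp (dirPrem (e 0) (e 1) (e 2) (e 3)) (dirConc (e 1) (e 3)))
      rw [holds_imp]
      exact st_dir_pr) p (env [W, X, T] E)
  exact fc_imp.1 h1 p le_rfl h

/-- the sets `phi` are closed -/
def clPhi {U : Type*} (T f A D x : U) : Fml U :=
  imp (and (isSubset D T) (neg (phi T f A D x)))
    (bex T fun u => and (mem x u) (ball u fun z => neg (phi T f A D z)))

theorem st_clPhi {M : Type*} {E : M → M → Prop} (T f A D x : M) :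
    Holds E (clPhi T f A D x) := by
  unfold clPhi phi clf
  simp only [holds_imp, holds_and, holds_isSubset, holds_neg, holds_ball, holds_bex, holds_mem]
  rintro ⟨hD, h⟩
  by_cases h1 : ∀ u, E u T → E x u → ∃ n, E n A ∧ ∃ v, E v u ∧ Holds E (app f n v)
  · have h2 : ∃ u, E u D ∧ E x u := by
      by_contra hcon
      push Not at hcon
      exact h ⟨h1, hcon⟩
    obtain ⟨u, hu, hxu⟩ := h2
    exact ⟨u, hD u hu, hxu, fun z hz h3 => h3.2 u hu hz⟩
  · push Not at h1
    obtain ⟨u, hu, hxu, h2⟩ := h1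
    refine ⟨u, hu, hxu, fun z hz h3 => ?_⟩
    obtain ⟨n, hn, v, hv, hf⟩ := h3.1 u hu hz
    exact h2 n hn v hv hf

theorem fc_clPhi (T f A D x : Name P) (p : P) : Fc p (clPhi T f A D x) :=
  transfer_pr (cv (clPhi 0 1 2 3 4) 5) 5 (fun M _ _ e => by
    change Holds (EE M) (clPhi (e 0) (e 1) (e 2) (e 3) (e 4))
    exact st_clPhi _ _ _ _ _) p (env [T, f, A, D] x)

end gen

section points

variable {Ω : Type} [MeasurableSpace Ω] (μ : Measure Ω) [IsProbabilityMeasure μ]

theorem exists_point_pr {I : Type} [LinearOrder I] {X T B f : Name (Rnd μ)} {c : I → Name (Rnd μ)}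
    {q : Rnd μ} (hX : Fc q (isNonSeq (oall (Rnd μ) ℕ) X T)) (hB : Fc q (isBase B T))
    (hBc : feq B (mkAll I c) q) {A : ℕ → Name (Rnd μ)}
    (hA : ∀ k, Fc q (isSubset (A (k + 1)) (A k)))
    {b : ℕ → Finset I → Set Ω} (hb : ∀ k F (r : Rnd μ), Fc r (bex X fun x =>
      phi T f (A k) (mkAll {i // i ∈ F} fun i => c i.1) x) ↔ μ (r.1 \ b k F) = 0)
    {e : I → Set Ω} (he : ∀ i, MeasurableSet (e i))
    (h1 : ∀ F k, μ ((q.1 ∩ ⋂ j ∈ F, e j) \ b k F) = 0)
    (h2 : ∀ i C, (∀ F : Finset I, (∀ j ∈ F, j < i) → ∀ k,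
      μ ((C ∩ ⋂ j ∈ F, e j) \ b k (insert i F)) = 0) → μ (C \ e i) = 0) :
    ∃ x, fmem x X q ∧ (∀ k, Fc q (clf T f (A k) x)) ∧
      ∀ i (r : Rnd μ), r ≤ q → (Fc r (neg (mem x (c i))) ↔ μ (r.1 \ e i) = 0) := by
  classical
  -- abbreviations
  let Dn : Finset I → Name (Rnd μ) := fun F => mkAll {i // i ∈ F} fun i => c i.1
  let Kn : ℕ × Finset I → Name (Rnd μ) := fun z => mkSep X fun x => phi T f (A z.1) (Dn z.2) x
  let Q : ℕ × Finset I → Rnd μ → Prop := fun z r => μ (r.1 \ ⋂ j ∈ z.2, e j) = 0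
  have hQ : Down Q := fun z r s hs h => rnd_down hs h
  let E : Name (Rnd μ) := mkQ (ℕ × Finset I) Kn Q
  have hKn : ∀ z {w : Name (Rnd μ)} {r : Rnd μ}, fmem w (Kn z) r ↔
      fmem w X r ∧ Fc r (phi T f (A z.1) (Dn z.2) w) :=
    fun z _ _ => fmem_mkSep (congr_phi T f (A z.1) (Dn z.2))
  have hcT : ∀ i (r : Rnd μ), r ≤ q → fmem (c i) T r := by
    intro i r hr
    have h3 : fmem (c i) B r :=
      fmem_congr_right (feq_symm (feq_mono hr hBc)) (fmem_mkAll_of i)
    exact fc_subset.1 hB.1 (c i) r hr h3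
  have hDT : ∀ F (r : Rnd μ), r ≤ q → Fc r (isSubset (Dn F) T) := by
    intro F r hr
    refine fc_subset.2 fun x s hs hx => ?_
    refine fmem_dense ((fmem_mkAll.1 hx).imp ?_)
    rintro t ht ⟨i, hi⟩
    exact fmem_congr_left (feq_symm hi) (hcT i.1 t (ht.trans (hs.trans hr)))
  -- monotonicity of the sets `A k`
  have hAm : ∀ k l, Fc q (isSubset (A (k + l)) (A k)) := by
    intro k l
    induction l with
    | zero => exact isSubset_refl
    | succ l ih => exact isSubset_trans (hA (k + l)) ih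
  have hAm' : ∀ k k', k ≤ k' → Fc q (isSubset (A k') (A k)) := by
    intro k k' hk
    obtain ⟨l, rfl⟩ := Nat.exists_eq_add_of_le hk
    exact hAm k l
  have hKm : ∀ k k' F F', k ≤ k' → F ⊆ F' → ∀ (r : Rnd μ), r ≤ q → ∀ w,
      fmem w (Kn (k', F')) r → fmem w (Kn (k, F)) r := by
    intro k k' F F' hk hF r hr w hw
    rw [hKn] at hw ⊢
    exact ⟨hw.1, phi_mono hF (fc_mono hr (hAm' k k' hk)) hw.2⟩
  -- the family has members
  have hmemE : ∀ z (r : Rnd μ), Q z r → fmem (Kn z) E r := fun z r h => fmem_mkQ_of hQ h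
  -- existence of a point
  have hdir : Fc q (dirConc X E) := by
    refine fc_dir (W := oall (Rnd μ) ℕ) (T := T) ?_
    refine ⟨omega_isOmega q, hX.1, hX.2.2.1, ?_, ?_, ?_, ?_⟩
    · refine forces_ex.2 (Loc.pure fun r _ => ⟨Kn (0, ∅), hmemE _ r ?_⟩)
      show μ (r.1 \ ⋂ j ∈ (∅ : Finset I), e j) = 0
      simp
    · refine fc_ball_mk.2 fun C r hr hC => ?_
      refine fc_dense (((fmem_mkQ hQ).1 hC).imp ?_)
      rintro s hs ⟨⟨k, F⟩, hz, heq⟩
      have hsq : s ≤ q := hs.trans hr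
      have h3 : μ (s.1 \ b k F) = 0 := by
        refine null_diff_trans (B := q.1 ∩ ⋂ j ∈ F, e j) ?_ (h1 F k)
        rw [Set.sdiff_inter]
        exact measure_union_null hsq hz
      refine fc_bex_mk.2 ((fc_bex_mk.1 ((hb k F s).2 h3)).imp ?_)
      rintro t ht ⟨x, hx, hx'⟩
      exact ⟨x, hx, fmem_congr_right (feq_symm (feq_mono ht heq)) ((hKn (k, F)).2 ⟨hx, hx'⟩)⟩
    · refine fc_ball_mk.2 fun C r hr hC => fc_ball_mk.2 fun D r' hr' hD => ?_
      refine fc_dense ?_
      refine (((fmem_mkQ hQ).1 hC).mono hr').bind ?_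
      rintro s hs ⟨⟨k, F⟩, hz, heq⟩
      refine (((fmem_mkQ hQ).1 hD).mono hs).imp ?_
      rintro t ht ⟨⟨k', F'⟩, hz', heq'⟩
      have htq : t ≤ q := ht.trans (hs.trans (hr'.trans hr))
      refine fc_bex_mk.2 (Loc.pure fun t' ht' => ⟨Kn (max k k', F ∪ F'), hmemE _ t' ?_, ?_⟩)
      · refine rnd_down ht' ?_
        show μ (t.1 \ ⋂ j ∈ F ∪ F', e j) = 0
        have h3 : (⋂ j ∈ F ∪ F', e j) = (⋂ j ∈ F, e j) ∩ ⋂ j ∈ F', e j := by
          ext x
          simp only [Set.mem_iInter, Set.mem_inter_iff, Finset.mem_union]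
          exact ⟨fun h => ⟨fun j hj => h j (Or.inl hj), fun j hj => h j (Or.inr hj)⟩,
            fun h j hj => hj.elim (h.1 j) (h.2 j)⟩
        rw [h3, Set.sdiff_inter]
        exact measure_union_null (rnd_down ht hz) hz'
      · refine fc_ball_mk.2 fun x u hu hx => fc_imp.2 fun u' hu' hxG => ?_
        have huq : u' ≤ q := hu'.trans (hu.trans (ht'.trans htq))
        have h4 := hKm k (max k k') F (F ∪ F') (le_max_left _ _) Finset.subset_union_left u' huq x hxG
        have h5 := hKm k' (max k k') F' (F ∪ F') (le_max_right _ _) Finset.subset_union_right u' huq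
          x hxG
        exact ⟨fmem_congr_right (feq_symm (feq_mono (hu'.trans (hu.trans (ht'.trans ht))) heq)) h4,
          fmem_congr_right (feq_symm (feq_mono (hu'.trans (hu.trans ht')) heq')) h5⟩
    · refine fc_ball_mk.2 fun C r hr hC => fc_ball_mk.2 fun x r' hr' hx => ?_
      refine fc_imp.2 fun r'' hr'' hxC => ?_
      refine fc_dense ?_
      refine (((fmem_mkQ hQ).1 hC).mono (hr''.trans hr')).imp ?_
      rintro s hs ⟨⟨k, F⟩, hz, heq⟩
      have hsq : s ≤ q := hs.trans (hr''.trans (hr'.trans hr))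
      have h3 : Fc s (neg (phi T f (A k) (Dn F) x)) := by
        intro t ht hphi
        refine hxC t (ht.trans hs) ?_
        refine fmem_congr_right (feq_symm (feq_mono ht heq)) ((hKn (k, F)).2 ⟨?_, hphi⟩)
        exact fmem_mono (ht.trans (hs.trans hr'')) hx
      have h4 := fc_imp.1 (fc_clPhi T f (A k) (Dn F) x s) s le_rfl ⟨hDT F s hsq, h3⟩
      refine fc_bex_mk.2 ((fc_bex_mk.1 h4).imp ?_)
      rintro t ht ⟨u, hu, hxu, h5⟩
      refine ⟨u, hu, hxu, fc_ball_mk.2 fun z t' ht' hzu => ?_⟩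
      intro v hv hzC
      refine fc_ball_mk.1 h5 z t' ht' hzu v hv ?_
      have h6 : fmem z (Kn (k, F)) v :=
        fmem_congr_right (feq_mono (hv.trans (ht'.trans ht)) heq) hzC
      exact ((hKn (k, F)).1 h6).2
  obtain ⟨x, hx⟩ := exists_mix (P := Rnd μ) (fun x => and (mem x X) (ball E fun C => mem x C))
    (congr_dir X E)
  have hxq := hx q hdir
  have hxX : fmem x X q := hxq.1
  have hxK : ∀ z (r : Rnd μ), r ≤ q → Q z r → Fc r (phi T f (A z.1) (Dn z.2) x) := by
    intro z r hr hz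
    have h3 : fmem x (Kn z) r := fc_ball_mk.1 hxq.2 (Kn z) r hr (hmemE z r hz)
    exact ((hKn z).1 h3).2
  refine ⟨x, hxX, ?_, ?_⟩
  · intro k
    refine (hxK (k, ∅) q le_rfl ?_).1
    show μ (q.1 \ ⋂ j ∈ (∅ : Finset I), e j) = 0
    simp
  · intro i r hr
    constructor
    · intro hxi
      refine h2 i r.1 fun F hF k => ?_
      by_cases h0 : μ (r.1 ∩ ⋂ j ∈ F, e j) = 0
      · exact measure_mono_null Set.sdiff_subset h0
      · have hm : MeasurableSet (r.1 ∩ ⋂ j ∈ F, e j) :=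
          r.2.1.inter (F.measurableSet_biInter fun j _ => he j)
        let s : Rnd μ := ⟨r.1 ∩ ⋂ j ∈ F, e j, hm, h0⟩
        have hsr : s ≤ r := by
          show μ (s.1 \ r.1) = 0
          have : s.1 \ r.1 = ∅ := by
            rw [Set.sdiff_eq_empty]
            exact Set.inter_subset_left
          rw [this, measure_empty]
        have hs : Q (k, F) s := by
          show μ (s.1 \ ⋂ j ∈ F, e j) = 0
          have : s.1 \ (⋂ j ∈ F, e j) = ∅ := by
            rw [Set.sdiff_eq_empty]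
            exact Set.inter_subset_right
          rw [this, measure_empty]
        have h3 := hxK (k, F) s (hsr.trans hr) hs
        have h4 : Fc s (phi T f (A k) (Dn (insert i F)) x) := by
          refine ⟨h3.1, fc_ball_mk.2 fun u t ht hu => ?_⟩
          refine fc_dense ((fmem_mkAll.1 hu).imp ?_)
          rintro t' ht' ⟨⟨j, hj⟩, heq⟩
          have key : Fc t' (neg (mem x (c j))) := by
            rcases Finset.mem_insert.1 hj with rfl | hj'
            · exact fc_mono (ht'.trans (ht.trans hsr)) hxi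
            · refine fc_ball_mk.1 h3.2 (c j) t' (ht'.trans ht) ?_
              exact fmem_mkAll_of (ι := {i // i ∈ F}) (x := fun i => c i.1) ⟨j, hj'⟩
          intro v hv hxu
          exact key v hv (fmem_congr_right (feq_mono hv heq) hxu)
        refine (hb k (insert i F) s).1 ?_
        exact fc_bex_mk.2 (Loc.pure fun t ht => ⟨x, fmem_mono (ht.trans (hsr.trans hr)) hxX,
          fc_mono ht h4⟩)
    · intro hri
      have h3 : Q (0, {i}) r := by
        show μ (r.1 \ ⋂ j ∈ ({i} : Finset I), e j) = 0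
        simpa using hri
      have h4 := hxK (0, {i}) r hr h3
      refine fc_ball_mk.1 h4.2 (c i) r le_rfl ?_
      exact fmem_mkAll_of (ι := {j // j ∈ ({i} : Finset I)}) (x := fun i => c i.1)
        ⟨i, Finset.mem_singleton_self i⟩

end points

end Pool.Agent.ZC
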