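import Pool.Agent.Lib_helper72.ZC.E1
import Pool.Agent.Lib_helper72.ZC.C2
import Pool.Agent.Lib_helper72.ZC.C3
import Pool.Agent.Lib_helper72.ZC.C4
import Pool.Agent.Lib_helper72.ZC.C5
import Pool.Agent.Lib_helper72.ZC.C7
import Pool.Agent.Lib_helper72.ZC.A4
import Pool.Agent.Lib_helper72.ZC.A5

/-!
# Block E2: `𝔷 ≥ 𝔠`
-/

set_option linter.unusedSectionVars false

namespace Pool.Agent.ZC

open Pool.Agent.Lib_helper27 Fml MeasureTheory Cardinal V

open Pool.Agent.Lib_helper27.ST (EE)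

theorem exists_first_diff {z z' : ℕ → Bool} (h : z ≠ z') :
    ∃ k, pre z k = pre z' k ∧ z k ≠ z' k := by
  classical
  have hex : ∃ k, z k ≠ z' k := by
    by_contra hcon
    push Not at hcon
    exact h (funext hcon)
  refine ⟨Nat.find hex, ?_, Nat.find_spec hex⟩
  have key : ∀ k, (∀ j < k, z j = z' j) → pre z k = pre z' k := by
    intro k
    induction k with
    | zero => exact fun _ => rfl
    | succ k ih =>
      intro hk
      show z k :: pre z k = z' k :: pre z' k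
      rw [hk k (Nat.lt_succ_self k), ih fun j hj => hk j (hj.trans (Nat.lt_succ_self k))]
  refine key _ fun j hj => ?_
  by_contra hne
  exact Nat.find_min hex hj hne

section gen

variable {P : Type} [Preorder P]

/-- the closure of `f[A]` is not empty if `A` is unbounded -/
theorem fc_phi_empty {I : Type} {c : I → Name P} {X T f A : Name P} {p : P}
    (hf : Fc p (isInj f (oall P ℕ) X)) (hA : Fc p (unb (oall P ℕ) A)) :
    Fc p (bex X fun x => phi T f A (mkAll {i // i ∈ (∅ : Finset I)} fun i => c i.1) x) := by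
  have h1 : Fc p (bex A fun n => mem (onm P (0 : ℕ)) n) :=
    fc_ball_mk.1 hA.2 (onm P (0 : ℕ)) p le_rfl (onm_mem_oall 0 p)
  refine fc_bex_mk.2 ((fc_bex_mk.1 h1).bind ?_)
  rintro r hr ⟨n, hn, _⟩
  have hnW : fmem n (oall P ℕ) r := fc_subset.1 hA.1 n r hr hn
  refine (func_total (fc_mono hr hf.1) hnW).imp ?_
  rintro s hs ⟨v, hv, hfv⟩
  refine ⟨v, hv, fc_ball_mk.2 fun u t ht _ => fc_imp.2 fun t' ht' hvu => ?_,
    fc_ball_mk.2 fun u t ht hu => ?_⟩
  · exact fc_bex_mk.2 (Loc.pure fun w hw => ⟨n, fmem_mono (hw.trans (ht'.trans (ht.trans hs))) hn,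
      fc_bex_mk.2 (Loc.pure fun w' hw' => ⟨v, fmem_mono (hw'.trans hw) hvu,
        fc_mono (hw'.trans (hw.trans (ht'.trans ht))) hfv⟩)⟩)
  · obtain ⟨_, _, ⟨i, hi⟩, _⟩ := (fmem_mkAll.1 hu).exists
    exact (Finset.notMem_empty i hi).elim

theorem ne_of_branch {X T f : Name P} {A : List Bool → Name P} {p : P}
    (hA : ∀ s, Fc p (disj X T f (A (false :: s)) (A (true :: s)))) {x : (ℕ → Bool) → Name P}
    (hX : ∀ z, fmem (x z) X p) (hx : ∀ z k, Fc p (clf T f (A (pre z k)) (x z)))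
    {z z' : ℕ → Bool} (h : z ≠ z') (r : P) (hr : r ≤ p) : ¬ feq (x z) (x z') r := by
  intro heq
  obtain ⟨k, hk, hne⟩ := exists_first_diff h
  have h1 : Fc r (clf T f (A (z k :: pre z k)) (x z)) := fc_mono hr (hx z (k + 1))
  have h2 : Fc r (clf T f (A (z' k :: pre z k)) (x z)) := by
    have h3 : Fc r (clf T f (A (z' k :: pre z' k)) (x z')) := fc_mono hr (hx z' (k + 1))
    rw [← hk] at h3
    exact (fc_congr (congr_clf T f (A (z' k :: pre z k)) r _ _ heq) le_rfl).2 h3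
  have h4 := fc_ball_mk.1 (hA (pre z k)) (x z) r hr (fmem_mono hr (hX z))
  rcases hz : z k with _ | _
  · rcases hz' : z' k with _ | _
    · exact hne (hz.trans hz'.symm)
    · rw [hz] at h1
      rw [hz'] at h2
      exact h4 r le_rfl ⟨h1, h2⟩
  · rcases hz' : z' k with _ | _
    · rw [hz] at h1
      rw [hz'] at h2
      exact h4 r le_rfl ⟨h2, h1⟩
    · exact hne (hz.trans hz'.symm)

end gen

section points

variable {Ω : Type} [MeasurableSpace Ω] (μ : Measure Ω) [IsProbabilityMeasure μ]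

theorem fc_zGe_pr (hcard : #{A : Set Ω // MeasurableSet A} ≤ 𝔠) (hcov : ∀ κ, κ < 𝔠 → CovAt κ)
    (hdom : ∀ κ, κ < 𝔠 → DomAt κ) {C : Name (Rnd μ)} {p : Rnd μ}
    (hC : Fc p (isPower C (oall (Rnd μ) ℕ))) : Fc p (zGe (oall (Rnd μ) ℕ) C) := by
  classical
  intro X T B
  refine fc_imp.2 fun p1 hp1 hprem => ?_
  by_contra hcon
  obtain ⟨p2, hp2, hneg⟩ := fc_of_not_neg hcon
  obtain ⟨I, hlin, hwf, c, q, hq, hI, hBc⟩ :=
    exists_index_pr μ hcard (fc_mono (hp2.trans hp1) hC) hneg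
  have hX : Fc q (isNonSeq (oall (Rnd μ) ℕ) X T) := fc_mono (hq.trans hp2) hprem.1
  have hB : Fc q (isBase B T) := fc_mono (hq.trans hp2) hprem.2
  obtain ⟨f, hf⟩ := exists_seq_pr (P := Rnd μ) hX.2.2.2.1
  obtain ⟨A, hA1, hA2, hA3⟩ := exists_scheme_pr hX hf
  choose b hbm hb using fun (s : List Bool) (F : Finset I) => exists_val_pr μ (bex X fun x =>
    phi T f (A s) (mkAll {i // i ∈ F} fun i => c i.1) x)
  have hκ : ℵ₀ ≤ max #I ℵ₀ := le_max_right _ _
  have hIκ : #I ≤ max #I ℵ₀ := le_max_left _ _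
  have hκc : max #I ℵ₀ < 𝔠 := max_lt hI aleph0_lt_continuum
  have hq0 : ∀ s, μ (q.1 \ b s ∅) = 0 := fun s =>
    (hb s ∅ q).1 (fc_phi_empty (fc_mono le_rfl hf) (hA1 s))
  obtain ⟨e, he, he1, he2, hT⟩ := exists_e_pr μ hκ hIκ q.1 b hbm hq0
  obtain ⟨y, y', hy, hyy, hconv⟩ := exists_points_pr μ hκ hIκ (hcov _ hκc) (hdom _ hκc) e he hT
  have pt := fun z => exists_point_pr μ hX hB hBc (A := fun k => A (pre z k))
    (fun k => hA2 _ _) (b := fun k F => b (pre z k) F) (fun k F r => hb (pre z k) F r)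
    (e := e z) (he z) (fun F k => he1 z F k) (fun i C h => he2 z i C h)
  choose x hxX hxc hxe using pt
  refine conv_of_names_pr (P := Rnd μ) (X := X) (T := T) (x := fun n => x (y n)) (x' := x y')
    (p := q) (fun n => hxX _) (hxX _) ?_ ?_ hX.2.2.2.2
  · intro u r hr hu hxu
    have h1 := fc_ball_mk.1 (fc_ball_mk.1 hB.2 u r hr hu) (x y') r le_rfl hxu
    refine (fc_bex_mk.1 h1).bind ?_
    rintro s hs ⟨v, hv, hxv, hvu⟩
    have hsq : s ≤ q := hs.trans hr
    refine (fmem_mkAll.1 (fmem_congr_right (feq_mono hsq hBc) hv)).bind ?_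
    rintro t ht ⟨i, hi⟩
    have htq : t ≤ q := ht.trans hsq
    have hxi : fmem (x y') (c i) t := fmem_congr_right hi (fmem_mono ht hxv)
    -- below `t`, the value of `x y' ∉ c i` is zero
    have h0 : μ (t.1 ∩ e y' i) = 0 := by
      by_contra hne
      let w : Rnd μ := ⟨t.1 ∩ e y' i, t.2.1.inter (he y' i), hne⟩
      have hw : w ≤ t := by
        show μ (w.1 \ t.1) = 0
        rw [Set.sdiff_eq_empty.2 Set.inter_subset_left, measure_empty]
      have hw' : μ (w.1 \ e y' i) = 0 := by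
        rw [Set.sdiff_eq_empty.2 Set.inter_subset_right, measure_empty]
      exact (hxe y' i w (hw.trans htq)).2 hw' w le_rfl (fmem_mono hw hxi)
    intro t₁ ht₁
    obtain ⟨N, hN⟩ := hconv i t₁.1 t₁.2.2
    have hm : MeasurableSet (t₁.1 \ ⋃ n, ⋃ (_ : N ≤ n), symmDiff (e (y n) i) (e y' i)) := by
      refine t₁.2.1.diff (MeasurableSet.iUnion fun n => MeasurableSet.iUnion fun _ => ?_)
      exact (he _ i).symmDiff (he _ i)
    let w : Rnd μ := ⟨_, hm, hN⟩
    have hw : w ≤ t₁ := by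
      show μ (w.1 \ t₁.1) = 0
      rw [Set.sdiff_eq_empty.2 Set.sdiff_subset, measure_empty]
    refine ⟨w, hw, N, fun n hn => ?_⟩
    have hwt : w ≤ t := hw.trans ht₁
    have key : fmem (x (y n)) (c i) w := by
      by_contra hcon2
      obtain ⟨w', hw', hneg'⟩ := fc_of_not_neg (φ := mem (x (y n)) (c i)) hcon2
      have h2 : μ (w'.1 \ e (y n) i) = 0 :=
        (hxe (y n) i w' (hw'.trans (hwt.trans htq))).1 hneg'
      refine w'.2.2 ?_
      have h3 : μ (w'.1 \ w.1) = 0 := hw'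
      have h4 : μ (w'.1 \ t.1) = 0 := hw'.trans hwt
      refine measure_mono_null (t := (w'.1 \ e (y n) i) ∪ (w'.1 \ w.1) ∪ (w'.1 \ t.1) ∪
        (t.1 ∩ e y' i)) ?_ (measure_union_null (measure_union_null (measure_union_null h2 h3) h4) h0)
      intro a ha
      by_cases ha1 : a ∈ e (y n) i
      · by_cases ha2 : a ∈ w.1
        · by_cases ha3 : a ∈ t.1
          · right
            refine ⟨ha3, ?_⟩
            by_contra ha4
            refine ha2.2 ?_
            exact Set.mem_iUnion.2 ⟨n, Set.mem_iUnion.2 ⟨hn, Or.inl ⟨ha1, ha4⟩⟩⟩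
          · exact Or.inl (Or.inr ⟨ha, ha3⟩)
        · exact Or.inl (Or.inl (Or.inr ⟨ha, ha2⟩))
      · exact Or.inl (Or.inl (Or.inl ⟨ha, ha1⟩))
    have h5 : fmem (x (y n)) v w := fmem_congr_right (feq_symm (feq_mono hwt hi)) key
    exact fc_subset.1 hvu _ w (hwt.trans ht) h5
  · intro n r hr
    exact ne_of_branch hA3 hxX hxc (hyy n (n + 1) (Nat.ne_of_lt (Nat.lt_succ_self n))) r hr

end points

end Pool.Agent.ZC
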