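import Pool.Agent.Lib_helper72.ZC.Defs
import Pool.Agent.Lib_helper72.ZC.B4

/-! Block E3: `ℵ₁ < 𝔠` is forced. -/

namespace Pool.Agent.ZC

open Pool.Agent.Lib_helper27 Fml MeasureTheory Cardinal V

section

variable {P : Type} [Preorder P]

/-- the name of a set of natural numbers -/
noncomputable def E3_nm (P : Type) [Preorder P] (a : Set ℕ) : Name P :=
  mkAll {n : ℕ // n ∈ a} fun n => onm P n.1

theorem E3_mem {a : Set ℕ} {n : ℕ} {p : P} : fmem (onm P n) (E3_nm P a) p ↔ n ∈ a := by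
  rw [E3_nm, fmem_mkAll]
  constructor
  · intro h
    obtain ⟨q, _, i, hi⟩ := h.exists
    rw [onm_inj hi]
    exact i.2
  · intro h
    exact Loc.pure fun q _ => ⟨⟨n, h⟩, feq_refl _ _⟩

theorem E3_inj {a b : Set ℕ} {p : P} (h : feq (E3_nm P a) (E3_nm P b) p) : a = b := by
  ext n
  rw [← E3_mem (P := P) (p := p), ← E3_mem (P := P) (p := p)]
  exact ⟨fmem_congr_right h, fmem_congr_right (feq_symm h)⟩

theorem E3_power {C : Name P} {p : P} (hC : Fc p (isPower C (oall P ℕ))) (a : Set ℕ) :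
    fmem (E3_nm P a) C p := by
  refine ((forces_iff nf_basic).1 (hC (E3_nm P a)) p le_rfl).2 ?_
  refine (forces_ball nf_basic).2 fun x q _ hx => ?_
  refine fmem_dense ((fmem_mkAll.1 hx).imp ?_)
  rintro r _ ⟨i, hi⟩
  exact fmem_congr_left (feq_symm hi) (onm_mem_oall i.1 r)

theorem E3_card (hch : (ℵ₁ : Cardinal.{0}) < 𝔠) (g : Set ℕ → Q.Om1) : ∃ x, ¬ {a | g a = x}.Countable := by
  by_contra hcon
  push Not at hcon
  have h1 : #(Set ℕ) ≤ Cardinal.sum fun x : Q.Om1 => #{a : Set ℕ // g a = x} := by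
    rw [← mk_sigma]
    exact (Cardinal.mk_congr (Equiv.sigmaFiberEquiv g)).ge
  have h2 : (Cardinal.sum fun x : Q.Om1 => #{a : Set ℕ // g a = x}) ≤ ℵ₁ := by
    refine (Cardinal.sum_le_mk_mul_iSup _).trans ?_
    rw [Q.mk_om1]
    refine (mul_le_mul' le_rfl (ciSup_le' fun x => ?_)).trans
      (Cardinal.mul_le_of_le (aleph0_le_aleph 1) le_rfl le_rfl)
    exact (Set.Countable.le_aleph0 (hcon x)).trans (aleph0_le_aleph 1)
  have h3 : #(Set ℕ) = 𝔠 := by simp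
  exact absurd (h3.symm.le.trans (h1.trans h2)) (not_le.2 hch)

end

theorem fc_not_ch_pr {Ω : Type} [MeasurableSpace Ω] (μ : Measure Ω) [IsProbabilityMeasure μ]
    (hch : (ℵ₁ : Cardinal.{0}) < 𝔠) {C : Name (Rnd μ)} {p : Rnd μ}
    (hC : Fc p (isPower C (oall (Rnd μ) ℕ))) :
    Fc p (neg (ex fun f => isInj f C (oall (Rnd μ) Q.Om1))) := by
  intro q₀ hq₀ hex
  obtain ⟨q, hq, f, hf⟩ := (forces_ex.1 hex).exists
  have key : ∀ a : Set ℕ, ∃ r ≤ q, ∃ x : Q.Om1, Fc r (app f (E3_nm (Rnd μ) a) (onm (Rnd μ) x)) := by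
    intro a
    obtain ⟨s, hs, y, hy, hy'⟩ := (func_total hf.1
      (fmem_mono (hq.trans hq₀) (E3_power hC a))).exists
    obtain ⟨t, ht, i, hi⟩ := (fmem_oall.1 hy).exists
    exact ⟨t, ht.trans hs, i, app_congr' (feq_refl _ _) hi (Forces.mono nf_basic ht hy')⟩
  choose r hr x hx using key
  obtain ⟨y, hy⟩ := E3_card hch x
  obtain ⟨a, ha, b, hb, hab, s, hs1, hs2⟩ := (ccc_rnd_pr μ) r _ hy
  have h1 := Forces.mono nf_basic hs1 (hx a)
  have h2 := Forces.mono nf_basic hs2 (hx b)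
  have ha' : x a = y := ha
  have hb' : x b = y := hb
  rw [ha'] at h1
  rw [hb'] at h2
  exact hab (E3_inj (inj_single (Forces.mono nf_basic (hs1.trans (hr a)) hf) h1 h2))

end Pool.Agent.ZC
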