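import Pool.Agent.Lib_helper72.ZC.E2
import Pool.Agent.Lib_helper72.ZC.E3
import Pool.Agent.Lib_helper72.ZC.B1
import Pool.Agent.Lib_helper72.ZC.B2
import Pool.Agent.Lib_helper72.ZC.B3
import Pool.Agent.Lib_helper72.ZC.B4
import Pool.Agent.Lib_helper72.ZC.D3
import Pool.Agent.Lib_helper27.R.Ccc

/-!
# Block F: the theorem
-/

set_option linter.unusedSectionVars false

namespace Pool.Agent.ZC

open Pool.Agent.Lib_helper27 Fml MeasureTheory Cardinal V

open Pool.Agent.Lib_helper27.ST (EE)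

instance (I : Type) : IsProbabilityMeasure (coinPow I) :=
  inferInstanceAs (IsProbabilityMeasure (Measure.infinitePi fun _ : I => coin))

section gen

variable {P : Type} [Preorder P]

theorem fc_isPower (p : P) : Fc p (isPower (mkPow (oall P ℕ)) (oall P ℕ)) :=
  fun _ => (forces_iff nf_basic).2 fun _ _ => fmem_mkPow

theorem fc_zLe {W C : Name P} {p : P} (hW : Fc p (isOmega W)) (hC : Fc p (isPower C W)) :
    Fc p (zLe W C) := by
  have h1 : Fc p (imp (and (isOmega W) (isPower C W)) (zLe W C)) :=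
    transfer_pr (cv (imp (and (isOmega 0) (isPower 1 0)) (zLe 0 1)) 2) 2 (fun M _ _ e => by
      change Holds (EE M) (imp (and (isOmega (e 0)) (isPower (e 1) (e 0))) (zLe (e 0) (e 1)))
      rw [holds_imp, holds_and]
      exact fun h => st_zLe_pr h.1 h.2) p (env [W] C)
  exact fc_imp.1 h1 p le_rfl ⟨hW, hC⟩

end gen

theorem main_pr (hMA : MartinsAxiom) (hCH : (ℵ₁ : Cardinal.{0}) < 𝔠) {I : Type} (hI : #I = ℵ₁)
    (p : RandomForcing I) : Fc p zEqC := by
  have hcard : #{A : Set (I → Bool) // MeasurableSet A} ≤ 𝔠 := mk_meas_pr (hI.le.trans hCH.le)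
  refine forces_ex.2 (Loc.pure fun q _ => ⟨oall (RandomForcing I) ℕ, ?_⟩)
  refine forces_ex.2 (Loc.pure fun q _ => ⟨mkPow (oall (RandomForcing I) ℕ), ?_⟩)
  refine forces_ex.2 (Loc.pure fun q _ => ⟨oall (RandomForcing I) Q.Om1, ?_⟩)
  exact ⟨omega_isOmega q, fc_isPower q, R.hart_ccc (ccc_rnd_pr (coinPow I)) q,
    fc_not_ch_pr (coinPow I) hCH (fc_isPower q),
    fc_zGe_pr (coinPow I) hcard (fun κ hκ => ma_cov_pr hMA hκ) (fun κ hκ => ma_dom_pr hMA hκ)
      (fc_isPower q), fc_zLe (omega_isOmega q) (fc_isPower q)⟩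

end Pool.Agent.ZC
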