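import Pool.Agent.Lib_helper27.R.Stmt
import Pool.Agent.Lib_helper27.V.Name

/-!
# The cardinal 𝔷 after adding `ℵ₁` random reals: the formulas and the forcing

`W` is `ω`, `T` is a topology on the set `X`.
-/

namespace Pool.Agent.ZC

open Pool.Agent.Lib_helper27 Fml MeasureTheory Cardinal

open scoped ENNReal

universe v

section formulas

variable {U : Type v}

/-- `a` is finite: there is a bijection of some `n ∈ W = ω` with `a` -/
def isFin (W a : U) : Fml U := bex W fun n => ex fun g => isBij g n a

/-- the topology `T` on `X` is Hausdorff -/
def isHaus (X T : U) : Fml U :=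
  ball X fun x => ball X fun y => imp (neg (eq x y)) (bex T fun u => bex T fun v =>
    and (mem x u) (and (mem y v) (neg (ex fun z => and (mem z u) (mem z v)))))

/-- the topology `T` on `X` is compact: every set `c` of open sets which covers `X` has a finite
subset which covers `X` -/
def isCpt (W X T : U) : Fml U :=
  all fun c => imp (and (isSubset c T) (ball X fun x => bex c fun u => mem x u))
    (ex fun d => and (isSubset d c) (and (isFin W d) (ball X fun x => bex d fun u => mem x u)))

/-- `B` is a base of the topology `T` -/
def isBase (B T : U) : Fml U :=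
  and (isSubset B T) (ball T fun u => ball u fun x => bex B fun b => and (mem x b) (isSubset b u))

/-- the sequence `g` (a function on `W = ω`) converges to `x`: for every open set `u` containing `x`
there is `m ∈ ω` such that `g(n) ∈ u` for all `n > m` -/
def convTo (W T g x : U) : Fml U :=
  ball T fun u => imp (mem x u) (bex W fun m => ball W fun n =>
    imp (mem m n) (all fun v => imp (app g n v) (mem v u)))

/-- the sequence `g` is eventually constant: there are `m ∈ ω` and `v` such that `g(n) = v` for all
`n > m` -/
def evConst (W g : U) : Fml U :=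
  bex W fun m => ex fun v => ball W fun n => imp (mem m n) (app g n v)

/-- there is no sequence of elements of `X` which converges (to an element of `X`) and is not
eventually constant -/
def noConv (W X T : U) : Fml U :=
  neg (ex fun g => and (isFunc g W X) (and (neg (evConst W g)) (bex X fun x => convTo W T g x)))

/-- `(X, T)` is a compact non-sequential space: an infinite compact Hausdorff space without
non-trivially convergent sequences (an infinite compact space is not discrete) -/
def isNonSeq (W X T : U) : Fml U :=
  and (isTop X T) (and (isHaus X T) (and (isCpt W X T) (and (neg (isFin W X)) (noConv W X T))))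

/-- `C` is the set of all subsets of `W` -/
def isPower (C W : U) : Fml U := all fun x => iff (mem x C) (isSubset x W)

/-- `𝔷 ≥ 𝔠`: if `(X, T)` is a compact non-sequential space and `B` is a base of `T`, then there is
an injection from `C`, the power set of `ω`, into `B` -/
def zGe (W C : U) : Fml U :=
  all fun X => all fun T => all fun B => imp (and (isNonSeq W X T) (isBase B T))
    (ex fun f => isInj f C B)

/-- `𝔷 ≤ 𝔠`: there are a compact non-sequential space `(X, T)` and a base `B` of `T` which injects
into `C`, the power set of `ω` -/
def zLe (W C : U) : Fml U :=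
  ex fun X => ex fun T => ex fun B => and (and (isNonSeq W X T) (isBase B T))
    (ex fun f => isInj f B C)

/-- `ℵ₁ < 𝔷 = 𝔠`. Here `W` is `ω`, `C` is the power set of `ω` and `K` is `ω₁` (the least ordinal
which does not inject into `ω`); the third line says that the power set of `ω` does not inject into
`ω₁`. -/
def zEqC : Fml U :=
  ex fun W => ex fun C => ex fun K =>
    and (isOmega W) (and (isPower C W) (and (isHartogs W K)
      (and (neg (ex fun f => isInj f C K))
        (and (zGe W C) (zLe W C)))))

end formulas

/-! ### Martin's axiom -/

/-- **Martin's axiom**: if `Q` is a nonempty partial order in which every antichain (set of pairwise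
incompatible elements) is countable and `D` is a family of fewer than `2 ^ ℵ₀` dense subsets of `Q`,
then there is a filter on `Q` which meets all of them. -/
def MartinsAxiom : Prop :=
  ∀ (Q : Type) [PartialOrder Q] [Nonempty Q],
    (∀ A : Set Q, (∀ a ∈ A, ∀ b ∈ A, a ≠ b → ¬ ∃ r, r ≤ a ∧ r ≤ b) → A.Countable) →
    ∀ D : Set (Set Q), #D < 𝔠 → (∀ S ∈ D, ∀ p, ∃ q ∈ S, q ≤ p) →
      ∃ G : Set Q, G.Nonempty ∧ (∀ p ∈ G, ∀ q, p ≤ q → q ∈ G) ∧
        (∀ p ∈ G, ∀ q ∈ G, ∃ r ∈ G, r ≤ p ∧ r ≤ q) ∧ ∀ S ∈ D, (G ∩ S).Nonempty

/-! ### Random forcing -/

/-- random forcing for the measure `μ`: the measurable sets which are not null -/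
def Rnd {Ω : Type} [MeasurableSpace Ω] (μ : Measure Ω) : Type :=
  {A : Set Ω // MeasurableSet A ∧ μ A ≠ 0}

/-- The order of random forcing: `A ≤ B` if `A \ B` is null. Hence the quotient by the equivalence
relation `A ≤ B ∧ B ≤ A` is the set of nonzero elements of the measure algebra. -/
instance {Ω : Type} [MeasurableSpace Ω] (μ : Measure Ω) : Preorder (Rnd μ) where
  le A B := μ (A.1 \ B.1) = 0
  le_refl A := by simp
  le_trans A B C h1 h2 := by
    refine measure_mono_null (t := (A.1 \ B.1) ∪ (B.1 \ C.1)) ?_ (measure_union_null h1 h2)
    intro x hx
    by_cases h : x ∈ B.1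
    · exact Or.inr ⟨h, hx.2⟩
    · exact Or.inl ⟨hx.1, h⟩

/-- the fair coin-toss measure on `{0, 1}` -/
noncomputable def coin : Measure Bool :=
  (2⁻¹ : ℝ≥0∞) • Measure.dirac false + (2⁻¹ : ℝ≥0∞) • Measure.dirac true

instance : IsProbabilityMeasure coin := by
  constructor
  simp [coin, ENNReal.inv_two_add_inv_two]

/-- the product measure on `{0, 1} ^ I` -/
noncomputable def coinPow (I : Type) : Measure (I → Bool) := Measure.infinitePi fun _ => coin

/-- The forcing that adds `#I` random reals: the measure algebra of `{0, 1} ^ I`. -/
abbrev RandomForcing (I : Type) : Type := Rnd (coinPow I)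

end Pool.Agent.ZC
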